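import Pool.Agent.Lib.H95L.K3

/-!
# Chunk C1: `|c_m - 1| ≤ (5/4) m r` for `m r ≤ 1/12` (Dobrushin's induction)

`c1_real`. `(1 + 48 r / 43) ^ m ≤ exp x` with `x = (48/43) m r ≤ 4/43` (`Real.add_one_le_exp`,
`Real.exp_nat_mul`), `exp x ≤ 1 + x + x ^ 2` (`Real.abs_exp_sub_one_sub_id_le`), and
`x + x^2 ≤ (47/43) x = (48·47/43^2) m r = 1.2202 m r ≤ (5/4) m r`.

`Nb_cc`. Strong induction on `m`. `m = 0`: `cc 0 = KR 1 * (KR 0)⁻¹ = 1` (or `cc_sub_one 0`, empty
sum). For `m ≥ 1` use `cc_sub_one`. For `j < m`: `j r ≤ 1/12`, so by induction and `Nb.inv`: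
`Nb r (cc j)⁻¹ (1/(1 - (5/4) j r))`, and `1/(1 - (5/4) j r) ≤ 48/43`. So the product of `i + 1`
inverses has norm at most `(48/43)^(i+1)` (`Nb.mul`, induction on the number of factors) and
`|c_m - 1| ≤ ∑_{i<m} C(m,i+1) r^{i+1} (48/43)^{i+1} = (1 + 48 r/43)^m - 1` (binomial theorem
`add_pow` with `Finset.sum_range_succ'`), then `c1_real`.
-/

namespace H95L

open Finset PowerSeries

theorem c1_real (m : ℕ) (r : ℝ) (hr : 0 ≤ r) (h : (m : ℝ) * r ≤ 1 / 12) :
    (1 + 48 / 43 * r) ^ m - 1 ≤ 5 / 4 * ((m : ℝ) * r) := by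
  have h0 : 0 ≤ (m : ℝ) * r := mul_nonneg (Nat.cast_nonneg m) hr
  have h1 : (1 + 48 / 43 * r) ^ m ≤ Real.exp (48 / 43 * ((m : ℝ) * r)) := by
    calc (1 + 48 / 43 * r) ^ m ≤ (Real.exp (48 / 43 * r)) ^ m := by
          apply pow_le_pow_left₀ (by positivity)
          linarith [Real.add_one_le_exp (48 / 43 * r)]
      _ = Real.exp (48 / 43 * ((m : ℝ) * r)) := by
          rw [← Real.exp_nat_mul]
          congr 1
          ring
  set x : ℝ := 48 / 43 * ((m : ℝ) * r) with hx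
  have hx0 : 0 ≤ x := by positivity
  have hx1 : x ≤ 4 / 43 := by rw [hx]; linarith
  have h2 : Real.exp x ≤ 1 + x + x ^ 2 := by
    have := Real.abs_exp_sub_one_sub_id_le (x := x) (by rw [abs_of_nonneg hx0]; linarith)
    have := (abs_le.1 this).2
    linarith
  have h3 : x ^ 2 ≤ 4 / 43 * x := by nlinarith
  have h4 : (m : ℝ) * r = 43 / 48 * x := by rw [hx]; ring
  rw [h4]
  nlinarith

theorem c1_prod {r c : ℝ} (hr : 0 ≤ r) (F : ℕ → ℝ⟦X⟧) (k : ℕ) (h : ∀ j, j < k → Nb r (F j) c) :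
    Nb r (∏ j ∈ range k, F j) (c ^ k) := by
  induction k with
  | zero => simpa using Nb_one hr
  | succ k ih =>
    rw [Finset.prod_range_succ, pow_succ]
    exact (ih fun j hj => h j (by omega)).mul (h k (by omega)) hr

theorem Nb_cc (m : ℕ) (r : ℝ) (hr : 0 ≤ r) (h : (m : ℝ) * r ≤ 1 / 12) :
    Nb r (cc m - 1) (5 / 4 * ((m : ℝ) * r)) := by
  induction m using Nat.strong_induction_on with
  | _ m ih =>
    have hinv : ∀ j, j < m → Nb r (cc j)⁻¹ (48 / 43) := by
      intro j hj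
      have hjm : (j : ℝ) * r ≤ (m : ℝ) * r := by
        apply mul_le_mul_of_nonneg_right _ hr
        exact_mod_cast hj.le
      have h1 := ih j hj (hjm.trans h)
      have h2 := h1.inv hr (by linarith)
      refine h2.mono ?_
      rw [div_le_div_iff₀ (by linarith) (by norm_num)]
      linarith
    rw [cc_sub_one]
    refine (Nb.sum (range m) (c := fun i => (m.choose (i + 1) : ℝ) * (r ^ (i + 1) * (48 / 43) ^ (i + 1))) hr ?_).mono ?_
    · intro i hi
      have hi' := Finset.mem_range.1 hi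
      have h1 := c1_prod (c := 48 / 43) hr (fun j => (cc (m - (i + 1) + j))⁻¹) (i + 1) (fun j hj => hinv _ (by omega))
      have h2 := ((Nb_X_pow hr (i + 1)).mul h1 hr).smul (m.choose (i + 1) : ℝ)
      rw [abs_of_nonneg (Nat.cast_nonneg _)] at h2
      exact h2
    · refine le_trans (le_of_eq ?_) (c1_real m r hr h)
      have h1 := add_pow (48 / 43 * r) (1 : ℝ) m
      rw [Finset.sum_range_succ'] at h1
      simp only [one_pow, mul_one, pow_zero, Nat.choose_zero_right, Nat.cast_one] at h1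
      rw [add_comm (1 : ℝ), h1, add_sub_cancel_right]
      refine Finset.sum_congr rfl fun i _ => ?_
      rw [← mul_pow, mul_comm r]
      ring

end H95L
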