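import Pool.Agent.Lib.H95L.C1

/-!
# Chunk C2: first difference, and the norm of `A_m`

Let `2 m r ≤ 1/12`. By `Nb_cc` at the radius `2 r`: `Nb (2r) (cc m - 1) ((5/2) m r)`. As
`D (cc m) = D (cc m - 1)`, `Nb_D` gives `Nb r (D (cc m)) ((5/4) m r)`. By `Nb_cc` at `r` and
`Nb.inv`: `Nb r (cc m)⁻¹ (1/(1 - (5/4) m r))` and `(5/4) m r ≤ 5/96`, so `≤ 96/91`.

* `Nb_et_cc`: `et (cc m) = D (cc m) * (cc m)⁻¹`, norm `≤ (5/4)(96/91) m r ≤ (4/3) m r`.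
* `Nb_dcc`: `cc_succ_sub`: `(cc (m+1) - cc m) - X = -(X * et (cc m))`, norm `≤ (4/3) m r^2`.
* `Nb_AA`: `AA_sum`, `Nb.sum`: `∑_{i<m} (4/3) i r = (4/3) r m (m-1)/2 ≤ (2/3) m^2 r`.
-/

namespace H95L

open Finset PowerSeries

theorem c2_inv (m : ℕ) (r : ℝ) (hr : 0 ≤ r) (h : 2 * ((m : ℝ) * r) ≤ 1 / 12) :
    Nb r (cc m)⁻¹ (96 / 91) := by
  have hx : 0 ≤ (m : ℝ) * r := by positivity
  have h1 := Nb_cc m r hr (by linarith)
  refine (h1.inv hr (by linarith)).mono ?_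
  rw [div_le_div_iff₀ (by linarith) (by norm_num)]
  linarith

theorem c2_D (m : ℕ) (r : ℝ) (hr : 0 ≤ r) (h : 2 * ((m : ℝ) * r) ≤ 1 / 12) :
    Nb r (D (cc m)) (5 / 4 * ((m : ℝ) * r)) := by
  have h1 := Nb_cc m (2 * r) (by linarith) (by linarith)
  have h2 := Nb_D h1 hr
  rw [D_sub, D_one, sub_zero] at h2
  refine h2.mono ?_
  linarith

theorem Nb_et_cc (m : ℕ) (r : ℝ) (hr : 0 ≤ r) (h : 2 * ((m : ℝ) * r) ≤ 1 / 12) :
    Nb r (et (cc m)) (4 / 3 * ((m : ℝ) * r)) := by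
  have hx : 0 ≤ (m : ℝ) * r := by positivity
  refine ((c2_D m r hr h).mul (c2_inv m r hr h) hr).mono ?_
  linarith

theorem Nb_dcc (m : ℕ) (r : ℝ) (hr : 0 ≤ r) (h : 2 * ((m : ℝ) * r) ≤ 1 / 12) :
    Nb r (cc (m + 1) - cc m - X) (4 / 3 * ((m : ℝ) * r ^ 2)) := by
  have h1 : cc (m + 1) - cc m - X = -(X * et (cc m)) := by
    rw [cc_succ_sub]
    ring
  rw [h1]
  refine (((Nb_X hr).mul (Nb_et_cc m r hr h) hr).neg).mono (le_of_eq ?_)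
  ring

theorem c2_sum (m : ℕ) : ∑ i ∈ range m, (i : ℝ) ≤ (m : ℝ) ^ 2 / 2 := by
  induction m with
  | zero => simp
  | succ m ih =>
    rw [sum_range_succ]
    push_cast
    nlinarith

theorem Nb_AA (m : ℕ) (r : ℝ) (hr : 0 ≤ r) (h : 2 * ((m : ℝ) * r) ≤ 1 / 12) :
    Nb r (AA m) (2 / 3 * ((m : ℝ) ^ 2 * r)) := by
  rw [AA_sum]
  refine (Nb.sum (range m) hr (c := fun i => 4 / 3 * ((i : ℝ) * r)) (fun i hi => ?_)).mono ?_
  · refine Nb_et_cc i r hr (le_trans ?_ h)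
    have h1 : (i : ℝ) ≤ m := by exact_mod_cast (mem_range.mp hi).le
    have h2 := mul_le_mul_of_nonneg_right h1 hr
    linarith
  · rw [← mul_sum, ← sum_mul]
    have h1 := mul_le_mul_of_nonneg_right (c2_sum m) hr
    linarith

end H95L
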