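import Pool.Agent.Lib.H95L.C2

/-!
# Chunk C3: second difference

Let `4 (m+1) r ≤ 1/12`, i.e. `(m+1) r ≤ 1/48`. Write `c = cc m`, `c' = cc (m+1)`, `d = c' - c`.
`et c' - et c = et (c' * c⁻¹)` (`et_mul`, `et_inv`), and `c' * c⁻¹ = 1 + d * c⁻¹`, inverse
`c * c'⁻¹ = 1 - d * c'⁻¹`. So
`et c' - et c = D (d * c⁻¹) * (c * c'⁻¹)`.

(1) At the radius `2 r` (`2 (m (2r)) ≤ 1/12`): `Nb (2r) (d - X) ((4/3) m (2r)^2) = (16/3) m r^2`;
`Nb (2r) c⁻¹ (96/91)` and `Nb (2r) (c⁻¹ - 1) ((96/91)(5/2) m r)` from `Nb_cc` at `2r`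
(`(5/4) m (2r) ≤ 5/96`). As `d * c⁻¹ - X = (d - X) * c⁻¹ + X * (c⁻¹ - 1)`,
`Nb (2r) (d * c⁻¹ - X) ((16/3)(96/91) m r^2 + 2r (96/91)(5/2) m r)`, at most `11 m r^2`
(`(16/3 + 5)(96/91) = 10.902`).
(2) Hence (`D X = X`, `Nb_D`) `Nb r (D (d * c⁻¹) - X) ((11/2) m r^2)`.
(3) `Nb r (d * c'⁻¹) ((r + (4/3) m r^2) * (192/187))` (`(5/4)(m+1) r ≤ 5/192`), which is at most
`(107/100) r` because `m r ≤ 1/48`.
(4) `et c' - et c - X = (D (d c⁻¹) - X) * (1 - d c'⁻¹) - X * (d c'⁻¹)`, so its norm is at most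
`(11/2) m r^2 (1 + (107/100) r) + (107/100) r^2`, and `r ≤ 1/48` gives
`≤ 5.63 m r^2 + 1.07 r^2 ≤ 6 (m+1) r^2`.

* `Nb_det`: this is (4).
* `Nb_d2cc`: `cc_d2` and `Nb_det`, times `X`.
-/

namespace H95L

open Finset PowerSeries

theorem c3_ne (m : ℕ) : constantCoeff (cc m) ≠ 0 := by
  rw [cc_const]
  exact one_ne_zero

theorem c3_mul_inv (m : ℕ) : cc m * (cc m)⁻¹ = 1 :=
  PowerSeries.mul_inv_cancel _ (c3_ne m)

theorem c3_inv_ne (m : ℕ) : constantCoeff (cc m)⁻¹ ≠ 0 := by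
  intro h
  have h3 := congrArg constantCoeff (c3_mul_inv m)
  rw [map_mul, h, mul_zero, map_one] at h3
  exact zero_ne_one h3

theorem c3_key (m : ℕ) : et (cc (m + 1)) - et (cc m) =
    D ((cc (m + 1) - cc m) * (cc m)⁻¹) * (1 - (cc (m + 1) - cc m) * (cc (m + 1))⁻¹) := by
  have h1 : et (cc (m + 1)) - et (cc m) = et (cc (m + 1) * (cc m)⁻¹) := by
    rw [et_mul (c3_ne _) (c3_inv_ne m), et_inv (c3_ne m)]
    ring
  have h2 : cc (m + 1) * (cc m)⁻¹ = 1 + (cc (m + 1) - cc m) * (cc m)⁻¹ := by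
    linear_combination c3_mul_inv m
  have h3 : D (cc (m + 1) * (cc m)⁻¹) = D ((cc (m + 1) - cc m) * (cc m)⁻¹) := by
    rw [h2, D_add, D_one, zero_add]
  have h4 : (cc (m + 1) * (cc m)⁻¹)⁻¹ = 1 - (cc (m + 1) - cc m) * (cc (m + 1))⁻¹ := by
    have h5 : constantCoeff (cc (m + 1) * (cc m)⁻¹) ≠ 0 := by
      rw [map_mul]
      exact mul_ne_zero (c3_ne _) (c3_inv_ne m)
    symm
    rw [PowerSeries.eq_inv_iff_mul_eq_one h5]
    linear_combination (-(cc (m + 1) * (cc m)⁻¹) + cc m * (cc m)⁻¹) * c3_mul_inv (m + 1) +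
      c3_mul_inv m
  rw [h1, et, h3, h4]

theorem c3_d (m : ℕ) (r : ℝ) (hr : 0 ≤ r) (h : 4 * (((m : ℝ) + 1) * r) ≤ 1 / 12) :
    Nb r ((cc (m + 1) - cc m) * (cc (m + 1))⁻¹) (11 / 10 * r) := by
  have hm : 0 ≤ (m : ℝ) * r := by positivity
  have h1 := Nb_dcc m r hr (by linarith)
  have h2 := h1.add (Nb_X hr) hr
  rw [sub_add_cancel] at h2
  have h3 := c2_inv (m + 1) r hr (by push_cast; linarith)
  refine (h2.mul h3 hr).mono ?_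
  have h4 : (m : ℝ) * r ^ 2 ≤ 1 / 48 * r := by
    have h5 : (m : ℝ) * r ≤ 1 / 48 := by linarith
    have h6 := mul_le_mul_of_nonneg_right h5 hr
    linarith [h6, (by ring : (m : ℝ) * r ^ 2 = m * r * r)]
  linarith

theorem c3_D (m : ℕ) (r : ℝ) (hr : 0 ≤ r) (h : 4 * (((m : ℝ) + 1) * r) ≤ 1 / 12) :
    Nb r (D ((cc (m + 1) - cc m) * (cc m)⁻¹) - X) (11 / 2 * ((m : ℝ) * r ^ 2)) := by
  have hm : 0 ≤ (m : ℝ) * r := by positivity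
  have hr2 : 0 ≤ 2 * r := by linarith
  have h1 := Nb_dcc m (2 * r) hr2 (by linarith)
  have h2 := c2_inv m (2 * r) hr2 (by linarith)
  have h3 := (Nb_cc m (2 * r) hr2 (by linarith)).inv_sub_one hr2 (by linarith)
  have h4 := (h1.mul h2 hr2).add ((Nb_X hr2).mul h3 hr2) hr2
  have h5 : (cc (m + 1) - cc m - X) * (cc m)⁻¹ + X * ((cc m)⁻¹ - 1) =
      (cc (m + 1) - cc m) * (cc m)⁻¹ - X := by ring
  rw [h5] at h4
  have h6 : 5 / 4 * ((m : ℝ) * (2 * r)) / (1 - 5 / 4 * ((m : ℝ) * (2 * r))) ≤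
      96 / 91 * (5 / 4 * ((m : ℝ) * (2 * r))) := by
    rw [div_le_iff₀ (by linarith)]
    nlinarith
  have h7 := mul_le_mul_of_nonneg_left h6 hr2
  have h8 := Nb_D (h4.mono (C' := 11 * ((m : ℝ) * r ^ 2)) (by nlinarith)) hr
  rw [D_sub, D_X] at h8
  refine h8.mono (le_of_eq ?_)
  ring

theorem Nb_det (m : ℕ) (r : ℝ) (hr : 0 ≤ r) (h : 4 * (((m : ℝ) + 1) * r) ≤ 1 / 12) :
    Nb r (et (cc (m + 1)) - et (cc m) - X) (6 * (((m : ℝ) + 1) * r ^ 2)) := by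
  have hm : 0 ≤ (m : ℝ) * r := by positivity
  have h1 := c3_D m r hr h
  have h2 := c3_d m r hr h
  have h3 := ((Nb_one hr).sub h2 hr)
  have h4 := (h1.mul h3 hr).sub ((Nb_X hr).mul h2 hr) hr
  have h5 : (D ((cc (m + 1) - cc m) * (cc m)⁻¹) - X) *
      (1 - (cc (m + 1) - cc m) * (cc (m + 1))⁻¹) -
      X * ((cc (m + 1) - cc m) * (cc (m + 1))⁻¹) = et (cc (m + 1)) - et (cc m) - X := by
    rw [c3_key]
    ring
  rw [h5] at h4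
  refine h4.mono ?_
  have hr1 : r ≤ 1 / 48 := by linarith
  have h6 : 0 ≤ (m : ℝ) * r ^ 2 := by positivity
  have h7 := mul_le_mul_of_nonneg_left hr1 h6
  have h8 : 0 ≤ r ^ 2 := by positivity
  nlinarith

theorem Nb_d2cc (m : ℕ) (r : ℝ) (hr : 0 ≤ r) (h : 4 * (((m : ℝ) + 1) * r) ≤ 1 / 12) :
    Nb r ((cc (m + 2) - cc (m + 1)) - (cc (m + 1) - cc m) + X ^ 2)
      (6 * (((m : ℝ) + 1) * r ^ 3)) := by
  have h1 : (cc (m + 2) - cc (m + 1)) - (cc (m + 1) - cc m) + X ^ 2 =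
      -(X * (et (cc (m + 1)) - et (cc m) - X)) := by
    rw [cc_d2]
    ring
  rw [h1]
  refine (((Nb_X hr).mul (Nb_det m r hr h) hr).neg).mono (le_of_eq ?_)
  ring

end H95L
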