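import Pool.Agent.Lib.H95L.C3

/-!
# Chunk C4: the ratio `q_m`

Let `M = (m+1) r ≤ 1/48`. Write `c = cc m`, `c' = cc (m+1)`, `c'' = cc (m+2)`, `d = c' - c`,
`e = (c'' - c') - (c' - c)`. Then `c'' c - c'^2 = c e - d^2` (ring) and
`q_m - 1 + 2 X^2 = (c e - d^2 + 2 X^2) * (c'⁻¹ * c'⁻¹) + 2 X^2 * (1 - c'⁻¹ * c'⁻¹)`
(use `c' * c'⁻¹ = 1`).

Norms at `r`: `c - 1`: `(5/4) m r`; `e + X^2`: `6 (m+1) r^3`; `d - X`: `(4/3) m r^2`.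
* `c e + X^2 = (1 + (c - 1)) (e + X^2) - (c - 1) X^2`: at most
  `(1 + 5/192) 6 (m+1) r^3 + (5/4) m r^3 ≤ (371/50) (m+1) r^3` (7.42).
* `d^2 - X^2 = (d - X) (d - X + 2 X)`: at most `(4/3) m r^2 ((4/3) m r^2 + 2 r)`
  `≤ (271/100) (m+1) r^3`.
* so `c e - d^2 + 2 X^2 = (c e + X^2) - (d^2 - X^2)`: at most `(1013/100)(m+1) r^3`.
* `c'⁻¹`: `192/187`, `c'⁻¹ - 1`: `(192/187)(5/4)(m+1) r` (`Nb_cc`, `(5/4)(m+1) r ≤ 5/192`), so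
  `1 - c'⁻¹ c'⁻¹ = -(c'⁻¹ - 1)(c'⁻¹ - 1 + 2)`: at most `(13/5)(m+1) r` (2.601 < 2.61).
Total: `(1013/100)(192/187)^2 (m+1) r^3 + 2 r^2 (261/100) (m+1) r ≤ 17 (m+1) r^3`
(10.68 + 5.22 = 15.9).
-/

namespace H95L

open Finset PowerSeries

theorem c4_u (m : ℕ) (r : ℝ) (hr : 0 ≤ r) (h : 4 * (((m : ℝ) + 1) * r) ≤ 1 / 12) :
    Nb r (cc (m + 1))⁻¹ (192 / 187) := by
  have hm : 0 ≤ ((m : ℝ) + 1) * r := by positivity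
  have h1 := Nb_cc (m + 1) r hr (by push_cast; linarith)
  push_cast at h1
  refine (h1.inv hr (by linarith)).mono ?_
  rw [div_le_div_iff₀ (by linarith) (by norm_num)]
  linarith

theorem c4_u1 (m : ℕ) (r : ℝ) (hr : 0 ≤ r) (h : 4 * (((m : ℝ) + 1) * r) ≤ 1 / 12) :
    Nb r ((cc (m + 1))⁻¹ - 1) (13 / 10 * (((m : ℝ) + 1) * r)) := by
  have hm : 0 ≤ ((m : ℝ) + 1) * r := by positivity
  have h1 := Nb_cc (m + 1) r hr (by push_cast; linarith)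
  push_cast at h1
  refine (h1.inv_sub_one hr (by linarith)).mono ?_
  rw [div_le_iff₀ (by linarith)]
  nlinarith

theorem c4_uu (m : ℕ) (r : ℝ) (hr : 0 ≤ r) (h : 4 * (((m : ℝ) + 1) * r) ≤ 1 / 12) :
    Nb r (1 - (cc (m + 1))⁻¹ * (cc (m + 1))⁻¹) (27 / 10 * (((m : ℝ) + 1) * r)) := by
  have hm : 0 ≤ ((m : ℝ) + 1) * r := by positivity
  have h1 := c4_u1 m r hr h
  have h2 := (h1.mul ((h1.add (Nb_one hr) hr).add (Nb_one hr) hr) hr).neg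
  have h3 : -(((cc (m + 1))⁻¹ - 1) * ((cc (m + 1))⁻¹ - 1 + 1 + 1)) =
      1 - (cc (m + 1))⁻¹ * (cc (m + 1))⁻¹ := by ring
  rw [h3] at h2
  refine h2.mono ?_
  nlinarith

theorem c4_ce (m : ℕ) (r : ℝ) (hr : 0 ≤ r) (h : 4 * (((m : ℝ) + 1) * r) ≤ 1 / 12) :
    Nb r (cc m * ((cc (m + 2) - cc (m + 1)) - (cc (m + 1) - cc m)) + X ^ 2)
      (75 / 10 * (((m : ℝ) + 1) * r ^ 3)) := by
  have hm : 0 ≤ (m : ℝ) * r := by positivity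
  have h1 := Nb_cc m r hr (by linarith)
  have h2 := Nb_d2cc m r hr h
  have h3 := (((Nb_one hr).add h1 hr).mul h2 hr).sub (h1.mul (Nb_X_pow hr 2) hr) hr
  have h4 : (1 + (cc m - 1)) * ((cc (m + 2) - cc (m + 1)) - (cc (m + 1) - cc m) + X ^ 2) -
      (cc m - 1) * X ^ 2 =
      cc m * ((cc (m + 2) - cc (m + 1)) - (cc (m + 1) - cc m)) + X ^ 2 := by ring
  rw [h4] at h3
  refine h3.mono ?_
  have h5 : 0 ≤ ((m : ℝ) + 1) * r ^ 3 := by positivity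
  have h6 : (m : ℝ) * r ≤ 1 / 48 := by linarith
  have h7 := mul_le_mul_of_nonneg_left h6 h5
  have h8 : (m : ℝ) * r * r ^ 2 ≤ ((m : ℝ) + 1) * r ^ 3 := by
    have : 0 ≤ r ^ 3 := by positivity
    nlinarith
  nlinarith

theorem c4_dd (m : ℕ) (r : ℝ) (hr : 0 ≤ r) (h : 4 * (((m : ℝ) + 1) * r) ≤ 1 / 12) :
    Nb r ((cc (m + 1) - cc m) ^ 2 - X ^ 2) (28 / 10 * (((m : ℝ) + 1) * r ^ 3)) := by
  have hm : 0 ≤ (m : ℝ) * r := by positivity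
  have h1 := Nb_dcc m r hr (by linarith)
  have h3 := h1.mul ((h1.add (Nb_X hr) hr).add (Nb_X hr) hr) hr
  have h4 : (cc (m + 1) - cc m - X) * (cc (m + 1) - cc m - X + X + X) =
      (cc (m + 1) - cc m) ^ 2 - X ^ 2 := by ring
  rw [h4] at h3
  refine h3.mono ?_
  have h5 : 0 ≤ (m : ℝ) * r ^ 3 := by positivity
  have h6 : (m : ℝ) * r ≤ 1 / 48 := by linarith
  have h7 := mul_le_mul_of_nonneg_left h6 h5
  have h8 : 0 ≤ r ^ 3 := by positivity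
  have h9 : 4 / 3 * ((m : ℝ) * r ^ 2) * (4 / 3 * ((m : ℝ) * r ^ 2) + r + r) =
      16 / 9 * ((m : ℝ) * r ^ 3 * (m * r)) + 8 / 3 * ((m : ℝ) * r ^ 3) := by ring
  rw [h9]
  nlinarith

theorem Nb_qq (m : ℕ) (r : ℝ) (hr : 0 ≤ r) (h : 4 * (((m : ℝ) + 1) * r) ≤ 1 / 12) :
    Nb r (qq m - 1 + (2 : ℝ) • X ^ 2) (17 * (((m : ℝ) + 1) * r ^ 3)) := by
  have h1 := ((c4_ce m r hr h).sub (c4_dd m r hr h) hr).mul
    ((c4_u m r hr h).mul (c4_u m r hr h) hr) hr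
  have h2 := ((Nb_X_pow hr 2).smul 2).mul (c4_uu m r hr h) hr
  have h3 := h1.add h2 hr
  have hcc := c3_mul_inv (m + 1)
  set c := cc m
  set c1 := cc (m + 1)
  set c2 := cc (m + 2)
  have h4 : (c * ((c2 - c1) - (c1 - c)) + X ^ 2 - ((c1 - c) ^ 2 - X ^ 2)) * (c1⁻¹ * c1⁻¹) +
      (2 : ℝ) • X ^ 2 * (1 - c1⁻¹ * c1⁻¹) = qq m - 1 + (2 : ℝ) • X ^ 2 := by
    have h5 : qq m = c2 * c * (c1⁻¹ * c1⁻¹) := rfl
    have h6 : (2 : ℝ) • (X ^ 2 : ℝ⟦X⟧) = X ^ 2 + X ^ 2 := two_smul _ _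
    rw [h5, h6]
    linear_combination (-(c1 * c1⁻¹) - 1) * hcc
  rw [h4] at h3
  refine h3.mono ?_
  have h7 : 0 ≤ ((m : ℝ) + 1) * r ^ 3 := by positivity
  rw [abs_of_pos (by norm_num : (0 : ℝ) < 2)]
  nlinarith

end H95L
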