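import Pool.Agent.Lib.H95L.C4

/-!
# Chunk C5: the logarithmic derivative of `q_m`

Let `8 (m+1) r ≤ 1/12`, so `(m+1) r ≤ 1/96` and `r ≤ 1/96`.
(1) `Nb_qq` at `2 r`: `Nb (2r) (q - 1 + 2 X^2) (136 (m+1) r^3)`; apply `Nb_D` (`D 1 = 0`,
`D X^2 = 2 X^2`): `Nb r (D q + 4 X^2) (68 (m+1) r^3)`.
(2) `Nb_qq` at `r`: `Nb r (q - 1) (2 r^2 + 17 (m+1) r^3)` and `17 (m+1) r ≤ 17/96`, so the norm is
at most `(11/5) r^2 ≤ 1/4000`. `Nb.inv`, `Nb.inv_sub_one`: `Nb r q⁻¹ (1001/1000)`,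
`Nb r (q⁻¹ - 1) ((9/4) r^2)`.
(3) `et q + 4 X^2 = (D q + 4 X^2) * q⁻¹ - 4 X^2 * (q⁻¹ - 1)`: norm at most
`68 (1001/1000) (m+1) r^3 + 4 r^2 (9/4) r^2` and `9 r^4 ≤ (9/96) r^3 ≤ (m+1) r^3`. Total `≤ 70`.
-/

namespace H95L

open Finset PowerSeries

theorem c5_q1 (m : ℕ) (r : ℝ) (hr : 0 ≤ r) (h : 8 * (((m : ℝ) + 1) * r) ≤ 1 / 12) :
    Nb r (qq m - 1) (11 / 5 * r ^ 2) := by
  have hm : 0 ≤ (m : ℝ) * r := by positivity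
  have h1 := Nb_qq m r hr (by linarith)
  have h2 := h1.sub ((Nb_X_pow hr 2).smul 2) hr
  rw [add_sub_cancel_right] at h2
  refine h2.mono ?_
  rw [abs_of_pos (by norm_num : (0 : ℝ) < 2)]
  have h3 : ((m : ℝ) + 1) * r ≤ 1 / 96 := by linarith
  have h4 : 0 ≤ r ^ 2 := by positivity
  have h5 := mul_le_mul_of_nonneg_right h3 h4
  have h6 : ((m : ℝ) + 1) * r ^ 3 = (m + 1) * r * r ^ 2 := by ring
  rw [h6]
  linarith

theorem c5_D (m : ℕ) (r : ℝ) (hr : 0 ≤ r) (h : 8 * (((m : ℝ) + 1) * r) ≤ 1 / 12) :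
    Nb r (D (qq m) + (4 : ℝ) • X ^ 2) (68 * (((m : ℝ) + 1) * r ^ 3)) := by
  have h1 := Nb_D (Nb_qq m (2 * r) (by linarith) (by linarith)) hr
  have h2 : D (qq m - 1 + (2 : ℝ) • X ^ 2) = D (qq m) + (4 : ℝ) • X ^ 2 := by
    rw [D_add, D_sub, D_one, sub_zero, D_smul, D_X_sq, smul_smul]
    norm_num
  rw [h2] at h1
  refine h1.mono (le_of_eq ?_)
  ring

theorem Nb_et_qq (m : ℕ) (r : ℝ) (hr : 0 ≤ r) (h : 8 * (((m : ℝ) + 1) * r) ≤ 1 / 12) :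
    Nb r (et (qq m) + (4 : ℝ) • X ^ 2) (70 * (((m : ℝ) + 1) * r ^ 3)) := by
  have hm : 0 ≤ (m : ℝ) * r := by positivity
  have hr1 : r ≤ 1 / 96 := by linarith
  have h0 : 0 ≤ r ^ 2 := by positivity
  have hr2 : r ^ 2 ≤ 1 / 9216 := by nlinarith
  have h1 := c5_q1 m r hr h
  have h2 : Nb r (qq m)⁻¹ (1001 / 1000) := by
    refine (h1.inv hr (by linarith)).mono ?_
    rw [div_le_div_iff₀ (by linarith) (by norm_num)]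
    linarith
  have h3 : Nb r ((qq m)⁻¹ - 1) (9 / 4 * r ^ 2) := by
    refine (h1.inv_sub_one hr (by linarith)).mono ?_
    rw [div_le_iff₀ (by linarith)]
    nlinarith
  have h4 := ((c5_D m r hr h).mul h2 hr).sub (((Nb_X_pow hr 2).smul 4).mul h3 hr) hr
  have h5 : (D (qq m) + (4 : ℝ) • X ^ 2) * (qq m)⁻¹ - (4 : ℝ) • X ^ 2 * ((qq m)⁻¹ - 1) =
      et (qq m) + (4 : ℝ) • X ^ 2 := by
    rw [et]
    ring
  rw [h5] at h4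
  refine h4.mono ?_
  rw [abs_of_pos (by norm_num : (0 : ℝ) < 4)]
  have h6 : 0 ≤ (m : ℝ) * r ^ 3 := by positivity
  have h7 : r ^ 2 * r ^ 2 ≤ 1 / 96 * r ^ 3 := by
    have : 0 ≤ r ^ 3 := by positivity
    nlinarith
  nlinarith

end H95L
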