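import Pool.Agent.Lib.H95L.C5

/-!
# Chunk C6: the second difference of `A_m / m`

`c6_avg` (pure algebra). For a sequence `b` in a real vector space and `B m = ∑_{i<m} b i`, `m ≥ 1`:
`(m+2)⁻¹ B (m+2) - 2 (m+1)⁻¹ B (m+1) + m⁻¹ B m
   = ∑_{i<m} ((i+1)(i+2) / (m (m+1) (m+2))) (b (i+2) - 2 b (i+1) + b i)`.
Proof: let `T m = ∑_{i<m} (i+1)(i+2) (b (i+2) - 2 b (i+1) + b i)`; by induction on `m` (also for
`m = 0`), `T m = m (m+1) B (m+2) - 2 m (m+2) B (m+1) + (m+1)(m+2) B m`: the step is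
`T (m+1) - T m = (m+1)(m+2)(b (m+2) - 2 b (m+1) + b m)` with `B (k+1) = B k + b k`; use `module` or
`linear_combination (exp := 1)`. (It is enough to do it for the module `ℝ⟦X⟧`.)

`d2h_eq`: `hT m = m⁻¹ • AA m`, `AA_sum`, `c6_avg`, `et_qq`.

`Nb_d2h`: `∑_{i<m} (i+1)(i+2) = m (m+1)(m+2)/3` (`c6_sum`, induction), so
`d2h m + (4/3) X^2 = ∑_{i<m} ((i+1)(i+2)/(m(m+1)(m+2))) (et (qq i) + 4 X^2)`; the norm of each
bracket is at most `70 (i+1) r^3 ≤ 70 m r^3` (`Nb_et_qq`, `(i+1) r ≤ m r`), total weight `1/3`.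
-/

namespace H95L

open Finset PowerSeries

theorem c6_T (b : ℕ → ℝ⟦X⟧) (m : ℕ) :
    ∑ i ∈ range m, (((i : ℝ) + 1) * (i + 2)) • (b (i + 2) - (2 : ℝ) • b (i + 1) + b i) =
      ((m : ℝ) * (m + 1)) • (∑ i ∈ range (m + 2), b i) -
        (2 * ((m : ℝ) * (m + 2))) • (∑ i ∈ range (m + 1), b i) +
        (((m : ℝ) + 1) * (m + 2)) • (∑ i ∈ range m, b i) := by
  induction m with
  | zero => simp
  | succ m ih =>
    rw [sum_range_succ, ih]
    simp only [sum_range_succ _ m, sum_range_succ _ (m + 1), sum_range_succ _ (m + 1 + 1),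
      (rfl : m + 2 = m + 1 + 1), (rfl : m + 1 + 2 = m + 1 + 1 + 1)]
    push_cast
    module

theorem c6_avg (b : ℕ → ℝ⟦X⟧) (m : ℕ) (hm : 1 ≤ m) :
    ((m : ℝ) + 2)⁻¹ • (∑ i ∈ range (m + 2), b i) - (2 : ℝ) • (((m : ℝ) + 1)⁻¹ •
      (∑ i ∈ range (m + 1), b i)) + ((m : ℝ)⁻¹) • (∑ i ∈ range m, b i) =
    ∑ i ∈ range m, ((((i : ℝ) + 1) * (i + 2)) / ((m : ℝ) * (m + 1) * (m + 2))) •
      (b (i + 2) - (2 : ℝ) • b (i + 1) + b i) := by
  have hm0 : (m : ℝ) ≠ 0 := by exact_mod_cast (by omega : m ≠ 0)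
  have hm1 : (m : ℝ) + 1 ≠ 0 := by positivity
  have hm2 : (m : ℝ) + 2 ≠ 0 := by positivity
  have h1 : ∑ i ∈ range m, ((((i : ℝ) + 1) * (i + 2)) / ((m : ℝ) * (m + 1) * (m + 2))) •
      (b (i + 2) - (2 : ℝ) • b (i + 1) + b i) = ((m : ℝ) * (m + 1) * (m + 2))⁻¹ •
      ∑ i ∈ range m, (((i : ℝ) + 1) * (i + 2)) • (b (i + 2) - (2 : ℝ) • b (i + 1) + b i) := by
    rw [smul_sum]
    refine sum_congr rfl (fun i _ => ?_)
    rw [smul_smul]
    congr 1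
    rw [div_eq_inv_mul]
  rw [h1, c6_T, smul_add, smul_sub, smul_smul, smul_smul, smul_smul, smul_smul]
  congr 1
  · congr 1
    · congr 1
      field_simp
    · congr 1
      field_simp
  · congr 1
    field_simp

theorem c6_sum (m : ℕ) : ∑ i ∈ range m, (((i : ℝ) + 1) * (i + 2)) =
    (m : ℝ) * (m + 1) * (m + 2) / 3 := by
  induction m with
  | zero => simp
  | succ m ih =>
    rw [sum_range_succ, ih]
    push_cast
    ring

theorem d2h_eq (m : ℕ) (hm : 1 ≤ m) : d2h m =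
    ∑ i ∈ range m, ((((i : ℝ) + 1) * (i + 2)) / ((m : ℝ) * (m + 1) * (m + 2))) • et (qq i) := by
  have h1 := c6_avg (fun i => et (cc i)) m hm
  rw [d2h, hT, hT, hT, AA_sum, AA_sum, AA_sum]
  push_cast
  rw [h1]
  refine sum_congr rfl (fun i _ => ?_)
  rw [et_qq]

theorem Nb_d2h (m : ℕ) (hm : 1 ≤ m) (r : ℝ) (hr : 0 ≤ r) (h : 8 * ((m : ℝ) * r) ≤ 1 / 12) :
    Nb r (d2h m + (4 / 3 : ℝ) • X ^ 2) (70 / 3 * ((m : ℝ) * r ^ 3)) := by
  have hm0 : (0 : ℝ) < m := by exact_mod_cast hm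
  have hP : (0 : ℝ) < (m : ℝ) * (m + 1) * (m + 2) := by positivity
  have hw : ∑ i ∈ range m, ((((i : ℝ) + 1) * (i + 2)) / ((m : ℝ) * (m + 1) * (m + 2))) =
      1 / 3 := by
    rw [← sum_div, c6_sum]
    field_simp
  have h1 : d2h m + (4 / 3 : ℝ) • X ^ 2 = ∑ i ∈ range m,
      ((((i : ℝ) + 1) * (i + 2)) / ((m : ℝ) * (m + 1) * (m + 2))) •
        (et (qq i) + (4 : ℝ) • X ^ 2) := by
    rw [d2h_eq m hm]
    simp only [smul_add]
    rw [sum_add_distrib, ← sum_smul, hw, smul_smul]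
    norm_num
  rw [h1]
  refine (Nb.sum (range m) hr (c := fun i => (((i : ℝ) + 1) * (i + 2)) /
    ((m : ℝ) * (m + 1) * (m + 2)) * (70 * ((m : ℝ) * r ^ 3))) (fun i hi => ?_)).mono ?_
  · have hi1 : (i : ℝ) + 1 ≤ m := by
      have := mem_range.mp hi
      exact_mod_cast this
    have h2 : ((i : ℝ) + 1) * r ≤ m * r := mul_le_mul_of_nonneg_right hi1 hr
    have h3 := (Nb_et_qq i r hr (by linarith)).smul
      ((((i : ℝ) + 1) * (i + 2)) / ((m : ℝ) * (m + 1) * (m + 2)))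
    rw [abs_of_nonneg (by positivity)] at h3
    refine h3.mono (mul_le_mul_of_nonneg_left ?_ (by positivity))
    have h4 := mul_le_mul_of_nonneg_right hi1 (by positivity : 0 ≤ r ^ 3)
    linarith
  · rw [← sum_mul, hw]
    linarith

end H95L
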