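import Pool.Agent.Lib.H95L.C3

/-!
# Chunk C7: the slope `gT s = 2 (hT s - hT (s-1))`

`c7_avg` (pure algebra), `s ≥ 2`, `B m = ∑_{i<m} b i`:
`s⁻¹ B s - (s-1)⁻¹ B (s-1) = (1/(s (s-1))) ∑_{k<s-1} (k+1) (b (k+1) - b k)`.
Proof: write `s = t + 2`, so the claim is
`(t+1) B (t+2) - (t+2) B (t+1) = ∑_{k<t+1} (k+1)(b (k+1) - b k)`, induction on `t`
(`B (t+2) = B (t+1) + b (t+1)`; step: both sides grow by `(t+2)(b (t+2) - b (t+1))`).

`gT_eq`: `AA_sum`, `c7_avg` for `b = et ∘ cc`.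

`Nb_gT`: `∑_{k<s-1} (k+1) = s (s-1)/2`, so
`gT s - X = (2/(s(s-1))) ∑_{k<s-1} (k+1) (et (cc (k+1)) - et (cc k) - X)`, each bracket has norm
at most `6 (k+1) r^2 ≤ 6 s r^2` (`Nb_det`, `k + 1 ≤ s`), the weights have the sum `1`.
-/

namespace H95L

open Finset PowerSeries

theorem c7_T (b : ℕ → ℝ⟦X⟧) (t : ℕ) :
    ∑ k ∈ range (t + 1), ((k : ℝ) + 1) • (b (k + 1) - b k) =
      ((t : ℝ) + 1) • (∑ i ∈ range (t + 2), b i) -
        ((t : ℝ) + 2) • (∑ i ∈ range (t + 1), b i) := by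
  induction t with
  | zero =>
    simp only [sum_range_succ, range_zero, sum_empty]
    push_cast
    module
  | succ t ih =>
    rw [sum_range_succ, ih]
    simp only [sum_range_succ _ (t + 1), sum_range_succ _ (t + 1 + 1)]
    push_cast
    module

theorem c7_avg (b : ℕ → ℝ⟦X⟧) (t : ℕ) :
    ((t : ℝ) + 2)⁻¹ • (∑ i ∈ range (t + 2), b i) - ((t : ℝ) + 1)⁻¹ • (∑ i ∈ range (t + 1), b i) =
    ∑ k ∈ range (t + 1), (((k : ℝ) + 1) / (((t : ℝ) + 1) * (t + 2))) • (b (k + 1) - b k) := by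
  have hm1 : (t : ℝ) + 1 ≠ 0 := by positivity
  have hm2 : (t : ℝ) + 2 ≠ 0 := by positivity
  have h1 : ∑ k ∈ range (t + 1), (((k : ℝ) + 1) / (((t : ℝ) + 1) * (t + 2))) • (b (k + 1) - b k) =
      (((t : ℝ) + 1) * (t + 2))⁻¹ • ∑ k ∈ range (t + 1), ((k : ℝ) + 1) • (b (k + 1) - b k) := by
    rw [smul_sum]
    refine sum_congr rfl (fun i _ => ?_)
    rw [smul_smul]
    congr 1
    rw [div_eq_inv_mul]
  rw [h1, c7_T, smul_sub, smul_smul, smul_smul]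
  congr 1
  · congr 1
    field_simp
  · congr 1
    field_simp

theorem gT_eq (t : ℕ) : gT (t + 2) = ∑ k ∈ range (t + 1),
    (2 * ((k : ℝ) + 1) / (((t : ℝ) + 1) * (t + 2))) • (et (cc (k + 1)) - et (cc k)) := by
  have h1 := c7_avg (fun i => et (cc i)) t
  have h2 : t + 2 - 1 = t + 1 := rfl
  rw [gT, h2, hT, hT, AA_sum, AA_sum]
  push_cast
  rw [h1, smul_sum]
  refine sum_congr rfl (fun i _ => ?_)
  rw [smul_smul]
  congr 1
  ring

theorem c7_sum (t : ℕ) : ∑ k ∈ range (t + 1), (2 * ((k : ℝ) + 1)) =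
    ((t : ℝ) + 1) * (t + 2) := by
  induction t with
  | zero => norm_num
  | succ t ih =>
    rw [sum_range_succ, ih]
    push_cast
    ring

theorem Nb_gT (s : ℕ) (hs : 2 ≤ s) (r : ℝ) (hr : 0 ≤ r) (h : 4 * ((s : ℝ) * r) ≤ 1 / 12) :
    Nb r (gT s - X) (6 * ((s : ℝ) * r ^ 2)) := by
  obtain ⟨t, rfl⟩ : ∃ t, s = t + 2 := ⟨s - 2, by omega⟩
  have hP : (0 : ℝ) < ((t : ℝ) + 1) * (t + 2) := by positivity
  have hw : ∑ k ∈ range (t + 1), (2 * ((k : ℝ) + 1) / (((t : ℝ) + 1) * (t + 2))) = 1 := by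
    rw [← sum_div, c7_sum]
    exact div_self hP.ne'
  have h1 : gT (t + 2) - X = ∑ k ∈ range (t + 1),
      (2 * ((k : ℝ) + 1) / (((t : ℝ) + 1) * (t + 2))) • (et (cc (k + 1)) - et (cc k) - X) := by
    rw [gT_eq]
    simp only [smul_sub]
    rw [sum_sub_distrib (g := fun k : ℕ => (2 * ((k : ℝ) + 1) / (((t : ℝ) + 1) * (t + 2))) •
      (X : ℝ⟦X⟧)), ← sum_smul, hw, one_smul]
  rw [h1]
  refine (Nb.sum (range (t + 1)) hr (c := fun k => (2 * ((k : ℝ) + 1) /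
    (((t : ℝ) + 1) * (t + 2))) * (6 * (((t + 2 : ℕ) : ℝ) * r ^ 2))) (fun i hi => ?_)).mono ?_
  · have hi1 : (i : ℝ) + 1 ≤ ((t + 2 : ℕ) : ℝ) := by
      have := mem_range.mp hi
      exact_mod_cast (by omega : i + 1 ≤ t + 2)
    have h2 : ((i : ℝ) + 1) * r ≤ ((t + 2 : ℕ) : ℝ) * r := mul_le_mul_of_nonneg_right hi1 hr
    have h3 := (Nb_det i r hr (by linarith)).smul
      (2 * ((i : ℝ) + 1) / (((t : ℝ) + 1) * (t + 2)))
    rw [abs_of_nonneg (by positivity)] at h3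
    refine h3.mono (mul_le_mul_of_nonneg_left ?_ (by positivity))
    have h4 := mul_le_mul_of_nonneg_right hi1 (by positivity : 0 ≤ r ^ 2)
    linarith
  · rw [← sum_mul, hw]
    linarith

end H95L
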