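import Mathlib

/-!
# H95L: Turan graphs maximise the number of proper q-colourings for q >= 100 n

Definitions for the analytic part: weighted norms of power series, the Euler operator, the
partition polynomials `K_m`, the functional `Y`.
-/

namespace H95L

open Finset PowerSeries

/-- `∑ |f_k| ρ^k ≤ C` -/
def Nb (ρ : ℝ) (f : ℝ⟦X⟧) (C : ℝ) : Prop :=
  ∀ K : ℕ, ∑ k ∈ range K, |coeff k f| * ρ ^ k ≤ C

/-- the Euler operator `X d/dX` -/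
noncomputable def D (f : ℝ⟦X⟧) : ℝ⟦X⟧ := PowerSeries.mk fun k => (k : ℝ) * coeff k f

/-- the inverse of `D` on series without constant term (`x / 0 = 0`) -/
noncomputable def J (f : ℝ⟦X⟧) : ℝ⟦X⟧ := PowerSeries.mk fun k => coeff k f / (k : ℝ)

/-- the logarithmic derivative `D f / f` -/
noncomputable def et (f : ℝ⟦X⟧) : ℝ⟦X⟧ := D f * f⁻¹

/-- `KN m = ∑ S(m, m - i) X ^ i`, `S` the Stirling numbers of the second kind -/
noncomputable def KN : ℕ → Polynomial ℕ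
  | 0 => 1
  | m + 1 => ∑ i : Fin (m + 1), (m.choose i) • (Polynomial.X ^ (i : ℕ) * KN (m - i))

/-- the real power series of `KN m` -/
noncomputable def KR (m : ℕ) : ℝ⟦X⟧ := PowerSeries.mk fun k => ((KN m).coeff k : ℝ)

/-- `c_m = K_{m+1} / K_m` -/
noncomputable def cc (m : ℕ) : ℝ⟦X⟧ := KR (m + 1) * (KR m)⁻¹

/-- `q_m = c_{m+2} c_m / c_{m+1}^2` -/
noncomputable def qq (m : ℕ) : ℝ⟦X⟧ := cc (m + 2) * cc m * ((cc (m + 1))⁻¹ * (cc (m + 1))⁻¹)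

/-- `A_m = D K_m / K_m` -/
noncomputable def AA (m : ℕ) : ℝ⟦X⟧ := et (KR m)

/-- `A_m / m` -/
noncomputable def hT (m : ℕ) : ℝ⟦X⟧ := ((m : ℝ)⁻¹) • AA m

/-- second difference of `hT` -/
noncomputable def d2h (m : ℕ) : ℝ⟦X⟧ := hT (m + 2) - (2 : ℝ) • hT (m + 1) + hT m

/-- `2 (hT s - hT (s-1))` -/
noncomputable def gT (s : ℕ) : ℝ⟦X⟧ := (2 : ℝ) • (hT s - hT (s - 1))

/-- `W_i = ∏_{1 ≤ l ≤ i} 1 / (a + l)` -/
noncomputable def W (a : ℝ) (i : ℕ) : ℝ := ∏ l ∈ range i, (a + l + 1)⁻¹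

/-- the coefficients of `exp (∑ e_k X^k / k)` -/
noncomputable def sg (e : ℝ⟦X⟧) : ℕ → ℝ
  | 0 => 1
  | j + 1 => (∑ k : Fin (j + 1), coeff ((k : ℕ) + 1) e * sg e (j - k)) / ((j : ℝ) + 1)

/-- `Y_k = ∑_j σ_j W_{j+k}` -/
noncomputable def Y (a : ℝ) (e : ℝ⟦X⟧) (k : ℕ) : ℝ := ∑' j : ℕ, sg e j * W a (j + k)

/-- the radius `ρ = 33 / (32 a)` -/
noncomputable def rho (a : ℝ) : ℝ := 33 / (32 * a)

/-- the standing hypotheses on `n`, `a` and the series `e` -/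
structure Hy (n : ℕ) (a : ℝ) (e : ℝ⟦X⟧) : Prop where
  hn : 1 ≤ n
  ha : 99 * (n : ℝ) ≤ a
  h0 : coeff 0 e = 0
  hN : Nb (4 * rho a) e ((n : ℝ) / 12)

/-- `R_k = Y_k / Y_0` -/
noncomputable def R (a : ℝ) (e : ℝ⟦X⟧) (k : ℕ) : ℝ := Y a e k / Y a e 0

/-- `⟨f⟩ = ∑ f_k R_k` -/
noncomputable def Ex (a : ℝ) (e f : ℝ⟦X⟧) : ℝ := ∑' k : ℕ, coeff k f * R a e k

/-- the covariance `⟨f g⟩ - ⟨f⟩ ⟨g⟩` -/
noncomputable def Cv (a : ℝ) (e f g : ℝ⟦X⟧) : ℝ := Ex a e (f * g) - Ex a e f * Ex a e g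

/-- `m ↦ hT m - (hT s + (m - s) (hT s - hT (s-1)))`: the distance to the chord -/
noncomputable def rT (s m : ℕ) : ℝ⟦X⟧ :=
  hT m - hT s - ((m : ℝ) - s) • (hT s - hT (s - 1))

/-- `(m - s)(m - s + 1) / 2` -/
noncomputable def om (s m : ℕ) : ℝ := ((m : ℝ) - s) * ((m : ℝ) - s + 1) / 2

/-- `∏ K_m` over a multiset of sizes -/
noncomputable def pv (ν : Multiset ℕ) : ℝ⟦X⟧ := (ν.map KR).prod

/-- `∑ A_m` over a multiset of sizes -/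
noncomputable def ev (ν : Multiset ℕ) : ℝ⟦X⟧ := (ν.map AA).sum

/-- the number of pairs inside the classes -/
noncomputable def EE (ν : Multiset ℕ) : ℝ := (ν.map fun m : ℕ => (m : ℝ) * (m - 1) / 2).sum

/-- `Ω = ∑ m ω(m)` -/
noncomputable def Om (s : ℕ) (ν : Multiset ℕ) : ℝ := (ν.map fun m : ℕ => (m : ℝ) * om s m).sum

end H95L
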