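import Pool.Agent.Lib.H95L.G4

/-!
# Chunk U3: cloning a vertex onto all its non-neighbours

`sq G x = G.comap φ`, `φ w = w` if `G.Adj x w` and `φ w = x` otherwise.
* `Mx_sq`: for a finset `S` of non-neighbours of `x` let `φ_S w = x` for `w ∈ S` and `w` otherwise;
  `G.comap φ_S` is a maximiser by induction on `S`: for `u ∉ S`, `u ≠ x`,
  `G.comap φ_(insert u S) = clone (G.comap φ_S) u x` (`SimpleGraph.comap_comap`, pointwise:
  `φ_S (update id u x w)`), and `u`, `x` are not adjacent in `G.comap φ_S`, because
  `φ_S x = x`, `φ_S u = u`; `Mx_clone`. For `u = x` nothing changes. Take for `S` all non-neighbours.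
* `sq_adj` (the neighbours of `x` form a clique): four cases.
* `Mp_sq`: from `sq_adj`: `v`, `w` not adjacent means `v = w` or both are non-neighbours of `x`; then
  both are adjacent exactly to the neighbours of `x`.
* `ng_sq_x`, `ng_sq_adj`: from `sq_adj`.
-/

namespace H95L

open Finset

open Classical in
/-- all non-neighbours of `x` are replaced by copies of `x` -/
noncomputable def sq {V : Type*} (G : SimpleGraph V) (x : V) : SimpleGraph V :=
  G.comap fun w => if G.Adj x w then w else x

variable {V : Type*} [Fintype V] [DecidableEq V] {q : ℕ} {t : ℝ} {G : SimpleGraph V} {x : V}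

theorem u3_aux (ht : 0 < t) (hG : Mx q t G) (x : V) (S : Finset V) (hS : ∀ u ∈ S, ¬G.Adj x u) :
    Mx q t (G.comap fun w => if w ∈ S then x else w) := by
  induction S using Finset.induction_on with
  | empty =>
    have h1 : (G.comap fun w => if w ∈ (∅ : Finset V) then x else w) = G := by
      ext a b
      simp
    rw [h1]
    exact hG
  | insert u S hu ih =>
    have ih' := ih fun a ha => hS a (mem_insert_of_mem ha)
    by_cases hux : u = x
    · have h1 : (fun w => if w ∈ insert u S then x else w) = (fun w => if w ∈ S then x else w) := by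
        funext w
        by_cases hw : w ∈ S
        · simp [hw]
        · by_cases hwu : w = u
          · rw [if_pos (by simp [hwu]), if_neg hw, hwu, hux]
          · rw [if_neg (by simp [hwu, hw]), if_neg hw]
      rw [h1]
      exact ih'
    · have h1 : (G.comap fun w => if w ∈ insert u S then x else w) =
          clone (G.comap fun w => if w ∈ S then x else w) u x := by
        rw [clone, SimpleGraph.comap_comap]
        congr 1
        funext w
        simp only [Function.comp]
        by_cases hwu : w = u
        · subst hwu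
          simp
        · rw [Function.update_of_ne hwu]
          simp [hwu]
      rw [h1]
      refine Mx_clone ht ih' hux ?_
      rw [SimpleGraph.comap_adj, if_neg hu]
      have h2 : (if x ∈ S then x else x) = x := by simp
      rw [h2]
      exact fun h => hS u (mem_insert_self _ _) h.symm

theorem Mx_sq (ht : 0 < t) (hG : Mx q t G) (x : V) : Mx q t (sq G x) := by
  classical
  have h := u3_aux ht hG x (univ.filter fun w => ¬G.Adj x w) (by
    intro u hu
    exact (mem_filter.1 hu).2)
  have h1 : (fun w => if w ∈ (univ.filter fun w => ¬G.Adj x w) then x else w) =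
      fun w => if G.Adj x w then w else x := by
    funext w
    by_cases hw : G.Adj x w <;> simp [hw]
  rw [h1] at h
  exact h

theorem sq_adj (hcl : ∀ u v, G.Adj x u → G.Adj x v → u ≠ v → G.Adj u v) (v w : V) :
    (sq G x).Adj v w ↔ v ≠ w ∧ (G.Adj x v ∨ G.Adj x w) := by
  classical
  rw [sq, SimpleGraph.comap_adj]
  by_cases hv : G.Adj x v
  · by_cases hw : G.Adj x w
    · rw [if_pos hv, if_pos hw]
      exact ⟨fun h => ⟨h.ne, Or.inl hv⟩, fun h => hcl v w hv hw h.1⟩
    · rw [if_pos hv, if_neg hw]
      refine ⟨fun _ => ⟨?_, Or.inl hv⟩, fun _ => hv.symm⟩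
      rintro rfl
      exact hw hv
  · by_cases hw : G.Adj x w
    · rw [if_neg hv, if_pos hw]
      refine ⟨fun _ => ⟨?_, Or.inr hw⟩, fun _ => hw⟩
      rintro rfl
      exact hv hw
    · rw [if_neg hv, if_neg hw]
      refine ⟨fun h => absurd h (SimpleGraph.irrefl _), fun h => ?_⟩
      rcases h.2 with h' | h'
      · exact absurd h' hv
      · exact absurd h' hw

theorem Mp_sq (hcl : ∀ u v, G.Adj x u → G.Adj x v → u ≠ v → G.Adj u v) : Mp (sq G x) := by
  intro u v huv w
  rw [sq_adj hcl, sq_adj hcl]
  rw [sq_adj hcl] at huv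
  by_cases h : u = v
  · rw [h]
  · have h1 : ¬G.Adj x u := fun h' => huv ⟨h, Or.inl h'⟩
    have h2 : ¬G.Adj x v := fun h' => huv ⟨h, Or.inr h'⟩
    constructor
    · rintro ⟨_, h4 | h4⟩
      · exact absurd h4 h1
      · refine ⟨?_, Or.inr h4⟩
        rintro rfl
        exact h2 h4
    · rintro ⟨_, h4 | h4⟩
      · exact absurd h4 h2
      · refine ⟨?_, Or.inr h4⟩
        rintro rfl
        exact h1 h4

theorem ng_sq_x (hcl : ∀ u v, G.Adj x u → G.Adj x v → u ≠ v → G.Adj u v) :
    ng (sq G x) x = ng G x := by
  classical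
  unfold ng
  congr 1
  ext v
  simp only [mem_filter, mem_univ, true_and, sq_adj hcl]
  constructor
  · intro h h'
    exact h ⟨h'.ne, Or.inr h'⟩
  · rintro h ⟨_, h' | h'⟩
    · exact SimpleGraph.irrefl _ h'
    · exact h h'

theorem ng_sq_adj (hcl : ∀ u v, G.Adj x u → G.Adj x v → u ≠ v → G.Adj u v) {v : V}
    (hv : G.Adj x v) : ng (sq G x) v = 1 := by
  classical
  unfold ng
  rw [Finset.card_eq_one]
  refine ⟨v, ?_⟩
  ext w
  simp only [mem_filter, mem_univ, true_and, sq_adj hcl, mem_singleton]
  constructor
  · intro h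
    by_contra hne
    exact h ⟨fun h' => hne h'.symm, Or.inl hv⟩
  · rintro rfl h
    exact h.1 rfl

end H95L
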