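import Pool.Agent.Lib.H95L.U2
import Pool.Agent.Lib.H95L.U3

/-!
# Chunk U4: every maximiser is complete multipartite

Let `x`, `y` be not adjacent, `x ≠ y` (for `x = y` they are twins). If `N(x)` contains two distinct
non-adjacent vertices, `U2` gives `Tw G x y`; the same for `N(y)` (`Tw` is symmetric). So suppose that
`N(x)` and `N(y)` are cliques.
(1) If `N(x)` is not empty: `sq G x` is a maximiser (`Mx_sq`) and `Mp` (`Mp_sq`); a neighbour `v` of
`x` has `ng = 1` (`ng_sq_adj`), so by `H` `1 = s - 1` or `1 = s`, and `s ≥ 2` gives `s = 2`. Then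
`ng G x = ng (sq G x) x ∈ {1, 2}` (`ng_sq_x`), and `x`, `y` are non-neighbours of `x`, so the
non-neighbours of `x` are exactly `x` and `y`.
(2) The same for `y`.
(3) Both not empty: both neighbourhoods are the complement of `{x, y}`. Both empty: clear. `N(x)`
empty and `N(y)` not: `s = 2` by (1) for `y`, and `ng (sq G x) x = ng G x = card V` is `1` or `2`; but
`x`, `y` and a neighbour of `y` are three different vertices. The other case is symmetric.
-/

namespace H95L

open Finset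

variable {V : Type*} [Fintype V] [DecidableEq V] {q : ℕ} {t : ℝ} {G : SimpleGraph V}

/-- at most two non-neighbours -/
theorem u4_aux (G : SimpleGraph V) {x a b c : V} (h : ng G x ≤ 2) (ha : ¬G.Adj x a)
    (hb : ¬G.Adj x b) (hc : ¬G.Adj x c) (hab : a ≠ b) (hac : a ≠ c) (hbc : b ≠ c) : False := by
  classical
  have h1 : ({a, b, c} : Finset V).card = 3 := by
    rw [Finset.card_eq_three]
    exact ⟨a, b, c, hab, hac, hbc, rfl⟩
  have h2 : ({a, b, c} : Finset V).card ≤ ng G x := by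
    unfold ng
    apply Finset.card_le_card
    intro v hv
    simp only [mem_insert, mem_singleton] at hv
    simp only [mem_filter, mem_univ, true_and]
    rcases hv with rfl | rfl | rfl
    · exact ha
    · exact hb
    · exact hc
  omega

theorem u4_clq (ht : 0 < t) (hG : Mx q t G) {s : ℕ} (hs : 2 ≤ s)
    (H : ∀ G' : SimpleGraph V, Mx q t G' → Mp G' → ∀ v, ng G' v = s - 1 ∨ ng G' v = s)
    {x v : V} (hcl : ∀ u v, G.Adj x u → G.Adj x v → u ≠ v → G.Adj u v) (hv : G.Adj x v) :
    s = 2 := by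
  have h1 := H (sq G x) (Mx_sq ht hG x) (Mp_sq hcl) v
  rw [ng_sq_adj hcl hv] at h1
  omega

theorem u4_ng (ht : 0 < t) (hG : Mx q t G) {s : ℕ}
    (H : ∀ G' : SimpleGraph V, Mx q t G' → Mp G' → ∀ v, ng G' v = s - 1 ∨ ng G' v = s)
    {x : V} (hcl : ∀ u v, G.Adj x u → G.Adj x v → u ≠ v → G.Adj u v) (hs : s = 2) :
    ng G x ≤ 2 := by
  have h1 := H (sq G x) (Mx_sq ht hG x) (Mp_sq hcl) x
  rw [ng_sq_x hcl] at h1
  omega

theorem U4 (hq : Fintype.card V < q) (ht : 0 < t) (hG : Mx q t G) (hpos : 0 < wt q t G)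
    {s : ℕ} (hs : 2 ≤ s)
    (H : ∀ G' : SimpleGraph V, Mx q t G' → Mp G' → ∀ v, ng G' v = s - 1 ∨ ng G' v = s) :
    Mp G := by
  classical
  intro x y h
  by_cases hxy : x = y
  · subst hxy
    exact fun w => Iff.rfl
  by_cases hx : ∀ u v, G.Adj x u → G.Adj x v → u ≠ v → G.Adj u v
  swap
  · push Not at hx
    obtain ⟨u, v, hu, hv, huv, h2⟩ := hx
    exact U2 hq ht hG hpos hxy h huv h2 hu hv
  have h' : ¬G.Adj y x := fun h2 => h h2.symm
  by_cases hy : ∀ u v, G.Adj y u → G.Adj y v → u ≠ v → G.Adj u v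
  swap
  · push Not at hy
    obtain ⟨u, v, hu, hv, huv, h2⟩ := hy
    have h3 := U2 hq ht hG hpos (Ne.symm hxy) h' huv h2 hu hv
    exact fun w => (h3 w).symm
  have hxx : ¬G.Adj x x := G.irrefl
  have hyy : ¬G.Adj y y := G.irrefl
  intro w
  by_cases hwx : w = x
  · subst hwx
    exact ⟨fun h3 => absurd h3 hxx, fun h3 => absurd h3 h'⟩
  by_cases hwy : w = y
  · subst hwy
    exact ⟨fun h3 => absurd h3 h, fun h3 => absurd h3 hyy⟩
  by_contra hcon
  -- there is an edge from x or from y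
  have hs2 : s = 2 := by
    by_cases h3 : G.Adj x w
    · exact u4_clq ht hG hs H hx h3
    · by_cases h4 : G.Adj y w
      · exact u4_clq ht hG hs H hy h4
      · exact absurd ⟨fun h5 => absurd h5 h3, fun h5 => absurd h5 h4⟩ hcon
  have hgx := u4_ng ht hG H hx hs2
  have hgy := u4_ng ht hG H hy hs2
  by_cases h3 : G.Adj x w
  · have h4 : ¬G.Adj y w := fun h4 => hcon ⟨fun _ => h4, fun _ => h3⟩
    exact u4_aux G hgy h' hyy h4 hxy (Ne.symm hwx) (Ne.symm hwy)
  · exact u4_aux G hgx hxx h h3 hxy (Ne.symm hwx) (Ne.symm hwy)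

end H95L
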