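import Pool.Agent.Lib.H95L.G8
import Pool.Agent.Lib.H95L.U4

/-!
# The theorem
-/

namespace H95L

open Finset SimpleGraph

/-- equal edge numbers and `r`-colourable: isomorphic to the Turan graph -/
theorem iso_of_colorable {n r : ℕ} (hr : 0 < r) (G : SimpleGraph (Fin n)) (hc : G.Colorable r)
    (hG : G.edgeSet.ncard = (turanGraph n r).edgeSet.ncard) :
    Nonempty (G ≃g turanGraph n r) := by
  classical
  have h7 : G.CliqueFree (r + 1) := SimpleGraph.Colorable.cliqueFree hc (Nat.lt_succ_self r)
  have h8 := SimpleGraph.isTuranMaximal_turanGraph (n := n) hr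
  have h9 : G.edgeFinset.card = (SimpleGraph.turanGraph n r).edgeFinset.card := by
    rw [← Set.ncard_coe_finset, ← Set.ncard_coe_finset, SimpleGraph.coe_edgeFinset,
      SimpleGraph.coe_edgeFinset]
    exact hG
  have h10 : G.IsTuranMaximal r := by
    refine ⟨h7, ?_⟩
    intro K _ hK
    rw [h9]
    exact h8.2 hK
  have h11 := h10.nonempty_iso_turanGraph
  rw [Fintype.card_fin] at h11
  exact h11

theorem main {n r q : ℕ} (hr : 0 < r) (hq : 100 * n ≤ q) :
    ∃ x : ℝ, 1 ≤ x ∧ ∀ G : SimpleGraph (Fin n),
      wt q x G ≤ wt q x (turanGraph n r) ∧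
      (wt q x G = wt q x (turanGraph n r) → Nonempty (G ≃g turanGraph n r)) := by
  rcases Nat.lt_or_ge n 2 with hn | hn
  · refine ⟨1, le_rfl, fun G => ?_⟩
    have hs : G = turanGraph n r := by
      ext u v
      have huv : u = v := by
        apply Fin.ext
        omega
      subst huv
      constructor
      · intro h; exact absurd h (G.loopless.irrefl u)
      · intro h; exact absurd h ((turanGraph n r).loopless.irrefl u)
    rw [hs]
    exact ⟨le_rfl, fun _ => ⟨Iso.refl⟩⟩
  · obtain ⟨x, s, hx, hs, hpos, hMx, hG⟩ := turan_Mx hn hr hq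
    refine ⟨x, hx, fun G => ⟨hMx G, fun he => ?_⟩⟩
    have hx0 : 0 < x := by linarith
    have hcard : Fintype.card (Fin n) < q := by
      rw [Fintype.card_fin]
      omega
    have hMxG : Mx q x G := fun G' => by rw [he]; exact hMx G'
    have hMp : Mp G := by
      refine U4 hcard hx0 hMxG (by rw [he]; exact hpos) hs ?_
      intro G' h1 h2
      have h3 : wt q x G' = wt q x (turanGraph n r) := le_antisymm (hMx G') (h1 _)
      exact (hG G' h2 h3).1
    obtain ⟨-, h2, h3⟩ := hG G hMp he
    exact iso_of_colorable hr G h3 h2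

end H95L
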