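import Pool.Agent.Lib.H5.CP.Turan
import Pool.Agent.Lib.H95L.Defs

/-!
Definitions for the graph part.
-/

namespace H95L

open Finset

/-- the number of proper `q`-colourings -/
noncomputable def Pq {V : Type*} (q : ℕ) (G : SimpleGraph V) : ℝ :=
  (Nat.card (G.Coloring (Fin q)) : ℝ)

/-- `P(G; q) x ^ e(G)` -/
noncomputable def wt {V : Type*} (q : ℕ) (x : ℝ) (G : SimpleGraph V) : ℝ :=
  Pq q G * x ^ G.edgeSet.ncard

/-- the vertex `x` is replaced by a copy of `y` -/
def clone {V : Type*} [DecidableEq V] (G : SimpleGraph V) (x y : V) : SimpleGraph V :=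
  G.comap (Function.update id x y)

/-- `u` and `v` have the same neighbours -/
def Tw {V : Type*} (G : SimpleGraph V) (u v : V) : Prop := ∀ w, G.Adj u w ↔ G.Adj v w

/-- non-adjacent vertices are twins: `G` is complete multipartite -/
def Mp {V : Type*} (G : SimpleGraph V) : Prop := ∀ u v, ¬ G.Adj u v → Tw G u v

/-- `G` maximises `P(G; q) x ^ e(G)` -/
def Mx {V : Type*} (q : ℕ) (x : ℝ) (G : SimpleGraph V) : Prop :=
  ∀ G' : SimpleGraph V, wt q x G' ≤ wt q x G

/-- `c` is proper on the graph without the vertices `x` and `y` -/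
def Off {V κ : Type*} (G : SimpleGraph V) (x y : V) (c : V → κ) : Prop :=
  ∀ u v, u ≠ x → u ≠ y → v ≠ x → v ≠ y → G.Adj u v → c u ≠ c v

open Classical in
/-- the number of colours which do not occur at the neighbours of `x` -/
noncomputable def av {V κ : Type*} [Fintype κ] (G : SimpleGraph V) (x : V) (c : V → κ) : ℕ :=
  (univ.filter fun i : κ => ∀ v, G.Adj x v → c v ≠ i).card

open Classical in
/-- the number of neighbours -/
noncomputable def dg {V : Type*} [Fintype V] (G : SimpleGraph V) (x : V) : ℕ :=
  (univ.filter fun v => G.Adj x v).card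

open Classical in
/-- the number of non-neighbours (`x` included): the size of the class of `x` -/
noncomputable def ng {V : Type*} [Fintype V] (G : SimpleGraph V) (x : V) : ℕ :=
  (univ.filter fun v => ¬ G.Adj x v).card

open Classical in
/-- the number of ordered pairs of twins -/
noncomputable def tw {V : Type*} [Fintype V] (G : SimpleGraph V) : ℕ :=
  (univ.filter fun p : V × V => Tw G p.1 p.2).card

/-- the graph `G` is complete multipartite with the class sizes `ν` -/
structure Prof {V : Type*} [Fintype V] [DecidableEq V] (G : SimpleGraph V) (ν : Multiset ℕ) :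
    Prop where
  pos : 0 ∉ ν
  sum : ν.sum = Fintype.card V
  poly : H5CP.P Gᶜ univ = (ν.map KN).prod
  edges : (H5CP.e2 Gᶜ univ : ℝ) = 2 * EE ν

end H95L
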