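import Pool.Agent.Lib.H95L.G0

/-!
# Chunk G1: counting colourings around two non-adjacent vertices

`x ≠ y` not adjacent. `Pq q G` is the number of maps `c : V → Fin q` with `c u ≠ c v` for all
adjacent `u, v` (a `G.Coloring` is a homomorphism into the complete graph: equivalence with the
subtype, `SimpleGraph.Coloring.mk`, `Coloring.valid`), and such a `c` is proper iff `Off G x y c`,
`∀ v, G.Adj x v → c v ≠ c x` and `∀ v, G.Adj y v → c v ≠ c y`. The condition `Off` and the sets of
available colours depend only on the values of `c` outside `{x, y}` (the neighbours of `x` and of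
`y` are different from `x` and `y`).

`count_pair`. For every function `Φ : (V → Fin q) → ℝ`:
`∑_c ∑_i ∑_j Φ (update (update c x i) y j) = q^2 ∑_c Φ c` (the map
`(c, i, j) ↦ (update (update c x i) y j, c x, c y)` is a bijection of `(V → Fin q) × Fin q × Fin q`).
Take for `Φ` the indicator of the proper colourings: the inner double sum is
`[Off c] (av G x c) (av G y c)`.

`count_clone`: `count_pair` for the graph `clone G x y` (`x`, `y` are not adjacent in it: both map to
`y`), where `Off` is the same and the neighbours of `x` and of `y` in `clone G x y` are the neighbours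
of `y` in `G` (`x` is not a neighbour of `y`), so `av (clone G x y) x c = av (clone G x y) y c
= av G y c`.
-/

namespace H95L

open Finset

variable {V : Type*} [Fintype V] [DecidableEq V] {q : ℕ} {G : SimpleGraph V} {x y : V}

/-- `c` is proper -/
def g1_Pr {V κ : Type*} (G : SimpleGraph V) (c : V → κ) : Prop := ∀ u v, G.Adj u v → c u ≠ c v


open Classical in
theorem g1_Pq : Pq q G = ∑ c : V → Fin q, if g1_Pr G c then (1 : ℝ) else 0 := by
  have e : G.Coloring (Fin q) ≃ {c : V → Fin q // g1_Pr G c} :=
    { toFun := fun C => ⟨C, fun u v h => C.valid h⟩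
      invFun := fun c => SimpleGraph.Coloring.mk c.1 (fun h => c.2 _ _ h)
      left_inv := fun C => by ext; rfl
      right_inv := fun c => by ext; rfl }
  rw [Pq, Nat.card_congr e, Nat.card_eq_fintype_card, Fintype.card_subtype, Finset.card_filter]
  push_cast
  rfl

/-- the involution `(c, i) ↦ (update c x i, c x)` -/
def g1_e (q : ℕ) (x : V) : (V → Fin q) × Fin q ≃ (V → Fin q) × Fin q where
  toFun p := (Function.update p.1 x p.2, p.1 x)
  invFun p := (Function.update p.1 x p.2, p.1 x)
  left_inv p := by simp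
  right_inv p := by simp

theorem g1_one (x : V) (Φ : (V → Fin q) → ℝ) :
    ∑ c : V → Fin q, ∑ i : Fin q, Φ (Function.update c x i) = q * ∑ c : V → Fin q, Φ c := by
  rw [← Fintype.sum_prod_type (fun p : (V → Fin q) × Fin q => Φ (Function.update p.1 x p.2))]
  have h1 : (fun p : (V → Fin q) × Fin q => Φ (Function.update p.1 x p.2)) =
      fun p => (fun p' : (V → Fin q) × Fin q => Φ p'.1) (g1_e q x p) := by
    funext p
    rfl
  rw [h1, Equiv.sum_comp (g1_e q x) (fun p' : (V → Fin q) × Fin q => Φ p'.1),
    Fintype.sum_prod_type, Finset.mul_sum]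
  refine Finset.sum_congr rfl fun c _ => ?_
  simp


theorem g1_proper (hxy : x ≠ y) (h : ¬ G.Adj x y) (c : V → Fin q) (i j : Fin q) :
    g1_Pr G (Function.update (Function.update c x i) y j) ↔
      Off G x y c ∧ (∀ v, G.Adj x v → c v ≠ i) ∧ ∀ v, G.Adj y v → c v ≠ j := by
  set d := Function.update (Function.update c x i) y j with hd
  have hdx : d x = i := by rw [hd, Function.update_of_ne hxy, Function.update_self]
  have hdy : d y = j := by rw [hd, Function.update_self]
  have hdo : ∀ v, v ≠ x → v ≠ y → d v = c v := fun v h1 h2 => by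
    rw [hd, Function.update_of_ne h2, Function.update_of_ne h1]
  have hxn : ∀ v, G.Adj x v → v ≠ x ∧ v ≠ y := fun v hv =>
    ⟨hv.ne', fun h1 => h (h1 ▸ hv)⟩
  have hyn : ∀ v, G.Adj y v → v ≠ x ∧ v ≠ y := fun v hv =>
    ⟨fun h1 => h (h1 ▸ hv).symm, hv.ne'⟩
  constructor
  · intro hp
    refine ⟨fun u v h1 h2 h3 h4 huv => ?_, fun v hv => ?_, fun v hv => ?_⟩
    · rw [← hdo u h1 h2, ← hdo v h3 h4]
      exact hp u v huv
    · have h1 := hxn v hv
      rw [← hdo v h1.1 h1.2, ← hdx]
      exact (hp x v hv).symm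
    · have h1 := hyn v hv
      rw [← hdo v h1.1 h1.2, ← hdy]
      exact (hp y v hv).symm
  · rintro ⟨h1, h2, h3⟩ u v huv
    by_cases hux : u = x
    · subst hux
      have h4 := hxn v huv
      rw [hdx, hdo v h4.1 h4.2]
      exact (h2 v huv).symm
    by_cases huy : u = y
    · subst huy
      have h4 := hyn v huv
      rw [hdy, hdo v h4.1 h4.2]
      exact (h3 v huv).symm
    by_cases hvx : v = x
    · subst hvx
      rw [hdx, hdo u hux huy]
      exact h2 u huv.symm
    by_cases hvy : v = y
    · subst hvy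
      rw [hdy, hdo u hux huy]
      exact h3 u huv.symm
    rw [hdo u hux huy, hdo v hvx hvy]
    exact h1 u v hux huy hvx hvy huv

open Classical in
theorem count_pair (hxy : x ≠ y) (h : ¬ G.Adj x y) :
    (q : ℝ) ^ 2 * Pq q G =
      ∑ c : V → Fin q, if Off G x y c then (av G x c : ℝ) * (av G y c : ℝ) else 0 := by
  rw [g1_Pq, pow_two, mul_assoc, ← g1_one y, ← g1_one x (fun c => ∑ j : Fin q, _)]
  refine Finset.sum_congr rfl fun c _ => ?_
  have hx : (av G x c : ℝ) = ∑ i : Fin q, if (∀ v, G.Adj x v → c v ≠ i) then (1 : ℝ) else 0 := by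
    rw [av, Finset.card_filter]
    push_cast
    rfl
  have hy : (av G y c : ℝ) = ∑ i : Fin q, if (∀ v, G.Adj y v → c v ≠ i) then (1 : ℝ) else 0 := by
    rw [av, Finset.card_filter]
    push_cast
    rfl
  by_cases hO : Off G x y c
  · rw [if_pos hO, hx, hy, Finset.sum_mul_sum]
    refine Finset.sum_congr rfl fun i _ => Finset.sum_congr rfl fun j _ => ?_
    by_cases h1 : ∀ v, G.Adj x v → c v ≠ i
    · by_cases h2 : ∀ v, G.Adj y v → c v ≠ j
      · rw [if_pos ((g1_proper hxy h c i j).2 ⟨hO, h1, h2⟩), if_pos h1, if_pos h2, one_mul]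
      · rw [if_neg (fun h3 => h2 ((g1_proper hxy h c i j).1 h3).2.2), if_neg h2, mul_zero]
    · rw [if_neg (fun h3 => h1 ((g1_proper hxy h c i j).1 h3).2.1), if_neg h1, zero_mul]
  · rw [if_neg hO]
    refine Finset.sum_eq_zero fun i _ => Finset.sum_eq_zero fun j _ => ?_
    rw [if_neg (fun h3 => hO ((g1_proper hxy h c i j).1 h3).1)]

open Classical in
theorem count_clone (hxy : x ≠ y) (h : ¬ G.Adj x y) :
    (q : ℝ) ^ 2 * Pq q (clone G x y) =
      ∑ c : V → Fin q, if Off G x y c then (av G y c : ℝ) ^ 2 else 0 := by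
  have hoff : ∀ u v, u ≠ x → v ≠ x → ((clone G x y).Adj u v ↔ G.Adj u v) := fun u v hu hv => by
    rw [clone, SimpleGraph.comap_adj, Function.update_of_ne hu, Function.update_of_ne hv]
    rfl
  have hx : ∀ v, (clone G x y).Adj x v ↔ G.Adj y v := fun v => by
    rw [clone, SimpleGraph.comap_adj, Function.update_self]
    by_cases hv : v = x
    · subst hv
      rw [Function.update_self]
      exact ⟨fun h1 => absurd h1 G.irrefl, fun h1 => absurd h1.symm h⟩
    · rw [Function.update_of_ne hv]
      rfl
  have hxy' : ¬(clone G x y).Adj x y := fun h1 => G.irrefl ((hx y).1 h1)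
  have hy : ∀ v, (clone G x y).Adj y v ↔ G.Adj y v := fun v => by
    by_cases hv : v = x
    · subst hv
      exact ⟨fun h1 => absurd h1.symm hxy', fun h1 => absurd h1.symm h⟩
    · exact hoff y v (Ne.symm hxy) hv
  rw [count_pair hxy hxy']
  refine Finset.sum_congr rfl fun c _ => ?_
  have h1 : Off (clone G x y) x y c ↔ Off G x y c := by
    constructor
    · intro h1 u v h2 h3 h4 h5 h6
      exact h1 u v h2 h3 h4 h5 ((hoff u v h2 h4).2 h6)
    · intro h1 u v h2 h3 h4 h5 h6
      exact h1 u v h2 h3 h4 h5 ((hoff u v h2 h4).1 h6)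
  have h2 : av (clone G x y) x c = av G y c := by
    unfold av
    congr 1
    ext i
    simp only [mem_filter, mem_univ, true_and, hx]
  have h3 : av (clone G x y) y c = av G y c := by
    unfold av
    congr 1
    ext i
    simp only [mem_filter, mem_univ, true_and, hy]
  by_cases hO : Off G x y c
  · rw [if_pos hO, if_pos (h1.2 hO), h2, h3, pow_two]
  · rw [if_neg hO, if_neg (fun h4 => hO (h1.1 h4))]

end H95L
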