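import Pool.Agent.Lib.H95L.G1

/-!
# Chunk G2: the Cauchy-Schwarz inequality

* `Off_comm`: `Off G x y c ↔ Off G y x c`.
* `cs_le`: `Finset.sum_mul_sq_le_sq_mul_sq` for `f c = [Off c] av x c`, `g c = [Off c] av y c`, with
  `count_pair`, `count_clone` (for `clone G x y` and for `clone G y x`); divide by `q^4` (if `q = 0`
  then `Pq 0 G = 0` because `V` is not empty, so both sides are `0 ≤ ...`).
* `cs_eq`: if equality holds and `q > 0` then `∑ f^2 ∑ g^2 = (∑ f g)^2`, so by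
  `∑_c ∑_c' (f c g c' - f c' g c)^2 = 2 (∑ f^2 ∑ g^2 - (∑ f g)^2) = 0` all terms vanish
  (`Finset.sum_eq_zero_iff_of_nonneg`).
-/

namespace H95L

open Finset

variable {V : Type*} [Fintype V] [DecidableEq V] {q : ℕ} {G : SimpleGraph V} {x y : V}


theorem g2_Off_comm {c : V → Fin q} : Off G x y c ↔ Off G y x c :=
  ⟨fun h u v h1 h2 h3 h4 => h u v h2 h1 h4 h3, fun h u v h1 h2 h3 h4 => h u v h2 h1 h4 h3⟩

open Classical in
/-- `[Off c] av x c` -/
noncomputable def g2_f (G : SimpleGraph V) (x y z : V) (q : ℕ) (c : V → Fin q) : ℝ :=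
  if Off G x y c then (av G z c : ℝ) else 0

theorem g2_pair (hxy : x ≠ y) (h : ¬ G.Adj x y) :
    (q : ℝ) ^ 2 * Pq q G = ∑ c : V → Fin q, g2_f G x y x q c * g2_f G x y y q c := by
  rw [count_pair hxy h]
  refine Finset.sum_congr rfl fun c _ => ?_
  unfold g2_f
  by_cases hO : Off G x y c
  · rw [if_pos hO, if_pos hO, if_pos hO]
  · rw [if_neg hO, if_neg hO, if_neg hO, mul_zero]

theorem g2_cl1 (hxy : x ≠ y) (h : ¬ G.Adj x y) :
    (q : ℝ) ^ 2 * Pq q (clone G x y) = ∑ c : V → Fin q, g2_f G x y y q c ^ 2 := by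
  rw [count_clone hxy h]
  refine Finset.sum_congr rfl fun c _ => ?_
  unfold g2_f
  by_cases hO : Off G x y c
  · rw [if_pos hO, if_pos hO]
  · rw [if_neg hO, if_neg hO]
    norm_num

theorem g2_cl2 (hxy : x ≠ y) (h : ¬ G.Adj x y) :
    (q : ℝ) ^ 2 * Pq q (clone G y x) = ∑ c : V → Fin q, g2_f G x y x q c ^ 2 := by
  rw [count_clone hxy.symm (fun h1 => h h1.symm)]
  refine Finset.sum_congr rfl fun c _ => ?_
  unfold g2_f
  by_cases hO : Off G x y c
  · rw [if_pos hO, if_pos (g2_Off_comm.1 hO)]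
  · rw [if_neg hO, if_neg (fun h1 => hO (g2_Off_comm.1 h1))]
    norm_num


theorem g2_zero (x : V) : Pq 0 G = 0 := by
  have : IsEmpty (G.Coloring (Fin 0)) := ⟨fun C => (C x).elim0⟩
  rw [Pq, Nat.card_of_isEmpty, Nat.cast_zero]


theorem g2_nonneg : 0 ≤ Pq q G := Nat.cast_nonneg _

theorem cs_le (hxy : x ≠ y) (h : ¬ G.Adj x y) :
    Pq q G ^ 2 ≤ Pq q (clone G x y) * Pq q (clone G y x) := by
  rcases Nat.eq_zero_or_pos q with hq | hq
  · subst hq
    rw [g2_zero x]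
    have := mul_nonneg (g2_nonneg (q := 0) (G := clone G x y)) (g2_nonneg (q := 0) (G := clone G y x))
    nlinarith
  · have hq' : (0 : ℝ) < (q : ℝ) ^ 2 * (q : ℝ) ^ 2 := by positivity
    have h1 := Finset.sum_mul_sq_le_sq_mul_sq (univ : Finset (V → Fin q)) (g2_f G x y x q)
      (g2_f G x y y q)
    rw [← g2_pair hxy h, ← g2_cl1 hxy h, ← g2_cl2 hxy h] at h1
    refine le_of_mul_le_mul_left ?_ hq'
    linarith [h1]

theorem g2_lagrange {ι : Type*} [Fintype ι] (f g : ι → ℝ)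
    (h : (∑ i, f i * g i) ^ 2 = (∑ i, f i ^ 2) * ∑ i, g i ^ 2) (i j : ι) :
    f i * g j = f j * g i := by
  have h1 : ∑ i, ∑ j, (f i * g j - f j * g i) ^ 2 = 0 := by
    have h2 : ∀ i j, (f i * g j - f j * g i) ^ 2 =
        f i ^ 2 * g j ^ 2 + g i ^ 2 * f j ^ 2 - 2 * ((f i * g i) * (f j * g j)) := fun i j => by ring
    simp only [h2, Finset.sum_sub_distrib, Finset.sum_add_distrib, ← Finset.mul_sum,
      ← Finset.sum_mul]
    rw [pow_two] at h
    linarith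
  have h3 : ∀ i ∈ (univ : Finset ι), (0 : ℝ) ≤ ∑ j, (f i * g j - f j * g i) ^ 2 := fun i _ =>
    Finset.sum_nonneg fun j _ => sq_nonneg _
  have h4 := (Finset.sum_eq_zero_iff_of_nonneg h3).1 h1 i (mem_univ _)
  have h5 := (Finset.sum_eq_zero_iff_of_nonneg fun j _ => sq_nonneg _).1 h4 j (mem_univ _)
  have h6 := pow_eq_zero_iff (two_ne_zero) |>.1 h5
  linarith

theorem cs_eq (hq : 0 < q) (hxy : x ≠ y) (h : ¬ G.Adj x y)
    (he : Pq q G ^ 2 = Pq q (clone G x y) * Pq q (clone G y x))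
    (c c' : V → Fin q) (hc : Off G x y c) (hc' : Off G x y c') :
    av G x c * av G y c' = av G x c' * av G y c := by
  have h1 : (∑ c : V → Fin q, g2_f G x y x q c * g2_f G x y y q c) ^ 2 =
      (∑ c : V → Fin q, g2_f G x y x q c ^ 2) * ∑ c : V → Fin q, g2_f G x y y q c ^ 2 := by
    rw [← g2_pair hxy h, ← g2_cl1 hxy h, ← g2_cl2 hxy h, mul_pow, he]
    ring
  have h2 := g2_lagrange _ _ h1 c c'
  unfold g2_f at h2
  rw [if_pos hc, if_pos hc, if_pos hc', if_pos hc'] at h2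
  exact_mod_cast h2

end H95L
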