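import Pool.Agent.Lib.H95L.G0

/-!
# Chunk G3: edges and twins of `clone G x y`

`x ≠ y` not adjacent, `φ = Function.update id x y`, `clone G x y = G.comap φ`:
* `clone_adj_off`: for `u, v ≠ x`: same adjacency as in `G`.
* `clone_adj_x`: `(clone G x y).Adj x v ↔ G.Adj y v` (for `v = x` both are false because `y` and `x`
  are not adjacent and `G.Adj y y` is false).
* `clone_ncard`: `e(clone G x y) + deg x = e(G) + deg y`: the edges avoiding `x` are the same; the
  edges at `x` are `{s(x,v) : G.Adj y v}` resp. `{s(x,v) : G.Adj x v}`. (Or the degree sum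
  `SimpleGraph.sum_degrees_eq_twice_card_edges`: the degree of `v ≠ x` changes by
  `[G.Adj y v] - [G.Adj x v]`.)
* `clone_ncard_add`: add this and the same with `x`, `y` exchanged.
* `tw_clone`: let `x, y` be non-adjacent, not twins, and let the twin class of `x` be at most as large
  as that of `y`. A pair of twins `u, v ≠ x` of `G` is a pair of twins of `clone G x y` (they have the
  same adjacencies to all `w ≠ x`, and `u` is adjacent to the new `x` iff `G.Adj y u`, equivalently
  `G.Adj y v`). In the new graph `x` is a twin of `y`, so of all twins of `y` different from `x` (in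
  `G`, `x` is not a twin of `y`). Let `A`, `B` be the sizes of the twin classes of `x`, `y` in `G`
  (`A ≤ B`): the pairs of twins of `G` with `x` in some coordinate are `2 A - 1`, those of the new
  graph at least `2 B + 1`.
-/

namespace H95L

open Finset

variable {V : Type*} [Fintype V] [DecidableEq V] {G : SimpleGraph V} {x y : V}

theorem clone_adj_off {u v : V} (hu : u ≠ x) (hv : v ≠ x) :
    (clone G x y).Adj u v ↔ G.Adj u v := by
  rw [clone, SimpleGraph.comap_adj, Function.update_of_ne hu, Function.update_of_ne hv]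
  rfl

theorem clone_adj_x (hxy : x ≠ y) (h : ¬ G.Adj x y) (v : V) :
    (clone G x y).Adj x v ↔ G.Adj y v := by
  rw [clone, SimpleGraph.comap_adj, Function.update_self]
  by_cases hv : v = x
  · subst hv
    rw [Function.update_self]
    exact ⟨fun h1 => absurd h1 G.irrefl, fun h1 => absurd h1.symm h⟩
  · rw [Function.update_of_ne hv]
    rfl

open Classical in
theorem g3_dg (G : SimpleGraph V) (v : V) : dg G v = ∑ w, if G.Adj v w then 1 else 0 := by
  unfold dg
  rw [Finset.card_filter]

theorem g3_sum (G : SimpleGraph V) : ∑ v, dg G v = 2 * G.edgeSet.ncard := by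
  classical
  have h1 := SimpleGraph.sum_degrees_eq_twice_card_edges G
  have h2 : G.edgeSet.ncard = G.edgeFinset.card := Set.ncard_eq_toFinset_card' _
  rw [h2, ← h1]
  refine Finset.sum_congr rfl fun v _ => ?_
  rw [← SimpleGraph.card_neighborFinset_eq_degree, dg]
  congr 1
  ext w
  simp

open Classical in
theorem g3_dg_clone (hxy : x ≠ y) (h : ¬ G.Adj x y) {v : V} (hv : v ≠ x) :
    dg (clone G x y) v + (if G.Adj x v then 1 else 0) = dg G v + (if G.Adj y v then 1 else 0) := by
  rw [g3_dg, g3_dg, ← Finset.add_sum_erase univ _ (mem_univ x),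
    ← Finset.add_sum_erase univ (fun w => if G.Adj v w then 1 else 0) (mem_univ x)]
  have h1 : ∑ w ∈ univ.erase x, (if (clone G x y).Adj v w then 1 else 0) =
      ∑ w ∈ univ.erase x, (if G.Adj v w then 1 else 0) := by
    refine Finset.sum_congr rfl fun w hw => ?_
    have hw' : w ≠ x := (mem_erase.1 hw).1
    simp only [clone_adj_off hv hw']
  have h2 : (clone G x y).Adj v x ↔ G.Adj y v := by
    rw [SimpleGraph.adj_comm, clone_adj_x hxy h]
  have h3 : G.Adj v x ↔ G.Adj x v := SimpleGraph.adj_comm _ _ _
  simp only [h1, h2, h3]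
  omega

theorem clone_ncard (hxy : x ≠ y) (h : ¬ G.Adj x y) :
    (clone G x y).edgeSet.ncard + dg G x = G.edgeSet.ncard + dg G y := by
  classical
  have h1 := g3_sum (clone G x y)
  have h2 := g3_sum G
  rw [← Finset.add_sum_erase univ _ (mem_univ x)] at h1 h2
  have h3 : dg (clone G x y) x = dg G y := by
    unfold dg
    simp only [clone_adj_x hxy h]
  have h4 : ∑ v ∈ univ.erase x, (dg (clone G x y) v + (if G.Adj x v then 1 else 0)) =
      ∑ v ∈ univ.erase x, (dg G v + (if G.Adj y v then 1 else 0)) :=
    Finset.sum_congr rfl fun v hv => g3_dg_clone hxy h (mem_erase.1 hv).1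
  rw [Finset.sum_add_distrib, Finset.sum_add_distrib] at h4
  have h5 : ∑ v ∈ univ.erase x, (if G.Adj x v then 1 else 0) = dg G x := by
    rw [g3_dg, ← Finset.add_sum_erase univ (fun w => if G.Adj x w then 1 else 0) (mem_univ x)]
    simp
  have h6 : ∑ v ∈ univ.erase x, (if G.Adj y v then 1 else 0) = dg G y := by
    rw [g3_dg, ← Finset.add_sum_erase univ (fun w => if G.Adj y w then 1 else 0) (mem_univ x)]
    have h7 : ¬G.Adj y x := fun h7 => h h7.symm
    simp [h7]
  rw [h5, h6] at h4
  omega

theorem clone_ncard_add (hxy : x ≠ y) (h : ¬ G.Adj x y) :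
    (clone G x y).edgeSet.ncard + (clone G y x).edgeSet.ncard = 2 * G.edgeSet.ncard := by
  have h1 := clone_ncard hxy h
  have h2 := clone_ncard hxy.symm (fun h1 => h h1.symm)
  omega

open Classical in
theorem g3_tw (G : SimpleGraph V) (x : V) : tw G + 1 = 2 * (univ.filter fun v => Tw G x v).card +
    ∑ u ∈ univ.erase x, ∑ v ∈ univ.erase x, if Tw G u v then 1 else 0 := by
  have h1 : tw G = ∑ u, ∑ v, if Tw G u v then 1 else 0 := by
    unfold tw
    rw [Finset.card_filter, Fintype.sum_prod_type]
  have h2 : (univ.filter fun v => Tw G x v).card = ∑ v, if Tw G x v then 1 else 0 := by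
    rw [Finset.card_filter]
  have h3 : (univ.filter fun v => Tw G x v).card =
      1 + ∑ v ∈ univ.erase x, if Tw G v x then 1 else 0 := by
    rw [h2, ← Finset.add_sum_erase univ _ (mem_univ x)]
    have h4 : Tw G x x := fun w => Iff.rfl
    rw [if_pos h4]
    congr 1
    refine Finset.sum_congr rfl fun v _ => ?_
    have h5 : Tw G x v ↔ Tw G v x := ⟨fun h w => (h w).symm, fun h w => (h w).symm⟩
    simp only [h5]
  rw [h1, ← Finset.add_sum_erase univ _ (mem_univ x), ← h2]
  have h4 : ∀ u, (∑ v, if Tw G u v then 1 else 0) = (if Tw G u x then 1 else 0) +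
      ∑ v ∈ univ.erase x, if Tw G u v then 1 else 0 := fun u => by
    rw [← Finset.add_sum_erase univ _ (mem_univ x)]
  simp only [h4, Finset.sum_add_distrib]
  omega

open Classical in
theorem tw_clone (hxy : x ≠ y) (h : ¬ G.Adj x y) (ht : ¬ Tw G x y)
    (hc : (univ.filter fun v => Tw G x v).card ≤ (univ.filter fun v => Tw G y v).card) :
    tw G < tw (clone G x y) := by
  have h1 := g3_tw G x
  have h2 := g3_tw (clone G x y) x
  have h3 : ∑ u ∈ univ.erase x, ∑ v ∈ univ.erase x, (if Tw G u v then 1 else 0) ≤
      ∑ u ∈ univ.erase x, ∑ v ∈ univ.erase x, (if Tw (clone G x y) u v then 1 else 0) := by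
    refine Finset.sum_le_sum fun u hu => Finset.sum_le_sum fun v hv => ?_
    have hu' := (mem_erase.1 hu).1
    have hv' := (mem_erase.1 hv).1
    by_cases h4 : Tw G u v
    · have h5 : Tw (clone G x y) u v := by
        intro w
        by_cases hw : w = x
        · subst hw
          rw [SimpleGraph.adj_comm, clone_adj_x hxy h, SimpleGraph.adj_comm _ v,
            clone_adj_x hxy h, SimpleGraph.adj_comm, SimpleGraph.adj_comm _ y v]
          exact h4 y
        · rw [clone_adj_off hu' hw, clone_adj_off hv' hw]
          exact h4 w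
      rw [if_pos h4, if_pos h5]
    · rw [if_neg h4]
      exact Nat.zero_le _
  have hx : x ∉ univ.filter fun v => Tw G y v := by
    intro h4
    have h5 := (mem_filter.1 h4).2
    exact ht fun w => (h5 w).symm
  have h6 : (insert x (univ.filter fun v => Tw G y v)).card ≤
      (univ.filter fun v => Tw (clone G x y) x v).card := by
    apply Finset.card_le_card
    intro v hv
    simp only [mem_filter, mem_univ, true_and]
    rcases mem_insert.1 hv with hv | hv
    · subst hv
      exact fun w => Iff.rfl
    · have h5 := (mem_filter.1 hv).2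
      have hvx : v ≠ x := fun h6 => hx (h6 ▸ hv)
      intro w
      by_cases hw : w = x
      · subst hw
        rw [SimpleGraph.adj_comm _ v, clone_adj_x hxy h, clone_adj_x hxy h, h5 v]
        exact ⟨fun h6 => absurd h6.symm h, fun h6 => absurd h6 G.irrefl⟩
      · rw [clone_adj_x hxy h, clone_adj_off hvx hw]
        exact h5 w
  rw [Finset.card_insert_of_notMem hx] at h6
  omega

end H95L
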