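import Pool.Agent.Lib.H95L.G2
import Pool.Agent.Lib.H95L.G3

/-!
# Chunk G4: some maximiser is complete multipartite

* `wt_sq_le`: `cs_le` times `x^(2 e(G)) = x^(e(G1)) x^(e(G2))` (`clone_ncard_add`).
* `Mx_clone`: if `G` is a maximiser with weight `M` then `M^2 ≤ w(G1) w(G2)`, `0 ≤ w(G1), w(G2) ≤ M`,
  so `w(G1) = M` (if `M = 0` then `0 ≤ w(G1) ≤ 0`).
* `cs_eq_Mx`: for a maximiser with `M > 0`: `M = w(G) = w(G1) = w(G2)`, so equality holds in `cs_le`
  (cancel the powers of `t`), and `cs_eq` applies (`q > 0`: else `Pq 0 G = 0`, as `V` is not empty).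
* `exists_Mp`: `SimpleGraph V` is finite (`Finite (SimpleGraph V)`, or `Fintype` classically); take a
  maximiser `G` of `wt` and among the maximisers one with `tw G` maximal
  (`Set.Finite.exists_maximal...`, `Finset.exists_max_image` twice). Suppose `u, v` are not adjacent
  and not twins; `u ≠ v`. Order them so that the twin class of `u` is at most that of `v`
  (`Tw` is symmetric). `clone G u v` is a maximiser with larger `tw`: contradiction.
-/

namespace H95L

open Finset

variable {V : Type*} [Fintype V] [DecidableEq V] {q : ℕ} {t : ℝ} {G : SimpleGraph V} {x y : V}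

theorem wt_nonneg (ht : 0 < t) (G : SimpleGraph V) : 0 ≤ wt q t G := by
  unfold wt Pq
  positivity

theorem g4_Pq_nonneg (G : SimpleGraph V) : 0 ≤ Pq q G := by
  unfold Pq
  positivity

theorem wt_sq_le (ht : 0 < t) (hxy : x ≠ y) (h : ¬ G.Adj x y) :
    wt q t G ^ 2 ≤ wt q t (clone G x y) * wt q t (clone G y x) := by
  have h1 := cs_le (q := q) hxy h
  have h2 := clone_ncard_add hxy h
  unfold wt
  have e1 : (Pq q G * t ^ G.edgeSet.ncard) ^ 2 = Pq q G ^ 2 * t ^ (2 * G.edgeSet.ncard) := by
    rw [mul_pow, ← pow_mul, mul_comm (G.edgeSet.ncard) 2]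
  have e2 : Pq q (clone G x y) * t ^ (clone G x y).edgeSet.ncard *
      (Pq q (clone G y x) * t ^ (clone G y x).edgeSet.ncard) =
      (Pq q (clone G x y) * Pq q (clone G y x)) * t ^ (2 * G.edgeSet.ncard) := by
    rw [← h2, pow_add]
    ring
  rw [e1, e2]
  exact mul_le_mul_of_nonneg_right h1 (by positivity)

theorem g4_eq (ht : 0 < t) (hG : Mx q t G) (hxy : x ≠ y) (h : ¬ G.Adj x y) :
    wt q t (clone G x y) = wt q t G := by
  have h1 := wt_sq_le (q := q) ht hxy h
  have h2 := hG (clone G x y)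
  have h3 := hG (clone G y x)
  have h4 := wt_nonneg (q := q) ht (clone G x y)
  have h5 := wt_nonneg (q := q) ht G
  refine le_antisymm h2 ?_
  rcases h5.eq_or_lt with h6 | h6
  · rw [← h6]; exact h4
  · by_contra hc
    push Not at hc
    have h7 : wt q t (clone G x y) * wt q t (clone G y x) < wt q t G * wt q t G :=
      mul_lt_mul_of_lt_of_le_of_nonneg_of_pos hc h3 h4 h6
    nlinarith

theorem Mx_clone (ht : 0 < t) (hG : Mx q t G) (hxy : x ≠ y) (h : ¬ G.Adj x y) :
    Mx q t (clone G x y) := by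
  intro G'
  rw [g4_eq ht hG hxy h]
  exact hG G'

theorem cs_eq_Mx (ht : 0 < t) (hG : Mx q t G) (hpos : 0 < wt q t G) (hxy : x ≠ y)
    (h : ¬ G.Adj x y) (c c' : V → Fin q) (hc : Off G x y c) (hc' : Off G x y c') :
    av G x c * av G y c' = av G x c' * av G y c := by
  have hq : 0 < q := by
    rcases Nat.eq_zero_or_pos q with rfl | hq
    · exact (c x).elim0
    · exact hq
  have h1 := g4_eq ht hG hxy h
  have h2 := g4_eq ht hG hxy.symm (fun h' => h h'.symm)
  refine cs_eq hq hxy h ?_ c c' hc hc'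
  have h3 := clone_ncard_add hxy h
  unfold wt at h1 h2
  have hp : 0 < t ^ (2 * G.edgeSet.ncard) := by positivity
  have e1 : (Pq q G * t ^ G.edgeSet.ncard) ^ 2 = Pq q G ^ 2 * t ^ (2 * G.edgeSet.ncard) := by
    rw [mul_pow, ← pow_mul, mul_comm (G.edgeSet.ncard) 2]
  have e2 : Pq q (clone G x y) * t ^ (clone G x y).edgeSet.ncard *
      (Pq q (clone G y x) * t ^ (clone G y x).edgeSet.ncard) =
      (Pq q (clone G x y) * Pq q (clone G y x)) * t ^ (2 * G.edgeSet.ncard) := by
    rw [← h3, pow_add]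
    ring
  rw [h1, h2, ← pow_two, e1] at e2
  exact mul_right_cancel₀ hp.ne' e2

theorem g4_tw_comm {u v : V} (h : Tw G u v) : Tw G v u := fun w => (h w).symm

theorem exists_Mp (V : Type*) [Fintype V] [DecidableEq V] (q : ℕ) (ht : 0 < t) :
    ∃ G : SimpleGraph V, Mx q t G ∧ Mp G := by
  classical
  have hfin : Finite (SimpleGraph V) := inferInstance
  obtain ⟨G0, hG0⟩ := Finite.exists_max (fun G : SimpleGraph V => wt q t G)
  have hne : (univ.filter fun G : SimpleGraph V => Mx q t G).Nonempty := by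
    refine ⟨G0, ?_⟩
    rw [mem_filter]
    exact ⟨mem_univ _, hG0⟩
  obtain ⟨G, hG, hmax⟩ := exists_max_image _ (fun G : SimpleGraph V => tw G) hne
  rw [mem_filter] at hG
  refine ⟨G, hG.2, ?_⟩
  have key : ∀ u v, ¬ G.Adj u v → ¬ Tw G u v →
      ¬ (univ.filter fun w => Tw G u w).card ≤ (univ.filter fun w => Tw G v w).card := by
    intro u v h1 h2 h3
    have huv : u ≠ v := by
      rintro rfl
      exact h2 fun w => Iff.rfl
    have h4 := tw_clone huv h1 h2 h3
    have h5 := hmax (clone G u v) (by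
      rw [mem_filter]
      exact ⟨mem_univ _, Mx_clone ht hG.2 huv h1⟩)
    omega
  intro u v huv
  by_contra hc
  have h1 := key u v huv hc
  have h2 := key v u (fun h' => huv h'.symm) (fun h' => hc (g4_tw_comm h'))
  omega

end H95L
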