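import Pool.Agent.Lib.H95L.G0

/-!
# Chunk G5: the partition polynomial of a complete multipartite graph

* `KN_rec`: the equation of `KN` (`Fin.sum_univ_eq_sum_range`), see chunk K1 (not imported).
* `P_clq`: `H` a graph, `T` a clique with `k` vertices: `P H T = KN k`. Strong induction on `k`:
  `k = 0`: `P_empty`. For `v ∈ T`: `H5CP.P_nb` sums over the cliques `D` inside the neighbours of `v` in
  `T`; `nb H T v = T.erase v` has `k - 1` elements and all its subsets are cliques, and
  `T \ insert v D` is a clique with `k - 1 - |D|` elements. So the sum is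
  `∑_{D ⊆ T.erase v} X^|D| * KN (k-1-|D|)`, `Finset.sum_powerset_apply_card`, and `KN_rec`.
  (Compare `H5CP.P_clique`, the same for `k ≤ 4`.)
* `exists_Prof`: for a set `S` which is a union of classes, i.e. `v ∈ S → ¬ G.Adj v w → w ∈ S`, there is
  `ν` with `0 ∉ ν`, `ν.sum = |S|`, `P Gᶜ S = (ν.map KN).prod`, `e2 Gᶜ S = 2 EE ν` (as reals),
  `∀ v ∈ S, ng G v ∈ ν`, and `∀ m ∈ ν, ∃ v ∈ S, ng G v = m`, and a colouring of `S` with `card ν`
  colours. Strong induction on `|S|`: `S = ∅`: `ν = 0`. Let `v ∈ S` and
  `T = {w : ¬ G.Adj v w} ⊆ S`. By `Mp`, `T` is the class of each of its elements, it is a clique of `Gᶜ`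
  (two elements of `T` are not adjacent in `G`) and no element of `T` is adjacent in `Gᶜ` to one of
  `S \ T`; `S \ T` is again a union of classes. `H5CP.P_union'`, `H5CP.e2_union'`, `H5CP.e2_clique`,
  `P_clq`; `ν = |T| ::ₘ ν'`.
  `Prof` is the case `S = univ`. For the colouring it is convenient to carry a map `S → Fin (card ν)`
  or the statement `∃ f : V → ℕ, (∀ v ∈ S, f v < card ν) ∧ ∀ u v ∈ S, G.Adj u v → f u ≠ f v`.
-/

namespace H95L

open Finset

variable {V : Type*} [Fintype V] [DecidableEq V] {G : SimpleGraph V}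

theorem g5_KN_rec (m : ℕ) : KN (m + 1) =
    ∑ i ∈ range (m + 1), (m.choose i) • (Polynomial.X ^ i * KN (m - i)) := by
  rw [KN, ← Fin.sum_univ_eq_sum_range (fun i => (m.choose i) • (Polynomial.X ^ i * KN (m - i)))]

theorem P_clq {V : Type*} [DecidableEq V] (H : SimpleGraph V) : ∀ (k : ℕ) (T : Finset V),
    T.card = k → H.IsClique (T : Set V) → H5CP.P H T = KN k := by
  classical
  intro n
  induction n using Nat.strong_induction_on with
  | _ n ih =>
    intro T hT hcl
    rcases T.eq_empty_or_nonempty with rfl | ⟨v, hv⟩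
    · simp at hT
      subst hT
      rw [H5CP.P_empty, KN]
    · have hnb : H5CP.nb H T v = T.erase v := by
        ext x
        rw [H5CP.mem_nb, mem_erase]
        constructor
        · rintro ⟨h1, h2⟩
          exact ⟨h2.ne', h1⟩
        · rintro ⟨h1, h2⟩
          exact ⟨h2, hcl hv h2 (Ne.symm h1)⟩
      rw [H5CP.P_nb H hv, hnb]
      have h1 : (T.erase v).powerset.filter (fun D : Finset V => H.IsClique (D : Set V)) =
          (T.erase v).powerset := by
        apply filter_true_of_mem
        intro D hD
        rw [mem_powerset] at hD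
        exact hcl.subset (by
          intro x hx
          exact mem_of_mem_erase (hD hx))
      rw [h1]
      have hcard : (T.erase v).card = n - 1 := by rw [card_erase_of_mem hv, hT]
      have hn0 : 0 < n := by rw [← hT]; exact card_pos.2 ⟨v, hv⟩
      have h2 : ∀ D ∈ (T.erase v).powerset,
          Polynomial.X ^ D.card * H5CP.P H (T \ insert v D) =
          Polynomial.X ^ D.card * KN (n - 1 - D.card) := by
        intro D hD
        rw [mem_powerset] at hD
        have hvD : v ∉ D := fun h => by simpa using hD h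
        have hDc := card_le_card hD
        rw [hcard] at hDc
        have hsub : insert v D ⊆ T := by
          rw [insert_subset_iff]
          exact ⟨hv, fun x hx => mem_of_mem_erase (hD hx)⟩
        have h3 : (T \ insert v D).card = n - 1 - D.card := by
          rw [card_sdiff_of_subset hsub, card_insert_of_notMem hvD, hT]
          omega
        rw [ih (n - 1 - D.card) (by omega) (T \ insert v D) h3 (hcl.subset (by
          intro x hx
          exact (mem_sdiff.1 hx).1))]
      rw [sum_congr rfl h2,
        sum_powerset_apply_card (fun j => Polynomial.X ^ j * KN (n - 1 - j)), hcard]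
      obtain ⟨m, rfl⟩ : ∃ m, n = m + 1 := ⟨n - 1, by omega⟩
      rw [g5_KN_rec]
      rfl

theorem g5_main (hG : Mp G) : ∀ (k : ℕ) (S : Finset V), S.card = k →
    (∀ v ∈ S, ∀ w, ¬ G.Adj v w → w ∈ S) →
    ∃ ν : Multiset ℕ, 0 ∉ ν ∧ ν.sum = S.card ∧ H5CP.P Gᶜ S = (ν.map KN).prod ∧
      (H5CP.e2 Gᶜ S : ℝ) = 2 * EE ν ∧ (∀ v ∈ S, ng G v ∈ ν) ∧
      ∃ f : V → ℕ, (∀ v ∈ S, f v < Multiset.card ν) ∧
        ∀ u ∈ S, ∀ v ∈ S, G.Adj u v → f u ≠ f v := by
  classical
  intro k
  induction k using Nat.strong_induction_on with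
  | _ k ih =>
    intro S hS hcl
    rcases S.eq_empty_or_nonempty with rfl | ⟨v, hv⟩
    · refine ⟨0, by simp, by simp, by simp, ?_, by simp, fun _ => 0, by simp, by simp⟩
      simp [EE, H5CP.e2]
    · set T : Finset V := univ.filter fun w => ¬ G.Adj v w with hT
      have memT : ∀ w, w ∈ T ↔ ¬ G.Adj v w := fun w => by rw [hT, mem_filter]; simp
      have hvT : v ∈ T := (memT v).2 (G.loopless.irrefl v)
      have hTS : T ⊆ S := fun w hw => hcl v hv w ((memT w).1 hw)
      have htw : ∀ u ∈ T, ∀ w, G.Adj u w ↔ G.Adj v w := fun u hu w =>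
        (hG v u ((memT u).1 hu) w).symm
      have hclq : Gᶜ.IsClique (T : Set V) := by
        intro u hu w hw huw
        rw [SimpleGraph.compl_adj]
        refine ⟨huw, fun h => ?_⟩
        rw [htw u hu w] at h
        exact (memT w).1 hw h
      have hno : ∀ u ∈ T, ∀ w ∈ S, w ∉ T → ¬ Gᶜ.Adj u w := by
        intro u hu w _ hw h
        rw [SimpleGraph.compl_adj] at h
        apply h.2
        rw [htw u hu w]
        by_contra hc
        exact hw ((memT w).2 hc)
      have hlt : (S \ T).card < k := by rw [← hS]; exact H5CP.card_sdiff_lt hTS hvT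
      have hcl' : ∀ x ∈ S \ T, ∀ w, ¬ G.Adj x w → w ∈ S \ T := by
        intro x hx w hxw
        rw [mem_sdiff] at hx ⊢
        refine ⟨hcl x hx.1 w hxw, fun hw => hx.2 ?_⟩
        rw [memT, ← htw w hw x]
        exact fun h => hxw h.symm
      obtain ⟨ν, h0, hsum, hP, hE, hng, f, hf1, hf2⟩ := ih _ hlt (S \ T) rfl hcl'
      have hTc : 0 < T.card := card_pos.2 ⟨v, hvT⟩
      have hngT : ∀ u ∈ T, ng G u = T.card := by
        intro u hu
        unfold ng
        congr 1
        ext w
        rw [mem_filter, memT, htw u hu w]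
        simp
      refine ⟨T.card ::ₘ ν, ?_, ?_, ?_, ?_, ?_, fun w => if w ∈ T then Multiset.card ν else f w,
        ?_, ?_⟩
      · rw [Multiset.mem_cons, not_or]
        exact ⟨hTc.ne, h0⟩
      · rw [Multiset.sum_cons, hsum, card_sdiff_of_subset hTS]
        have := card_le_card hTS
        omega
      · rw [H5CP.P_union' hTS hno, P_clq Gᶜ T.card T rfl hclq, hP, Multiset.map_cons,
          Multiset.prod_cons]
      · rw [H5CP.e2_union' hTS hno, H5CP.e2_clique hclq]
        push_cast
        rw [hE]
        unfold EE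
        rw [Multiset.map_cons, Multiset.sum_cons, Nat.cast_sub (by omega)]
        push_cast
        ring
      · intro u hu
        rw [Multiset.mem_cons]
        by_cases huT : u ∈ T
        · exact Or.inl (hngT u huT)
        · exact Or.inr (hng u (mem_sdiff.2 ⟨hu, huT⟩))
      · intro u hu
        dsimp only
        rw [Multiset.card_cons]
        split_ifs with huT
        · omega
        · have := hf1 u (mem_sdiff.2 ⟨hu, huT⟩)
          omega
      · intro u hu w hw huw
        dsimp only
        by_cases huT : u ∈ T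
        · by_cases hwT : w ∈ T
          · exfalso
            rw [htw u huT w] at huw
            exact (memT w).1 hwT huw
          · rw [if_pos huT, if_neg hwT]
            have := hf1 w (mem_sdiff.2 ⟨hw, hwT⟩)
            omega
        · by_cases hwT : w ∈ T
          · rw [if_neg huT, if_pos hwT]
            have := hf1 u (mem_sdiff.2 ⟨hu, huT⟩)
            omega
          · rw [if_neg huT, if_neg hwT]
            exact hf2 u (mem_sdiff.2 ⟨hu, huT⟩) w (mem_sdiff.2 ⟨hw, hwT⟩) huw

theorem exists_Prof (hG : Mp G) : ∃ ν : Multiset ℕ, Prof G ν ∧ (∀ v, ng G v ∈ ν) ∧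
    G.Colorable (Multiset.card ν) := by
  obtain ⟨ν, h0, hsum, hP, hE, hng, f, hf1, hf2⟩ := g5_main hG _ univ rfl
    (fun v _ w _ => mem_univ w)
  refine ⟨ν, ⟨h0, by rw [hsum, card_univ], hP, hE⟩, fun v => hng v (mem_univ v), ?_⟩
  exact ⟨SimpleGraph.Coloring.mk (fun v => (⟨f v, hf1 v (mem_univ v)⟩ : Fin (Multiset.card ν)))
    (fun {u w} huw he => hf2 u (mem_univ u) w (mem_univ w) huw (by
      rw [Fin.mk.injEq] at he
      exact he))⟩

end H95L
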