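import Pool.Agent.Lib.H95L.G5

/-!
# Chunk G6: the profile of the Turan graph

`T` = the multiset of the sizes `|part n r i|`, `i < r`, which are not `0`. As in `H5CP.turan_data`:
`H5CP.card_part` (`n / r + [i < n % r]`), `H5CP.P_union'` along `H5CP.low n r j` with
`H5CP.part_sub`, `H5CP.no_adj_part`, `H5CP.low_succ_sdiff`, `H5CP.clique_part`, `P_clq` give
`P (turanGraph n r)ᶜ univ = ∏_{i<r} KN |part i|` (`KN 0 = 1`, so the empty parts may be dropped), and
`H5CP.e2_low`, `H5CP.low_univ` give `e2`. The sum of the sizes is `n` (`P_low`-type induction, or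
`r (n/r) + n % r = n`).
`s`: if `r ≥ n` all sizes (not zero) are `1`: `s = 2`. If `r = 1 < n`... the size is `n`: `s = n`
(`n ≥ 2`). If `2 ≤ r < n`: the sizes are `n/r ≥ 1` and `n/r + 1`, `s = n/r + 1`, `2 ≤ s ≤ n`
(`n/r ≤ n/2`). In each case `2 ≤ s ≤ n` and all sizes are `s - 1` or `s`. (`r = 1`: `n/1 = n` and
`n % 1 = 0`, so only the size `n` occurs.) `card T ≤ r`.
-/

namespace H95L

open Finset

theorem g6_low {n r : ℕ} : ∀ j ≤ r,
    H5CP.P (SimpleGraph.turanGraph n r)ᶜ (H5CP.low n r j) =
      ∏ i ∈ range j, KN (H5CP.part n r i).card := by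
  intro j
  induction j with
  | zero =>
    intro _
    have h0 : H5CP.low n r 0 = ∅ := by
      ext v
      rw [H5CP.mem_low]
      simp
    rw [h0]
    simp
  | succ j ih =>
    intro hj
    rw [H5CP.P_union' (H5CP.part_sub n r j) H5CP.no_adj_part, H5CP.low_succ_sdiff, ih (by omega),
      prod_range_succ, P_clq _ _ _ rfl (H5CP.clique_part n r j), mul_comm]

theorem g6_prod {M : Type*} [CommMonoid M] (g : ℕ → M) (hg : g 0 = 1) (s : Multiset ℕ) :
    ((s.filter (fun m => m ≠ 0)).map g).prod = (s.map g).prod := by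
  induction s using Multiset.induction_on with
  | empty => simp
  | cons a s ih =>
    by_cases ha : a = 0
    · have h' : ¬ (fun m : ℕ => m ≠ 0) a := fun h'' => h'' ha
      rw [Multiset.filter_cons_of_neg (p := fun m : ℕ => m ≠ 0) s h', ih, Multiset.map_cons,
        Multiset.prod_cons, ha, hg, one_mul]
    · rw [Multiset.filter_cons_of_pos (p := fun m : ℕ => m ≠ 0) s ha, Multiset.map_cons, Multiset.prod_cons, ih,
        Multiset.map_cons, Multiset.prod_cons]

theorem g6_sum {M : Type*} [AddCommMonoid M] (g : ℕ → M) (hg : g 0 = 0) (s : Multiset ℕ) :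
    ((s.filter (fun m => m ≠ 0)).map g).sum = (s.map g).sum := by
  induction s using Multiset.induction_on with
  | empty => simp
  | cons a s ih =>
    by_cases ha : a = 0
    · have h' : ¬ (fun m : ℕ => m ≠ 0) a := fun h'' => h'' ha
      rw [Multiset.filter_cons_of_neg (p := fun m : ℕ => m ≠ 0) s h', ih, Multiset.map_cons,
        Multiset.sum_cons, ha, hg, zero_add]
    · rw [Multiset.filter_cons_of_pos (p := fun m : ℕ => m ≠ 0) s ha, Multiset.map_cons, Multiset.sum_cons, ih,
        Multiset.map_cons, Multiset.sum_cons]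

theorem turan_Prof {n r : ℕ} (hn : 2 ≤ n) (hr : 0 < r) : ∃ (T : Multiset ℕ) (s : ℕ),
    Prof (SimpleGraph.turanGraph n r) T ∧ 2 ≤ s ∧ s ≤ n ∧ (∀ m ∈ T, m = s - 1 ∨ m = s) ∧
    Multiset.card T ≤ r := by
  have hb : n % r ≤ r := (Nat.mod_lt _ hr).le
  have hcard : ∀ j < r, (H5CP.part n r j).card = n / r + if j < n % r then 1 else 0 :=
    fun j hj => H5CP.card_part hr hj
  have hdiv : r * (n / r) + n % r = n := Nat.div_add_mod n r
  have hP := g6_low (n := n) (r := r) r le_rfl
  have hE := H5CP.e2_low (n := n) (r := r) r le_rfl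
  rw [H5CP.low_univ hr] at hP hE
  have hS : ∑ i ∈ range r, (H5CP.part n r i).card = n := by
    rw [H5CP.sum_ite_lt r (n % r) hb _ (n / r + 1) (n / r) (by
      intro i hi
      rw [hcard i hi]
      split_ifs <;> rfl)]
    obtain ⟨c, hc⟩ := Nat.exists_eq_add_of_le hb
    have e : r - n % r = c := by omega
    rw [e]
    have e2 : r * (n / r) = (n % r) * (n / r) + c * (n / r) := by
      rw [← add_mul, ← hc]
    linarith [hdiv, e2, mul_comm (n / r) c, mul_comm (n / r) (n % r), add_mul (n / r) 1 (n % r)]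
  set f : ℕ → ℕ := fun i => (H5CP.part n r i).card with hf
  set M : Multiset ℕ := (range r).val.map f with hM
  have hmem : ∀ m ∈ M.filter (fun m => m ≠ 0), m ≠ 0 ∧ (m = n / r ∨ (m = n / r + 1 ∧ 0 < n % r)) := by
    intro m hm
    rw [Multiset.mem_filter] at hm
    obtain ⟨hm1, hm0⟩ := hm
    obtain ⟨i, hi, rfl⟩ := Multiset.mem_map.1 hm1
    rw [Finset.mem_val, mem_range] at hi
    refine ⟨hm0, ?_⟩
    show (H5CP.part n r i).card = _ ∨ ((H5CP.part n r i).card = _ ∧ _)
    rw [hcard i hi]
    split_ifs with h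
    · right
      exact ⟨rfl, by omega⟩
    · left
      rfl
  have hprof : Prof (SimpleGraph.turanGraph n r) (M.filter (fun m => m ≠ 0)) := by
    refine ⟨?_, ?_, ?_, ?_⟩
    · intro h
      exact (Multiset.mem_filter.1 h).2 rfl
    · have h1 := g6_sum (fun m : ℕ => m) rfl M
      rw [Multiset.map_id', Multiset.map_id'] at h1
      rw [h1, Fintype.card_fin, hM]
      exact hS
    · rw [hP, g6_prod KN (by rw [KN]) M, hM, Multiset.map_map]
      rfl
    · rw [hE]
      unfold EE
      rw [g6_sum (fun m : ℕ => (m : ℝ) * (m - 1) / 2) (by simp) M, hM, Multiset.map_map]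
      show _ = 2 * ∑ i ∈ range r, (((f i : ℕ) : ℝ) * ((f i : ℕ) - 1) / 2)
      rw [mul_sum]
      push_cast
      refine sum_congr rfl fun i _ => ?_
      show (((f i : ℕ) : ℝ)) * (((f i - 1 : ℕ) : ℕ) : ℝ) = _
      rcases Nat.eq_zero_or_pos (f i) with h | h
      · rw [h]
        simp
      · rw [Nat.cast_sub h]
        push_cast
        ring
  have hcardT : Multiset.card (M.filter (fun m => m ≠ 0)) ≤ r := by
    refine (Multiset.card_le_card (Multiset.filter_le _ _)).trans ?_
    rw [hM, Multiset.card_map]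
    simp
  by_cases h1 : n ≤ r
  · refine ⟨_, 2, hprof, le_rfl, hn, fun m hm => ?_, hcardT⟩
    obtain ⟨hm0, hm⟩ := hmem m hm
    left
    rcases Nat.lt_or_ge n r with h2 | h2
    · have e1 : n / r = 0 := Nat.div_eq_of_lt h2
      omega
    · have e0 : n = r := by omega
      have e1 : n / r = 1 := by rw [e0]; exact Nat.div_self hr
      have e2 : n % r = 0 := by rw [e0]; exact Nat.mod_self r
      omega
  · push Not at h1
    rcases Nat.lt_or_ge r 2 with h2 | h2
    · have e0 : r = 1 := by omega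
      refine ⟨_, n, hprof, hn, le_rfl, fun m hm => ?_, hcardT⟩
      obtain ⟨hm0, hm⟩ := hmem m hm
      right
      have e1 : n / r = n := by rw [e0, Nat.div_one]
      have e2 : n % r = 0 := by rw [e0, Nat.mod_one]
      omega
    · have e1 : 1 ≤ n / r := (Nat.one_le_div_iff hr).2 h1.le
      have e2 : n / r ≤ n / 2 := Nat.div_le_div_left h2 (by norm_num)
      refine ⟨_, n / r + 1, hprof, by omega, by omega, fun m hm => ?_, hcardT⟩
      obtain ⟨hm0, hm⟩ := hmem m hm
      omega

end H95L
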