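import Pool.Agent.Lib.H95L.S2

/-!
# Chunk L1: the coefficients `σ_j`, their growth, and the numbers `W_i`

* `rho_pos`: clear. `inv_a`: `1 / a = (16/33) (2 ρ)`.
* `sg_zero`, `sg_succ`: the equations of `sg`; `sg_rec`: for every `j`
  `j σ_j = ∑_{p ∈ antidiagonal j} e_{p.1} σ_{p.2}` when `e_0 = 0` (`Fin.sum_univ_eq_sum_range`,
  `Finset.Nat.sum_antidiagonal_eq_sum_range_succ_mk`, the term `p.1 = 0` vanishes).
* `l1_choose`: `|σ_j| (4ρ)^j ≤ (n + j - 1).choose j` by strong induction: `|e_k| (4ρ)^k ≤ n/12 ≤ n`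
  (`Nb.coeff_le`), so `j |σ_j| (4ρ)^j ≤ n ∑_{i<j} (n+i-1).choose i = n (n+j-1).choose (j-1)`
  `= j (n+j-1).choose j` (hockey stick, e.g. by induction, or `Nat.sum_range_choose...`; it is
  convenient to write `n = N + 1`: `∑_{i<j} (N+i).choose i = (N+j).choose (j-1)` for `j ≥ 1`).
* `sg_bound`: `(n+j-1).choose j ≤ 2^(n+j-1) ≤ 2^n 2^j` (`Nat.choose_le_two_pow`) and
  `2^j (4ρ)^{-j} = (2ρ)^{-j}`.
* `W_succ`: `prod_range_succ`. `W_pos`. `W_add_le`: `W (j+k) = W k ∏_{i<j} (a + k + i + 1)⁻¹`, each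
  factor is at most `(a+k)⁻¹`. `W_le`: `k = 0`, `j = k` in the previous one.
-/

namespace H95L

open Finset PowerSeries

variable {n : ℕ} {a : ℝ} {e : ℝ⟦X⟧}

theorem rho_pos (ha : 0 < a) : 0 < rho a := by
  rw [rho]
  positivity

theorem inv_a (ha : 0 < a) : a⁻¹ = 16 / 33 * (2 * rho a) := by
  rw [rho]
  field_simp
  norm_num

theorem Hy.a_pos (h : Hy n a e) : 0 < a := by
  have h1 : (1 : ℝ) ≤ n := by exact_mod_cast h.hn
  have h2 := h.ha
  linarith

theorem sg_zero (e : ℝ⟦X⟧) : sg e 0 = 1 := by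
  rw [sg]

theorem l1_succ (e : ℝ⟦X⟧) (j : ℕ) : ((j : ℝ) + 1) * sg e (j + 1) =
    ∑ k ∈ range (j + 1), coeff (k + 1) e * sg e (j - k) := by
  have hj : (j : ℝ) + 1 ≠ 0 := by positivity
  rw [sg, mul_div_cancel₀ _ hj]
  exact Fin.sum_univ_eq_sum_range (fun k => coeff (k + 1) e * sg e (j - k)) (j + 1)

theorem sg_rec (h0 : coeff 0 e = 0) (j : ℕ) :
    (j : ℝ) * sg e j = ∑ p ∈ antidiagonal j, coeff p.1 e * sg e p.2 := by
  cases j with
  | zero => simp [h0]
  | succ j =>
    rw [Nat.sum_antidiagonal_succ, h0, zero_mul, zero_add,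
      Nat.sum_antidiagonal_eq_sum_range_succ_mk, Nat.cast_succ, l1_succ]

theorem l1_hockey (N j : ℕ) : ∑ i ∈ range (j + 1), (N + i).choose i = (N + j + 1).choose j := by
  induction j with
  | zero => simp
  | succ j ih =>
    rw [sum_range_succ, ih, ← add_assoc, Nat.choose_succ_succ' (N + j + 1) j]

theorem l1_choose (N : ℕ) (r : ℝ) (hr : 0 ≤ r) (e : ℝ⟦X⟧)
    (he : ∀ k, |coeff k e| * r ^ k ≤ (N : ℝ) + 1) (j : ℕ) :
    |sg e j| * r ^ j ≤ ((N + j).choose j : ℝ) := by
  induction j using Nat.strong_induction_on with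
  | _ j ih =>
    cases j with
    | zero => simp [sg_zero]
    | succ j =>
      have h1 : ((j : ℝ) + 1) * (|sg e (j + 1)| * r ^ (j + 1)) ≤
          ∑ k ∈ range (j + 1), ((N : ℝ) + 1) * ((N + (j - k)).choose (j - k) : ℝ) := by
        have h2 : ((j : ℝ) + 1) * (|sg e (j + 1)| * r ^ (j + 1)) =
            |∑ k ∈ range (j + 1), coeff (k + 1) e * sg e (j - k)| * r ^ (j + 1) := by
          rw [← l1_succ, abs_mul, abs_of_nonneg (by positivity : (0 : ℝ) ≤ (j : ℝ) + 1)]
          ring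
        rw [h2]
        refine (mul_le_mul_of_nonneg_right (abs_sum_le_sum_abs _ _) (by positivity)).trans ?_
        rw [sum_mul]
        refine sum_le_sum (fun k hk => ?_)
        have hk1 := mem_range.mp hk
        have h3 : r ^ (j + 1) = r ^ (k + 1) * r ^ (j - k) := by
          rw [← pow_add]
          congr 1
          omega
        rw [abs_mul, h3]
        have h4 := ih (j - k) (by omega)
        have h5 := he (k + 1)
        calc |coeff (k + 1) e| * |sg e (j - k)| * (r ^ (k + 1) * r ^ (j - k))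
            = (|coeff (k + 1) e| * r ^ (k + 1)) * (|sg e (j - k)| * r ^ (j - k)) := by ring
          _ ≤ ((N : ℝ) + 1) * ((N + (j - k)).choose (j - k) : ℝ) :=
            mul_le_mul h5 h4 (by positivity) (by positivity)
      have h6 : ∑ k ∈ range (j + 1), ((N : ℝ) + 1) * ((N + (j - k)).choose (j - k) : ℝ) =
          ((N : ℝ) + 1) * ((N + j + 1).choose j : ℝ) := by
        rw [← mul_sum]
        congr 1
        rw [← l1_hockey, Nat.cast_sum]
        have h7 := sum_range_reflect (fun i => ((N + i).choose i : ℝ)) (j + 1)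
        rw [← h7]
        refine sum_congr rfl (fun k _ => ?_)
        simp only [Nat.add_sub_cancel]
      have h8 : ((N + (j + 1)).choose (j + 1) : ℝ) * ((j : ℝ) + 1) =
          ((N : ℝ) + 1) * ((N + j + 1).choose j : ℝ) := by
        have h9 := Nat.choose_succ_right_eq (N + j + 1) j
        have h10 : N + j + 1 - j = N + 1 := by omega
        rw [h10] at h9
        have h11 : N + (j + 1) = N + j + 1 := rfl
        rw [h11]
        exact_mod_cast h9.trans (mul_comm _ _)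
      have h12 : (0 : ℝ) < (j : ℝ) + 1 := by positivity
      rw [h6, ← h8] at h1
      nlinarith

theorem sg_bound (h : Hy n a e) (j : ℕ) : |sg e j| ≤ 2 ^ n * ((2 * rho a)⁻¹) ^ j := by
  have hρ := rho_pos h.a_pos
  obtain ⟨N, rfl⟩ : ∃ N, n = N + 1 := ⟨n - 1, by have := h.hn; omega⟩
  have h1 : ∀ k, |coeff k e| * (4 * rho a) ^ k ≤ (N : ℝ) + 1 := by
    intro k
    refine (h.hN.coeff_le (by positivity) k).trans ?_
    push_cast
    have : (0 : ℝ) ≤ (N : ℝ) + 1 := by positivity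
    linarith
  have h2 := l1_choose N (4 * rho a) (by positivity) e h1 j
  have h3 : ((N + j).choose j : ℝ) ≤ 2 ^ (N + 1) * 2 ^ j := by
    have h4 : (N + j).choose j ≤ 2 ^ (N + j) := Nat.choose_le_two_pow _ _
    have h5 : ((N + j).choose j : ℝ) ≤ 2 ^ (N + j) := by exact_mod_cast h4
    refine h5.trans ?_
    rw [← pow_add]
    exact pow_le_pow_right₀ (by norm_num) (by omega)
  have h6 : (4 * rho a) ^ j = 2 ^ j * (2 * rho a) ^ j := by
    rw [← mul_pow]
    congr 1
    ring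
  rw [h6] at h2
  have h7 : (0 : ℝ) < 2 ^ j := by positivity
  have h8 : |sg e j| * (2 * rho a) ^ j ≤ 2 ^ (N + 1) := by
    have h9 : 2 ^ j * (|sg e j| * (2 * rho a) ^ j) ≤ 2 ^ j * 2 ^ (N + 1) := by
      calc 2 ^ j * (|sg e j| * (2 * rho a) ^ j) = |sg e j| * (2 ^ j * (2 * rho a) ^ j) := by ring
        _ ≤ ((N + j).choose j : ℝ) := h2
        _ ≤ 2 ^ (N + 1) * 2 ^ j := h3
        _ = 2 ^ j * 2 ^ (N + 1) := mul_comm _ _
    exact le_of_mul_le_mul_left h9 h7
  rw [inv_pow, ← div_eq_mul_inv, le_div_iff₀ (by positivity)]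
  exact h8

theorem W_zero (a : ℝ) : W a 0 = 1 := by
  rw [W, range_zero, prod_empty]

theorem W_succ (a : ℝ) (i : ℕ) : W a (i + 1) = W a i * (a + i + 1)⁻¹ := by
  rw [W, W, prod_range_succ]

theorem W_pos (ha : 0 < a) (i : ℕ) : 0 < W a i := by
  rw [W]
  exact prod_pos fun l _ => by positivity

theorem W_add_le (ha : 0 < a) (j k : ℕ) : W a (j + k) ≤ ((a + k)⁻¹) ^ j * W a k := by
  induction j with
  | zero => rw [zero_add, pow_zero, one_mul]
  | succ j ih =>
    have h1 : j + 1 + k = j + k + 1 := by omega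
    rw [h1, W_succ, pow_succ]
    have h2 : (a + ((j + k : ℕ) : ℝ) + 1)⁻¹ ≤ (a + k)⁻¹ := by
      refine inv_anti₀ (by positivity) ?_
      push_cast
      have : (0 : ℝ) ≤ j := by positivity
      linarith
    calc W a (j + k) * (a + ((j + k : ℕ) : ℝ) + 1)⁻¹ ≤
        (((a + k)⁻¹) ^ j * W a k) * (a + k)⁻¹ :=
          mul_le_mul ih h2 (by positivity) (mul_nonneg (by positivity) (W_pos ha k).le)
      _ = ((a + k)⁻¹) ^ j * (a + k)⁻¹ * W a k := by ring

theorem W_le (ha : 0 < a) (k : ℕ) : W a k ≤ (a⁻¹) ^ k := by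
  have h1 := W_add_le ha k 0
  rw [add_zero, Nat.cast_zero, add_zero, W_zero, mul_one] at h1
  exact h1

end H95L
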