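import Pool.Agent.Lib.H95L.C2
import Pool.Agent.Lib.H95L.L1

/-!
# Chunk H2: products of the polynomials `K_m`

* `pv_const`, `ev_const`: induction on the multiset (`Multiset.induction_on`), `KR_const`,
  `coeff_zero_AA`.
* `D_pv`: `D (K p) = (D K) p + K D p`, `D K = et K * K = AA m * K` (`D_eq_et_mul`).
* `coeff_pv`: `j p_j = ∑_{l+i=j} e_l p_i` (coefficient `j` of `D_pv`, `coeff_mul`, `coeff_D`), the
  same recursion as `sg_rec`, and `p_0 = 1 = sg e 0`: strong induction on `j`; the term `l = 0`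
  vanishes because `e_0 = 0`.
* `Nb_ev`: with `n = ν.sum`: every `m ∈ ν` satisfies `m ≤ n`, `2 (m (4ρ)) ≤ 8 n ρ ≤ 1/12`, so
  `Nb_AA` at `r = 4ρ`: `(2/3) m^2 (4ρ)`, sum `≤ (8/3) ρ ∑ m^2 ≤ (8/3) ρ n^2 ≤ n/36`
  (`∑ m^2 ≤ (∑ m)^2`). Induction on the multiset for `Nb (4ρ) (ev ν) (∑ (8/3) ρ m^2)`.
* `EE_nonneg`, `EE_le`: `∑ m (m-1)/2 ≤ n^2/2`.
-/

namespace H95L

open Finset PowerSeries

theorem pv_const (ν : Multiset ℕ) : constantCoeff (pv ν) = 1 := by
  unfold pv
  induction ν using Multiset.induction_on with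
  | empty => simp
  | cons m ν ih => rw [Multiset.map_cons, Multiset.prod_cons, map_mul, ih, KR_const, mul_one]

theorem ev_const (ν : Multiset ℕ) : coeff 0 (ev ν) = 0 := by
  unfold ev
  induction ν using Multiset.induction_on with
  | empty => simp
  | cons m ν ih =>
    rw [Multiset.map_cons, Multiset.sum_cons, map_add, ih, coeff_zero_AA, add_zero]

theorem D_pv (ν : Multiset ℕ) : D (pv ν) = ev ν * pv ν := by
  unfold pv ev
  induction ν using Multiset.induction_on with
  | empty => simp [D_one]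
  | cons m ν ih =>
    rw [Multiset.map_cons, Multiset.prod_cons, D_mul, ih, D_eq_et_mul (k3_ne m),
      Multiset.map_cons, Multiset.sum_cons, AA]
    ring

theorem coeff_pv (ν : Multiset ℕ) (j : ℕ) : coeff j (pv ν) = sg (ev ν) j := by
  induction j using Nat.strong_induction_on with
  | _ j ih =>
    rcases Nat.eq_zero_or_pos j with rfl | hj
    · rw [sg_zero, coeff_zero_eq_constantCoeff_apply, pv_const]
    · have h1 := congrArg (coeff j) (D_pv ν)
      rw [coeff_D, coeff_mul] at h1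
      have h2 := sg_rec (ev_const ν) j
      have h3 : ∑ p ∈ antidiagonal j, coeff p.1 (ev ν) * coeff p.2 (pv ν) =
          ∑ p ∈ antidiagonal j, coeff p.1 (ev ν) * sg (ev ν) p.2 := by
        refine Finset.sum_congr rfl fun p hp => ?_
        rcases Nat.eq_zero_or_pos p.1 with h4 | h4
        · rw [h4, ev_const, zero_mul, zero_mul]
        · have := mem_antidiagonal.1 hp
          rw [ih p.2 (by omega)]
      rw [h3, ← h2] at h1
      have hj' : (j : ℝ) ≠ 0 := by
        have : (0 : ℝ) < j := by exact_mod_cast hj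
        exact this.ne'
      exact mul_left_cancel₀ hj' h1

theorem h2_sq (n : ℕ) (ν : Multiset ℕ) (hm : ∀ m ∈ ν, m ≤ n) :
    (ν.map fun m : ℕ => (m : ℝ) ^ 2).sum ≤ n * (ν.sum : ℝ) := by
  induction ν using Multiset.induction_on with
  | empty => simp
  | cons m ν ih =>
    rw [Multiset.map_cons, Multiset.sum_cons, Multiset.sum_cons]
    have h1 := ih fun k hk => hm k (Multiset.mem_cons_of_mem hk)
    have h2 : (m : ℝ) ≤ n := by exact_mod_cast hm m (Multiset.mem_cons_self m ν)
    rw [Nat.cast_add]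
    have h3 : (0 : ℝ) ≤ m := Nat.cast_nonneg m
    nlinarith

theorem h2_Nb {n : ℕ} {r : ℝ} (hr : 0 ≤ r) (h : 2 * ((n : ℝ) * r) ≤ 1 / 12) (ν : Multiset ℕ)
    (hm : ∀ m ∈ ν, m ≤ n) :
    Nb r (ev ν) (2 / 3 * ((ν.map fun m : ℕ => (m : ℝ) ^ 2).sum * r)) := by
  unfold ev
  induction ν using Multiset.induction_on with
  | empty =>
    simp only [Multiset.map_zero, Multiset.sum_zero, zero_mul, mul_zero]
    exact Nb_zero r
  | cons m ν ih =>
    rw [Multiset.map_cons, Multiset.sum_cons, Multiset.map_cons, Multiset.sum_cons]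
    have h1 := ih fun k hk => hm k (Multiset.mem_cons_of_mem hk)
    have h2 : (m : ℝ) ≤ n := by exact_mod_cast hm m (Multiset.mem_cons_self m ν)
    have h3 := Nb_AA m r hr (by nlinarith)
    refine (h3.add h1 hr).mono (le_of_eq ?_)
    ring

theorem Nb_ev {n : ℕ} {a : ℝ} (hn : 1 ≤ n) (ha : 99 * (n : ℝ) ≤ a) (ν : Multiset ℕ)
    (hν : ν.sum = n) : Nb (4 * rho a) (ev ν) ((n : ℝ) / 36) := by
  have hn' : (1 : ℝ) ≤ n := by exact_mod_cast hn
  have ha' : 0 < a := by linarith
  have hr := rho_pos ha'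
  have h1 : (n : ℝ) * (4 * rho a) ≤ 1 / 24 := by
    rw [rho]
    have h2 : (n : ℝ) * (4 * (33 / (32 * a))) = (99 * n) / (24 * a) := by
      field_simp
      ring
    rw [h2, div_le_div_iff₀ (by positivity) (by norm_num)]
    linarith
  have hm : ∀ m ∈ ν, m ≤ n := fun m hm => hν ▸ Multiset.le_sum_of_mem hm
  have h2 := h2_Nb (n := n) (r := 4 * rho a) (by positivity) (by linarith) ν hm
  refine h2.mono ?_
  have h3 := h2_sq n ν hm
  rw [hν] at h3
  have h4 : (ν.map fun m : ℕ => (m : ℝ) ^ 2).sum * (4 * rho a) ≤ (n * n) * (4 * rho a) :=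
    mul_le_mul_of_nonneg_right h3 (by positivity)
  nlinarith

theorem EE_nonneg (ν : Multiset ℕ) : 0 ≤ EE ν := by
  unfold EE
  induction ν using Multiset.induction_on with
  | empty => simp
  | cons m ν ih =>
    rw [Multiset.map_cons, Multiset.sum_cons]
    have h1 : (0 : ℝ) ≤ (m : ℝ) * (m - 1) / 2 := by
      rcases Nat.eq_zero_or_pos m with rfl | hm
      · simp
      · have : (1 : ℝ) ≤ m := by exact_mod_cast hm
        have h2 : (0 : ℝ) ≤ (m : ℝ) - 1 := by linarith
        positivity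
    linarith

theorem EE_le (ν : Multiset ℕ) : EE ν ≤ (ν.sum : ℝ) ^ 2 / 2 := by
  unfold EE
  induction ν using Multiset.induction_on with
  | empty => simp
  | cons m ν ih =>
    rw [Multiset.map_cons, Multiset.sum_cons, Multiset.sum_cons]
    rw [Nat.cast_add]
    have h1 : (0 : ℝ) ≤ m := Nat.cast_nonneg m
    have h2 : (0 : ℝ) ≤ (ν.sum : ℕ) := Nat.cast_nonneg _
    nlinarith [mul_nonneg h1 h2]

end H95L
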