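import Pool.Agent.Lib.H95L.Defs

/-!
# Chunk K1: the partition recursion for the real series

* `KN_succ`: the equation of `KN` with `Fin.sum_univ_eq_sum_range` (the summand at `i` uses only
  `(i : ℕ)`).
* `KR_zero`: `KN 0 = 1`, `Polynomial.coeff_one`, `PowerSeries.coeff_one`.
* `KR_succ`: coefficient `k` of `KN_succ`: `Polynomial.finset_sum_coeff`,
  `Polynomial.coeff_smul`, `Polynomial.coeff_X_pow_mul'`, against `PowerSeries.coeff_X_pow_mul'`,
  casts. (Or: the map `p ↦ mk (fun k => (p.coeff k : ℝ))` is the ring homomorphism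
  `Polynomial.coeToPowerSeries.ringHom.comp (Polynomial.mapRingHom (Nat.castRingHom ℝ))`.)
* `KR_const`: strong induction, in `KR_succ` only the term `i = 0` has a constant coefficient.
-/

namespace H95L

open Finset PowerSeries

theorem KN_succ (m : ℕ) : KN (m + 1) =
    ∑ i ∈ range (m + 1), (m.choose i) • (Polynomial.X ^ i * KN (m - i)) := by
  rw [KN]
  exact Fin.sum_univ_eq_sum_range (fun i => (m.choose i) • (Polynomial.X ^ i * KN (m - i))) (m + 1)

/-- the ring homomorphism `ℕ[X] → ℝ⟦X⟧` -/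
noncomputable def k1_hom : Polynomial ℕ →+* ℝ⟦X⟧ :=
  Polynomial.coeToPowerSeries.ringHom.comp (Polynomial.mapRingHom (Nat.castRingHom ℝ))

theorem k1_hom_eq (m : ℕ) : KR m = k1_hom (KN m) := by
  ext k
  simp [KR, k1_hom]

theorem KR_zero : KR 0 = 1 := by
  rw [k1_hom_eq, KN, map_one]

theorem KR_succ (m : ℕ) : KR (m + 1) =
    ∑ i ∈ range (m + 1), (m.choose i : ℝ) • (X ^ i * KR (m - i)) := by
  rw [k1_hom_eq, KN_succ, map_sum]
  refine Finset.sum_congr rfl fun i _ => ?_
  have hX : k1_hom Polynomial.X = X := by simp [k1_hom]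
  rw [map_nsmul, map_mul, map_pow, hX, k1_hom_eq, Nat.cast_smul_eq_nsmul]

theorem KR_const (m : ℕ) : constantCoeff (KR m) = 1 := by
  induction m using Nat.strong_induction_on with
  | _ m ih =>
    rcases m with _ | m
    · rw [KR_zero, map_one]
    · rw [KR_succ, map_sum, Finset.sum_range_succ']
      have h1 : ∀ i ∈ range m, constantCoeff ((m.choose (i + 1) : ℝ) • (X ^ (i + 1) * KR (m - (i + 1)) : ℝ⟦X⟧)) = 0 := by
        intro i _
        rw [smul_eq_C_mul, map_mul, map_mul, map_pow, constantCoeff_X]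
        simp
      rw [Finset.sum_eq_zero h1]
      simp [ih m (by omega)]

end H95L
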