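import Pool.Agent.Lib.H95L.G0
import Pool.Agent.Lib.H95L.K1
import Pool.Agent.Lib.H95L.H2

/-!
# Chunk G7: the number of colourings in terms of `Y`

* `natDegree_KN`: `(KN m).natDegree ≤ m` (strong induction, `KN_succ`), so
  `((ν.map KN).prod).natDegree ≤ ν.sum`.
* `coeff_prod_KN`: `coeff j (pv ν) = (((ν.map KN).prod).coeff j : ℝ)`: the map
  `p ↦ mk (fun k => (p.coeff k : ℝ))` is a ring homomorphism `ℕ[X] →+* ℝ⟦X⟧`
  (`Polynomial.coeToPowerSeries.ringHom.comp (Polynomial.mapRingHom (Nat.castRingHom ℝ))`), and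
  `Multiset.map`/`map_multiset_prod`.
* `desc_eq`: for `i ≤ n ≤ q`: `(q.descFactorial (n-i) : ℝ) = q.descFactorial n * W (q-n) i`:
  induction on `i`: `q.descFactorial (n-i) = (q - (n-i-1)) q.descFactorial (n-i-1)`
  (`Nat.descFactorial_succ`) and `q - (n-i-1) = (q - n) + i + 1`, `W_succ`.
* `Pq_Prof`: `H5CP.card_coloring`, `H5CP.F` (sum over `i < n + 1`), `Fintype.card (Fin q) = q`; the
  sum equals `(q)_n ∑_{i ≤ n} p_i W_i`, and `Y = ∑' j, sg (ev ν) j * W a (j + 0)` has the same terms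
  (`coeff_pv`) and vanishing terms for `j > n` (degree): `tsum_eq_sum`.
* `ncard_Prof`: `H5CP.e2_compl` and `Prof.edges`.
-/

namespace H95L

open Finset

variable {V : Type*} [Fintype V] [DecidableEq V] {G : SimpleGraph V} {q n : ℕ} {ν : Multiset ℕ}

theorem desc_eq {q n i : ℕ} (hi : i ≤ n) (hn : n ≤ q) :
    (q.descFactorial (n - i) : ℝ) = (q.descFactorial n : ℝ) * W ((q : ℝ) - n) i := by
  induction i with
  | zero => simp [W]
  | succ i ih =>
    have h1 := ih (by omega)
    obtain ⟨k, hk⟩ : ∃ k, n = k + (i + 1) := ⟨n - (i + 1), by omega⟩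
    have e1 : n - i = k + 1 := by omega
    have e2 : n - (i + 1) = k := by omega
    have hW : W ((q : ℝ) - n) (i + 1) = W ((q : ℝ) - n) i * ((q : ℝ) - n + i + 1)⁻¹ := by
      unfold W
      rw [Finset.prod_range_succ]
    rw [e1, Nat.descFactorial_succ] at h1
    have hkq : k ≤ q := by omega
    have hpos : ((q : ℝ) - n + i + 1) ≠ 0 := by
      have h3 : (n : ℝ) ≤ q := by exact_mod_cast hn
      have h4 : (0 : ℝ) ≤ i := Nat.cast_nonneg i
      have h5 : 0 < (q : ℝ) - n + i + 1 := by linarith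
      exact h5.ne'
    rw [e2, hW, ← mul_assoc, ← h1]
    push_cast [Nat.cast_sub hkq]
    have e3 : (q : ℝ) - k = (q : ℝ) - n + i + 1 := by
      rw [hk]
      push_cast
      ring
    rw [e3]
    field_simp

theorem coeff_prod_KN (ν : Multiset ℕ) (j : ℕ) :
    PowerSeries.coeff j (pv ν) = (((ν.map KN).prod).coeff j : ℝ) := by
  have h1 : pv ν = k1_hom ((ν.map KN).prod) := by
    unfold pv
    rw [map_multiset_prod, Multiset.map_map]
    congr 1
    refine Multiset.map_congr rfl fun m _ => ?_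
    exact k1_hom_eq m
  rw [h1]
  simp [k1_hom]

theorem Pq_Prof (hV : Fintype.card V = n) (hn : n ≤ q) (hG : Prof G ν) :
    Pq q G = (q.descFactorial n : ℝ) * Y ((q : ℝ) - n) (ev ν) 0 := by
  have hdeg : ((ν.map KN).prod).natDegree ≤ n := by
    rw [← hG.poly]
    exact H5CP.natDegree_P Gᶜ n univ (by rw [card_univ, hV])
  have hz : ∀ j ∉ range (n + 1), sg (ev ν) j * W ((q : ℝ) - n) (j + 0) = 0 := by
    intro j hj
    rw [mem_range] at hj
    rw [← coeff_pv, coeff_prod_KN, Polynomial.coeff_eq_zero_of_natDegree_lt (by omega)]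
    simp
  unfold Pq Y
  rw [tsum_eq_sum hz, H5CP.card_coloring (κ := Fin q), Fintype.card_fin, hV, hG.poly]
  unfold H5CP.F
  push_cast
  rw [mul_sum]
  refine sum_congr rfl fun j hj => ?_
  rw [mem_range] at hj
  rw [← coeff_pv, coeff_prod_KN, desc_eq (by omega) hn, add_zero]
  ring

theorem ncard_Prof (hV : Fintype.card V = n) (hG : Prof G ν) :
    (G.edgeSet.ncard : ℝ) = (n : ℝ) * (n - 1) / 2 - EE ν := by
  have h1 := H5CP.e2_compl G
  rw [hV] at h1
  have h2 : (H5CP.e2 Gᶜ univ : ℝ) + 2 * (G.edgeSet.ncard : ℝ) = (n : ℝ) * ((n : ℝ) - 1) := by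
    rcases Nat.eq_zero_or_pos n with h | h
    · rw [h] at h1 ⊢
      simp only [zero_mul, Nat.cast_zero] at h1 ⊢
      exact_mod_cast h1
    · have h3 := congrArg (fun t : ℕ => (t : ℝ)) h1
      push_cast [Nat.cast_sub h] at h3
      exact h3
  rw [hG.edges] at h2
  linarith

end H95L
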