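import Pool.Agent.Lib.H95L.H4
import Pool.Agent.Lib.H95L.G4
import Pool.Agent.Lib.H95L.G6
import Pool.Agent.Lib.H95L.G7

/-!
# Chunk G8: the Turan graph is a maximiser

Take `T`, `s` from `turan_Prof`, `a = q - n ≥ 99 n` (real numbers), `lam = Ex a (ev T) (J (gT s)) ≥ 0`
(`lam_nonneg`), `x = exp lam ≥ 1`.
(1) For every `G`, `ν` with `Prof G ν`: `wt q x G = (q)_n Y^ν exp (lam (n(n-1)/2 - EE ν))`
(`Pq_Prof`, `ncard_Prof`, `x ^ e = exp (lam e)`), which is positive (`Y_ev_pos`, `(q)_n > 0`), and by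
`hull` (`T.sum = ν.sum = n`): `log (wt G) - log (wt T) ≤ -(1/5) ΔE^2 ρ^3 - (1/4) Ω ρ^2 ≤ 0`.
(2) `exists_Mp`, `exists_Prof`: a maximiser `G*` with a profile; `wt G* ≤ wt T`, so `T` is `Mx`.
(3) If `Mp G` and `wt G = wt T`: `exists_Prof`, and by (1) `ΔE = 0` and `Ω = Om s ν = 0`. So
`m om s m = 0` for all `m ∈ ν` (nonnegative terms, sum `0`), `m ≠ 0`, hence
`(m - s)(m - s + 1) = 0`: `m = s` or `m = s - 1`. `ng G v ∈ ν`. The edge numbers agree
(`ncard_Prof`). Finally `∑_{m ∈ ν} (m^2 - (2s-1) m + s (s-1)) = 0` for `ν` and for `T`, and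
`∑ m = n`, `∑ m^2 = 2 EE + n` agree, so `s (s-1) card ν = s (s-1) card T` and
`card ν = card T ≤ r`; `SimpleGraph.Colorable.mono`.
-/

namespace H95L

open Finset

/-- the weight in terms of the profile -/
theorem g8_wt {n q : ℕ} (hq : n ≤ q) {G : SimpleGraph (Fin n)} {ν : Multiset ℕ} (hG : Prof G ν)
    (lam : ℝ) : wt q (Real.exp lam) G = (q.descFactorial n : ℝ) * Y ((q : ℝ) - n) (ev ν) 0 *
      Real.exp (lam * ((n : ℝ) * (n - 1) / 2 - EE ν)) := by
  unfold wt
  rw [Pq_Prof (Fintype.card_fin n) hq hG, ← ncard_Prof (Fintype.card_fin n) hG, ← Real.exp_nat_mul,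
    mul_comm lam]

theorem g8_sum {s : ℕ} (hs : 2 ≤ s) (ν : Multiset ℕ) :
    (∀ m ∈ ν, m = s - 1 ∨ m = s) →
    (s : ℝ) * ((s : ℝ) - 1) * (Multiset.card ν : ℝ) =
      (2 * (s : ℝ) - 1) * (ν.sum : ℝ) - (2 * EE ν + (ν.sum : ℝ)) := by
  induction ν using Multiset.induction_on with
  | empty => intro _; simp [EE]
  | cons m ν ih =>
    intro h
    have h1 := ih (fun k hk => h k (Multiset.mem_cons_of_mem hk))
    have h2 := h m (Multiset.mem_cons_self m ν)
    have hE : EE (m ::ₘ ν) = (m : ℝ) * (m - 1) / 2 + EE ν := by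
      unfold EE
      rw [Multiset.map_cons, Multiset.sum_cons]
    rw [hE, Multiset.sum_cons, Multiset.card_cons, Nat.cast_add, Nat.cast_add, Nat.cast_one]
    rcases h2 with h2 | h2
    · have h3 : (m : ℝ) = (s : ℝ) - 1 := by
        rw [h2, Nat.cast_sub (by omega)]
        simp
      rw [h3]
      linarith
    · rw [h2]
      linarith

theorem g8_Om {s : ℕ} (ν : Multiset ℕ) (h0 : 0 ∉ ν) (h : Om s ν = 0) :
    ∀ m ∈ ν, m = s - 1 ∨ m = s := by
  intro m hm
  have hnn : ∀ k : ℕ, 0 ≤ (k : ℝ) * om s k := by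
    intro k
    refine mul_nonneg (Nat.cast_nonneg k) ?_
    unfold om
    rcases le_or_gt s k with h1 | h1
    · have h2 : (s : ℝ) ≤ k := by exact_mod_cast h1
      have h3 : 0 ≤ (k : ℝ) - s := by linarith
      positivity
    · have h2 : (k : ℝ) + 1 ≤ s := by exact_mod_cast h1
      have h3 : (k : ℝ) - s ≤ 0 := by linarith
      have h4 : (k : ℝ) - s + 1 ≤ 0 := by linarith
      have h5 := mul_nonneg_of_nonpos_of_nonpos h3 h4
      linarith
  have h1 : (m : ℝ) * om s m ≤ Om s ν := by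
    unfold Om
    apply Multiset.single_le_sum
    · intro y hy
      rw [Multiset.mem_map] at hy
      obtain ⟨k, -, rfl⟩ := hy
      exact hnn k
    · exact Multiset.mem_map_of_mem _ hm
  have h2 : (m : ℝ) * om s m = 0 := le_antisymm (by rw [← h]; exact h1) (hnn m)
  have hm0 : (m : ℝ) ≠ 0 := by
    intro hc
    have : m = 0 := by exact_mod_cast hc
    rw [this] at hm
    exact h0 hm
  have h3 : om s m = 0 := by
    rcases mul_eq_zero.1 h2 with h4 | h4
    · exact absurd h4 hm0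
    · exact h4
  unfold om at h3
  have h4 : ((m : ℝ) - s) * ((m : ℝ) - s + 1) = 0 := by linarith
  rcases mul_eq_zero.1 h4 with h5 | h5
  · right
    have h6 : (m : ℝ) = s := by linarith
    exact_mod_cast h6
  · left
    have h6 : (m : ℝ) + 1 = s := by linarith
    have h7 : m + 1 = s := by exact_mod_cast h6
    omega

theorem turan_Mx {n r q : ℕ} (hn : 2 ≤ n) (hr : 0 < r) (hq : 100 * n ≤ q) :
    ∃ (x : ℝ) (s : ℕ), 1 ≤ x ∧ 2 ≤ s ∧ 0 < wt q x (SimpleGraph.turanGraph n r) ∧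
      Mx q x (SimpleGraph.turanGraph n r) ∧
      ∀ G : SimpleGraph (Fin n), Mp G → wt q x G = wt q x (SimpleGraph.turanGraph n r) →
        (∀ v, ng G v = s - 1 ∨ ng G v = s) ∧
        G.edgeSet.ncard = (SimpleGraph.turanGraph n r).edgeSet.ncard ∧ G.Colorable r := by
  obtain ⟨T, s, hT, hs, hsn, hTm, hTr⟩ := turan_Prof hn hr
  have hn1 : 1 ≤ n := by omega
  have hnq : n ≤ q := by omega
  have hq' : 100 * (n : ℝ) ≤ q := by exact_mod_cast hq
  have ha : 99 * (n : ℝ) ≤ (q : ℝ) - n := by linarith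
  have hnpos : (0 : ℝ) < n := by exact_mod_cast hn1
  set a : ℝ := (q : ℝ) - n with hadef
  have hapos : 0 < a := by linarith
  have hrho : 0 < rho a := by
    unfold rho
    positivity
  have hTsum : T.sum = n := by
    rw [hT.sum, Fintype.card_fin]
  set lam : ℝ := Ex a (ev T) (J (gT s)) with hlam
  have hlam0 : 0 ≤ lam := lam_nonneg hn1 ha hs hsn T hTsum
  have hDpos : (0 : ℝ) < (q.descFactorial n : ℝ) := by
    exact_mod_cast Nat.descFactorial_pos.2 hnq
  have hYT : 0 < Y a (ev T) 0 := Y_ev_pos hn1 ha T hTsum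
  have hwT : 0 < wt q (Real.exp lam) (SimpleGraph.turanGraph n r) := by
    rw [g8_wt hnq hT lam]
    exact mul_pos (mul_pos hDpos hYT) (Real.exp_pos _)
  have key : ∀ (G : SimpleGraph (Fin n)) (ν : Multiset ℕ), Prof G ν →
      wt q (Real.exp lam) G ≤ wt q (Real.exp lam) (SimpleGraph.turanGraph n r) *
        Real.exp (-(1 / 5 * (EE ν - EE T) ^ 2 * rho a ^ 3 + 1 / 4 * (Om s ν * rho a ^ 2))) := by
    intro G ν hG
    have hνsum : ν.sum = n := by
      rw [hG.sum, Fintype.card_fin]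
    have hYν : 0 < Y a (ev ν) 0 := Y_ev_pos hn1 ha ν hνsum
    have h1 := hull hn1 ha hs hsn T ν hTsum hνsum (fun m hm => Or.inr (hTm m hm))
    rw [← hlam] at h1
    have h2 : Y a (ev ν) 0 ≤ Y a (ev T) 0 * Real.exp (lam * (EE ν - EE T)
        - 1 / 5 * (EE ν - EE T) ^ 2 * rho a ^ 3 - 1 / 4 * (Om s ν * rho a ^ 2)) := by
      have h3 := Real.exp_le_exp.2 h1
      rw [Real.exp_log hYν] at h3
      refine h3.trans (le_of_eq ?_)
      conv_rhs => rw [← Real.exp_log hYT]
      rw [← Real.exp_add]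
      congr 1
      ring
    rw [g8_wt hnq hG lam, g8_wt hnq hT lam]
    calc (q.descFactorial n : ℝ) * Y a (ev ν) 0 * Real.exp (lam * ((n : ℝ) * (n - 1) / 2 - EE ν))
        ≤ (q.descFactorial n : ℝ) * (Y a (ev T) 0 * Real.exp (lam * (EE ν - EE T)
          - 1 / 5 * (EE ν - EE T) ^ 2 * rho a ^ 3 - 1 / 4 * (Om s ν * rho a ^ 2))) *
          Real.exp (lam * ((n : ℝ) * (n - 1) / 2 - EE ν)) := by
          gcongr
      _ = (q.descFactorial n : ℝ) * Y a (ev T) 0 * (Real.exp (lam * (EE ν - EE T)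
          - 1 / 5 * (EE ν - EE T) ^ 2 * rho a ^ 3 - 1 / 4 * (Om s ν * rho a ^ 2)) *
          Real.exp (lam * ((n : ℝ) * (n - 1) / 2 - EE ν))) := by ring
      _ = (q.descFactorial n : ℝ) * Y a (ev T) 0 *
          (Real.exp (lam * ((n : ℝ) * (n - 1) / 2 - EE T)) *
          Real.exp (-(1 / 5 * (EE ν - EE T) ^ 2 * rho a ^ 3 +
            1 / 4 * (Om s ν * rho a ^ 2)))) := by
          rw [← Real.exp_add, ← Real.exp_add]
          congr 2
          ring
      _ = _ := by ring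
  have hδ : ∀ ν : Multiset ℕ, 0 ≤ 1 / 5 * (EE ν - EE T) ^ 2 * rho a ^ 3 +
      1 / 4 * (Om s ν * rho a ^ 2) := by
    intro ν
    have h1 := Om_nonneg s ν
    positivity
  refine ⟨Real.exp lam, s, Real.one_le_exp hlam0, hs, hwT, ?_, ?_⟩
  · obtain ⟨G, hG1, hG2⟩ := exists_Mp (Fin n) q (Real.exp_pos lam)
    obtain ⟨ν, hν, -, -⟩ := exists_Prof hG2
    intro G'
    refine (hG1 G').trans ((key G ν hν).trans ?_)
    have h1 : Real.exp (-(1 / 5 * (EE ν - EE T) ^ 2 * rho a ^ 3 +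
        1 / 4 * (Om s ν * rho a ^ 2))) ≤ 1 := by
      rw [Real.exp_le_one_iff]
      linarith [hδ ν]
    exact mul_le_of_le_one_right hwT.le h1
  · intro G hG hw
    obtain ⟨ν, hν, hng, hcol⟩ := exists_Prof hG
    have h1 := key G ν hν
    rw [hw] at h1
    have h2 : 1 ≤ Real.exp (-(1 / 5 * (EE ν - EE T) ^ 2 * rho a ^ 3 +
        1 / 4 * (Om s ν * rho a ^ 2))) := by
      by_contra hc
      push Not at hc
      have h3 := mul_lt_mul_of_pos_left hc hwT
      rw [mul_one] at h3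
      linarith
    rw [Real.one_le_exp_iff] at h2
    have hOm := Om_nonneg s ν
    have h3 : 0 ≤ 1 / 5 * (EE ν - EE T) ^ 2 * rho a ^ 3 := by positivity
    have h4 : 0 ≤ 1 / 4 * (Om s ν * rho a ^ 2) := by positivity
    have h5 : 1 / 5 * (EE ν - EE T) ^ 2 * rho a ^ 3 = 0 := by linarith
    have h6 : 1 / 4 * (Om s ν * rho a ^ 2) = 0 := by linarith
    have hEE : EE ν = EE T := by
      have h7 : (EE ν - EE T) ^ 2 = 0 := by
        by_contra hc
        have h8 : 0 < (EE ν - EE T) ^ 2 := lt_of_le_of_ne (sq_nonneg _) (Ne.symm hc)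
        have h9 : 0 < 1 / 5 * (EE ν - EE T) ^ 2 * rho a ^ 3 := by positivity
        linarith
      have h8 : EE ν - EE T = 0 := by
        rwa [sq_eq_zero_iff] at h7
      linarith
    have hOm0 : Om s ν = 0 := by
      by_contra hc
      have h8 : 0 < Om s ν := lt_of_le_of_ne hOm (Ne.symm hc)
      have h9 : 0 < 1 / 4 * (Om s ν * rho a ^ 2) := by positivity
      linarith
    have hm := g8_Om ν hν.pos hOm0
    have hνsum : ν.sum = n := by
      rw [hν.sum, Fintype.card_fin]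
    refine ⟨fun v => hm _ (hng v), ?_, ?_⟩
    · have e1 := ncard_Prof (Fintype.card_fin n) hν
      have e2 := ncard_Prof (Fintype.card_fin n) hT
      rw [hEE, ← e2] at e1
      exact_mod_cast e1
    · have e1 := g8_sum hs ν hm
      have e2 := g8_sum hs T hTm
      rw [hEE, hνsum] at e1
      rw [hTsum] at e2
      rw [← e2] at e1
      have hs2 : (2 : ℝ) ≤ s := by exact_mod_cast hs
      have hne : (s : ℝ) * ((s : ℝ) - 1) ≠ 0 := by
        have : 0 < (s : ℝ) * ((s : ℝ) - 1) := mul_pos (by linarith) (by linarith)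
        exact this.ne'
      have e3 := mul_left_cancel₀ hne e1
      have e4 : Multiset.card ν = Multiset.card T := by exact_mod_cast e3
      exact hcol.mono (by rw [e4]; exact hTr)

end H95L
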