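import Pool.Agent.Lib.H95L.S2

/-!
# Chunk S3: the Euler operator, its inverse and logarithmic derivatives

Everything is coefficientwise: `coeff_mk`, `coeff_mul`, `map_add`, ...

* `D_mul`: coefficient `k`: `k = i + j` on the antidiagonal.
* `Nb_D`: `|k f_k| ρ^k ≤ (1/2) |f_k| (2ρ)^k` because `2 k ≤ 2^k` for `k ≥ 1` and the term `k = 0`
  vanishes (`k = 1`: equality, `k ≥ 2`: `Nat.lt_two_pow_self` type induction).
* `Nb_D4`: `|k f_k| ρ^k ≤ (1/4) |f_k| (4ρ)^k`: `4 k ≤ 4^k` for `k ≥ 1`.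
* `Nb4`: if `f_0 = 0` then `|f_k| ρ^k ≤ (1/4) |f_k| (4ρ)^k`.
* `Nb_J`: `|f_k / k| ≤ |f_k|`.
* `et_mul`: `D(fg)/(fg) = Df/f + Dg/g`, from `D_mul` and `f f⁻¹ = 1` (`PowerSeries.mul_inv_rev`,
  `PowerSeries.mul_inv_cancel`).
* `et_inv`: from `et_mul` with `f f⁻¹ = 1`, `et_one`.
* `D_eq_et_mul`: `D f = et f * f`.
-/

namespace H95L

open Finset PowerSeries

variable {ρ C C' δ : ℝ} {f g : ℝ⟦X⟧}

theorem coeff_D (f : ℝ⟦X⟧) (k : ℕ) : coeff k (D f) = (k : ℝ) * coeff k f := by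
  rw [D, coeff_mk]

theorem coeff_J (f : ℝ⟦X⟧) (k : ℕ) : coeff k (J f) = coeff k f / (k : ℝ) := by
  rw [J, coeff_mk]

theorem coeff_zero_D (f : ℝ⟦X⟧) : coeff 0 (D f) = 0 := by
  rw [coeff_D]; simp

theorem coeff_zero_J (f : ℝ⟦X⟧) : coeff 0 (J f) = 0 := by
  rw [coeff_J]; simp

theorem D_add (f g : ℝ⟦X⟧) : D (f + g) = D f + D g := by
  ext k
  rw [map_add, coeff_D, coeff_D, coeff_D, map_add]
  ring

theorem D_sub (f g : ℝ⟦X⟧) : D (f - g) = D f - D g := by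
  ext k
  rw [map_sub, coeff_D, coeff_D, coeff_D, map_sub]
  ring

theorem D_smul (c : ℝ) (f : ℝ⟦X⟧) : D (c • f) = c • D f := by
  ext k
  rw [coeff_D, coeff_smul, coeff_smul, coeff_D, smul_eq_mul, smul_eq_mul]
  ring

theorem D_one : D (1 : ℝ⟦X⟧) = 0 := by
  ext k
  rw [coeff_D, coeff_one, map_zero]
  split_ifs with h
  · rw [h]; simp
  · simp

theorem D_X : D (X : ℝ⟦X⟧) = X := by
  ext k
  rw [coeff_D, coeff_X]
  split_ifs with h
  · rw [h]; simp
  · simp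

theorem D_X_sq : D (X ^ 2 : ℝ⟦X⟧) = (2 : ℝ) • X ^ 2 := by
  ext k
  rw [coeff_D, coeff_smul, coeff_X_pow, smul_eq_mul]
  split_ifs with h
  · rw [h]; norm_num
  · simp

theorem D_mul (f g : ℝ⟦X⟧) : D (f * g) = D f * g + f * D g := by
  ext k
  rw [coeff_D, map_add, coeff_mul, coeff_mul, coeff_mul, ← sum_add_distrib, mul_sum]
  refine sum_congr rfl (fun p hp => ?_)
  rw [HasAntidiagonal.mem_antidiagonal] at hp
  rw [coeff_D, coeff_D, ← hp]
  push_cast
  ring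

theorem J_add (f g : ℝ⟦X⟧) : J (f + g) = J f + J g := by
  ext k
  rw [map_add, coeff_J, coeff_J, coeff_J, map_add]
  ring

theorem J_sub (f g : ℝ⟦X⟧) : J (f - g) = J f - J g := by
  ext k
  rw [map_sub, coeff_J, coeff_J, coeff_J, map_sub]
  ring

theorem J_smul (c : ℝ) (f : ℝ⟦X⟧) : J (c • f) = c • J f := by
  ext k
  rw [coeff_J, coeff_smul, coeff_smul, coeff_J, smul_eq_mul, smul_eq_mul]
  ring

theorem J_X : J (X : ℝ⟦X⟧) = X := by
  ext k
  rw [coeff_J, coeff_X]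
  split_ifs with h
  · rw [h]; simp
  · simp

theorem J_X_sq : J (X ^ 2 : ℝ⟦X⟧) = (2 : ℝ)⁻¹ • X ^ 2 := by
  ext k
  rw [coeff_J, coeff_smul, coeff_X_pow, smul_eq_mul]
  split_ifs with h
  · rw [h]; norm_num
  · simp

theorem D_J (h : coeff 0 f = 0) : D (J f) = f := by
  ext k
  rw [coeff_D, coeff_J]
  rcases Nat.eq_zero_or_pos k with rfl | hk
  · rw [h]; simp
  · field_simp

theorem s3_two (k : ℕ) : 2 * k ≤ 2 ^ k := by
  induction k with
  | zero => simp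
  | succ k ih =>
    rw [pow_succ]
    rcases Nat.eq_zero_or_pos k with rfl | hk
    · norm_num
    · omega

theorem s3_four (k : ℕ) : 4 * k ≤ 4 ^ k := by
  induction k with
  | zero => simp
  | succ k ih =>
    rw [pow_succ]
    rcases Nat.eq_zero_or_pos k with rfl | hk
    · norm_num
    · omega

theorem Nb_D (h : Nb (2 * ρ) f C) (h0 : 0 ≤ ρ) : Nb ρ (D f) (C / 2) := by
  intro K
  rw [le_div_iff₀ (by norm_num)]
  refine le_trans ?_ (h K)
  rw [sum_mul]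
  refine sum_le_sum (fun k _ => ?_)
  rw [coeff_D, abs_mul, Nat.abs_cast, mul_pow]
  have h2 : (2 * k : ℝ) ≤ 2 ^ k := by exact_mod_cast s3_two k
  have h3 : 0 ≤ |coeff k f| * ρ ^ k := by positivity
  nlinarith [mul_le_mul_of_nonneg_right h2 h3]

theorem Nb_D4 (h : Nb (4 * ρ) f C) (h0 : 0 ≤ ρ) : Nb ρ (D f) (C / 4) := by
  intro K
  rw [le_div_iff₀ (by norm_num)]
  refine le_trans ?_ (h K)
  rw [sum_mul]
  refine sum_le_sum (fun k _ => ?_)
  rw [coeff_D, abs_mul, Nat.abs_cast, mul_pow]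
  have h2 : (4 * k : ℝ) ≤ 4 ^ k := by exact_mod_cast s3_four k
  have h3 : 0 ≤ |coeff k f| * ρ ^ k := by positivity
  nlinarith [mul_le_mul_of_nonneg_right h2 h3]

theorem Nb4 (h : Nb (4 * ρ) f C) (h0 : 0 ≤ ρ) (hf : coeff 0 f = 0) : Nb ρ f (C / 4) := by
  intro K
  rw [le_div_iff₀ (by norm_num)]
  refine le_trans ?_ (h K)
  rw [sum_mul]
  refine sum_le_sum (fun k _ => ?_)
  rcases Nat.eq_zero_or_pos k with rfl | hk
  · rw [hf]; simp
  · rw [mul_pow]
    have h2 : (4 : ℝ) ≤ 4 ^ k := by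
      have := pow_le_pow_right₀ (by norm_num : (1 : ℝ) ≤ 4) hk
      simpa using this
    have h3 : 0 ≤ |coeff k f| * ρ ^ k := by positivity
    nlinarith [mul_le_mul_of_nonneg_right h2 h3]

theorem Nb_J (h : Nb ρ f C) (h0 : 0 ≤ ρ) : Nb ρ (J f) C := by
  intro K
  refine le_trans (sum_le_sum (fun k _ => ?_)) (h K)
  rw [coeff_J]
  refine mul_le_mul_of_nonneg_right ?_ (pow_nonneg h0 _)
  rcases Nat.eq_zero_or_pos k with rfl | hk
  · simp
  · rw [abs_div, Nat.abs_cast]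
    refine div_le_self (abs_nonneg _) ?_
    exact_mod_cast hk

theorem et_one : et (1 : ℝ⟦X⟧) = 0 := by
  rw [et, D_one, zero_mul]

theorem et_mul (hf : constantCoeff f ≠ 0) (hg : constantCoeff g ≠ 0) :
    et (f * g) = et f + et g := by
  have h1 := PowerSeries.mul_inv_cancel f hf
  have h2 := PowerSeries.mul_inv_cancel g hg
  rw [et, et, et, D_mul, PowerSeries.mul_inv_rev]
  linear_combination (D f * f⁻¹) * h2 + (D g * g⁻¹) * h1

theorem et_inv (hf : constantCoeff f ≠ 0) : et f⁻¹ = -et f := by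
  have h1 := PowerSeries.mul_inv_cancel f hf
  have h2 : constantCoeff f⁻¹ ≠ 0 := by
    intro h
    have h3 := congrArg constantCoeff h1
    rw [map_mul, h, mul_zero, map_one] at h3
    exact zero_ne_one h3
  have h3 := et_mul hf h2
  rw [h1, et_one] at h3
  exact (neg_eq_of_add_eq_zero_right h3.symm).symm

theorem D_eq_et_mul (hf : constantCoeff f ≠ 0) : D f = et f * f := by
  have h1 := PowerSeries.mul_inv_cancel f hf
  rw [et]
  linear_combination (-D f) * h1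

theorem coeff_zero_et (f : ℝ⟦X⟧) : coeff 0 (et f) = 0 := by
  rw [et, coeff_zero_eq_constantCoeff_apply, map_mul, ← coeff_zero_eq_constantCoeff_apply,
    coeff_zero_D, zero_mul]

end H95L
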