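import Pool.Agent.Lib.H95L.L6
import Pool.Agent.Lib.H95L.S3

/-!
# Chunk M1: the functional `⟨f⟩ = ∑ f_k R_k`

`|f_k R_k| ≤ |f_k| ρ^k` (`R_le`, `R_pos`), so `Nb.summable` and `Nb.tsum_le` give the first two.
Linearity: `Summable.tsum_add`, `tsum_mul_left`. `Ex_X`, `Ex_X_sq`: `coeff_X`, `coeff_X_pow`,
`tsum_eq_single`. `Ex_eq`: `∑ f_k R_k = (∑ f_k Y_k)/Y_0`, `tsum_div_const`.
`Ex_abs_coeff`: `∑ |f_k| R_k ≤ (R_1/ρ) C` if `f_0 = 0`: `R_k ≤ ρ^{k-1} R_1` for `k ≥ 1`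
(`R_succ_le`).
`Ex_J_d2h` (the sign). Let `f = d2h j + (4/3) X^2`, `Nb ρ f ((70/3) j ρ^3)` and `j ρ ≤ 1/96`, so
`Nb ρ f (ρ^2/4)` (`70/288 < 1/4`). `J (d2h j) = J f - (4/3) J (X^2) = J f - (2/3) X^2`,
`⟨J f⟩ ≤ ρ^2/4` (`Nb_J`, `Ex_abs_le`), and `(2/3) R_2 ≥ (6/10) ρ^2`: so
`⟨J (d2h j)⟩ ≤ ρ^2/4 - 6/10 ρ^2 ≤ -(1/3) ρ^2`. (Here `f` is abstract: the chunk does not need C6.)
-/

namespace H95L

open Finset PowerSeries

variable {n : ℕ} {a C C' : ℝ} {e f g : ℝ⟦X⟧}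

theorem m1_norm_le (h : Hy n a e) (k : ℕ) : ‖coeff k f * R a e k‖ ≤ |coeff k f| * rho a ^ k := by
  rw [Real.norm_eq_abs, abs_mul, abs_of_pos (R_pos h k)]
  exact mul_le_mul_of_nonneg_left (R_le h k) (abs_nonneg _)

theorem Ex_summable (h : Hy n a e) (hf : Nb (rho a) f C) :
    Summable fun k => coeff k f * R a e k :=
  Summable.of_norm_bounded (hf.summable (rho_pos h.a_pos).le) (m1_norm_le h)

theorem Ex_abs_le (h : Hy n a e) (hf : Nb (rho a) f C) : |Ex a e f| ≤ C := by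
  have hr := (rho_pos h.a_pos).le
  have h1 := tsum_of_norm_bounded (hf.summable hr).hasSum (m1_norm_le (f := f) h)
  rw [Real.norm_eq_abs] at h1
  exact h1.trans (hf.tsum_le hr)

theorem Ex_add (h : Hy n a e) (hf : Nb (rho a) f C) (hg : Nb (rho a) g C') :
    Ex a e (f + g) = Ex a e f + Ex a e g := by
  unfold Ex
  rw [← (Ex_summable h hf).tsum_add (Ex_summable h hg)]
  refine tsum_congr (fun k => ?_)
  rw [map_add]
  ring

theorem Ex_sub (h : Hy n a e) (hf : Nb (rho a) f C) (hg : Nb (rho a) g C') :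
    Ex a e (f - g) = Ex a e f - Ex a e g := by
  unfold Ex
  rw [← (Ex_summable h hf).tsum_sub (Ex_summable h hg)]
  refine tsum_congr (fun k => ?_)
  rw [map_sub]
  ring

theorem Ex_smul (c : ℝ) (a : ℝ) (e f : ℝ⟦X⟧) : Ex a e (c • f) = c * Ex a e f := by
  unfold Ex
  rw [← tsum_mul_left]
  refine tsum_congr (fun k => ?_)
  rw [coeff_smul, smul_eq_mul]
  ring

theorem m1_zero (a : ℝ) (e : ℝ⟦X⟧) : Ex a e 0 = 0 := by
  unfold Ex
  simp

theorem Ex_sum (h : Hy n a e) {ι : Type*} (s : Finset ι) (F : ι → ℝ⟦X⟧) (c : ι → ℝ)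
    (hF : ∀ i ∈ s, Nb (rho a) (F i) (c i)) : Ex a e (∑ i ∈ s, F i) = ∑ i ∈ s, Ex a e (F i) := by
  classical
  induction s using Finset.induction_on with
  | empty => simp [m1_zero]
  | insert i s hi ih =>
    rw [sum_insert hi, sum_insert hi, Ex_add h (hF i (mem_insert_self _ _))
      (Nb.sum s (rho_pos h.a_pos).le (fun j hj => hF j (mem_insert_of_mem hj))),
      ih (fun j hj => hF j (mem_insert_of_mem hj))]

theorem Ex_X (a : ℝ) (e : ℝ⟦X⟧) : Ex a e X = R a e 1 := by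
  unfold Ex
  rw [tsum_eq_single 1]
  · rw [coeff_one_X, one_mul]
  · intro k hk
    rw [coeff_X, if_neg hk, zero_mul]

theorem Ex_X_sq (a : ℝ) (e : ℝ⟦X⟧) : Ex a e (X ^ 2) = R a e 2 := by
  unfold Ex
  rw [tsum_eq_single 2]
  · rw [coeff_X_pow, if_pos rfl, one_mul]
  · intro k hk
    rw [coeff_X_pow, if_neg hk, zero_mul]

theorem Ex_eq (a : ℝ) (e f : ℝ⟦X⟧) : Ex a e f = (∑' k, coeff k f * Y a e k) / Y a e 0 := by
  unfold Ex R
  rw [← tsum_div_const]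
  refine tsum_congr (fun k => ?_)
  ring

theorem Ex_abs_coeff (h : Hy n a e) (hf : Nb (rho a) f C) (h0 : coeff 0 f = 0) :
    ∑' k, |coeff k f| * R a e k ≤ R a e 1 / rho a * C := by
  have hr := rho_pos h.a_pos
  have h1 : ∀ k, |coeff k f| * R a e k ≤ R a e 1 / rho a * (|coeff k f| * rho a ^ k) := by
    intro k
    rcases k with _ | k
    · rw [h0]; simp
    · have h2 := R_succ_le h k
      calc |coeff (k + 1) f| * R a e (k + 1) ≤ |coeff (k + 1) f| * (rho a ^ k * R a e 1) :=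
            mul_le_mul_of_nonneg_left h2 (abs_nonneg _)
        _ = R a e 1 / rho a * (|coeff (k + 1) f| * rho a ^ (k + 1)) := by
            rw [pow_succ]
            field_simp
  have hs := (hf.summable hr.le).mul_left (R a e 1 / rho a)
  have hs0 : Summable fun k => |coeff k f| * R a e k :=
    Summable.of_nonneg_of_le (fun k => mul_nonneg (abs_nonneg _) (R_pos h k).le) h1 hs
  refine (hs0.tsum_le_tsum h1 hs).trans ?_
  rw [tsum_mul_left]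
  exact mul_le_mul_of_nonneg_left (hf.tsum_le hr.le) (div_pos (R_pos h 1) hr).le

theorem Ex_J_d2 (h : Hy n a e) (d : ℝ⟦X⟧) (j : ℕ) (hj : (j : ℝ) * rho a ≤ 1 / 96)
    (hd : Nb (rho a) (d + (4 / 3 : ℝ) • X ^ 2) (70 / 3 * ((j : ℝ) * rho a ^ 3))) :
    Ex a e (J d) ≤ -(1 / 3) * rho a ^ 2 := by
  have hr := rho_pos h.a_pos
  have h1 : J d = J (d + (4 / 3 : ℝ) • X ^ 2) - (2 / 3 : ℝ) • X ^ 2 := by
    rw [J_add, J_smul, J_X_sq, smul_smul]
    norm_num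
  have h2 : Nb (rho a) (d + (4 / 3 : ℝ) • X ^ 2) (70 / 288 * rho a ^ 2) := by
    refine hd.mono ?_
    have h3 : (j : ℝ) * rho a * rho a ^ 2 ≤ 1 / 96 * rho a ^ 2 :=
      mul_le_mul_of_nonneg_right hj (by positivity)
    nlinarith
  have h3 := Nb_J h2 hr.le
  have h4 := Ex_abs_le h h3
  have h5 : Nb (rho a) ((2 / 3 : ℝ) • X ^ 2) (|(2 / 3 : ℝ)| * rho a ^ 2) :=
    (Nb_X_pow hr.le 2).smul _
  rw [h1, Ex_sub h h3 h5, Ex_smul, Ex_X_sq]
  have h6 := R_two_ge h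
  have h7 := (abs_le.1 h4).2
  nlinarith [sq_nonneg (rho a)]

end H95L
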