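import Pool.Agent.Lib.H95L.C6
import Pool.Agent.Lib.H95L.M1

/-!
# Chunk H1: the distance of `hT m` to the chord through `s - 1` and `s`

`rT_decomp`. Weights: for `m ≥ s + 1`: `w j = m - 1 - j` for `s - 1 ≤ j ≤ m - 2`; for `m + 2 ≤ s`:
`w j = j - m + 1` for `m ≤ j ≤ s - 2`; otherwise `w = 0` (and for `m ∈ {s-1, s}`: `rT s m = 0`,
`om s m = 0`). All `j` with `w j ≠ 0` satisfy `1 ≤ j < n`. The identity holds for every sequence
`h` in place of `hT`: for `m = s + t`, induction on `t`: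
`rT s (s+t+1) - rT s (s+t) = hT (s+t+1) - hT (s+t) - (hT s - hT (s-1))
  = ∑_{j=s-1}^{s+t-1} d2h j` (telescoping, inner induction). For `m + t = s - 1` similarly
(downwards). Suggestion: prove two auxiliary identities for a general sequence `b : ℕ → ℝ⟦X⟧`,
`δ j = b (j+2) - 2 b (j+1) + b j`:
(A) `b (p+1+t) - b (p+1) - t (b (p+1) - b p) = ∑_{i<t} (t - i) δ (p+i)` (induction on `t`),
(B) `b p - b (p+t+1) + (t+1) (b (p+t+1) - b (p+t)) = ∑_{i<t} (i+1) δ (p+i)` (induction on `t`),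
(A) with `p = s - 1`, `t = m - s`; (B) with `p = m`, `t = s - 1 - m`. Then reindex the sums as sums
over `range n` with `w` as above (`Finset.sum_ite`, `Finset.sum_image`, or define `w` by
`w j = if s-1 ≤ j ∧ j + 2 ≤ m then m-1-j else if m ≤ j ∧ j+2 ≤ s then j+1-m else 0`). The total
weight: `∑_{i<t} (t-i) = t(t+1)/2` and `∑_{i<t} (i+1) = t (t+1)/2`, equal to `om s m`.

`rT_norm`: each `d2h j`, `1 ≤ j < n`, has norm at `ρ` at most
`(4/3) ρ^2 + (70/3) j ρ^3 ≤ (8/5) ρ^2` (`Nb_d2h` with `8 j ρ ≤ 1/12`, since `j ρ ≤ n ρ ≤ 1/96`;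
`4/3 + 70/288 = 1.5764`). `rT_sign`: `Ex_J_d2`, linearity (`Ex_sum`, `J` of a finite sum).
-/

namespace H95L

open Finset PowerSeries

variable {n : ℕ} {a : ℝ} {e : ℝ⟦X⟧}

theorem om_nonneg (s m : ℕ) : 0 ≤ om s m := by
  unfold om
  rcases le_or_gt s m with h | h
  · obtain ⟨t, rfl⟩ := Nat.exists_eq_add_of_le h
    push_cast
    have : 0 ≤ (t : ℝ) := Nat.cast_nonneg t
    have e1 : (s : ℝ) + t - s = t := by ring
    rw [e1]
    positivity
  · obtain ⟨t, rfl⟩ := Nat.exists_eq_add_of_lt h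
    push_cast
    have : 0 ≤ (t : ℝ) := Nat.cast_nonneg t
    have e1 : ((m : ℝ) - (m + t + 1)) * ((m : ℝ) - (m + t + 1) + 1) = (t + 1) * t := by ring
    rw [e1]
    positivity

/-- second differences -/
noncomputable def h1d (b : ℕ → ℝ⟦X⟧) (j : ℕ) : ℝ⟦X⟧ := b (j + 2) - (2 : ℝ) • b (j + 1) + b j

theorem h1_tel (b : ℕ → ℝ⟦X⟧) (p t : ℕ) : ∑ i ∈ range t, h1d b (p + i) =
    b (p + t + 1) - b (p + t) - (b (p + 1) - b p) := by
  induction t with
  | zero => simp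
  | succ t ih =>
    rw [sum_range_succ, ih, h1d]
    rw [show p + t + 2 = p + (t + 1) + 1 by ring, show p + t + 1 = p + (t + 1) by ring]
    module

theorem h1_A (b : ℕ → ℝ⟦X⟧) (p t : ℕ) :
    b (p + 1 + t) - b (p + 1) - (t : ℝ) • (b (p + 1) - b p) =
      ∑ i ∈ range t, ((t : ℝ) - i) • h1d b (p + i) := by
  induction t with
  | zero => simp
  | succ t ih =>
    rw [sum_range_succ]
    have h1 : ∑ i ∈ range t, (((t + 1 : ℕ) : ℝ) - i) • h1d b (p + i) =
        ∑ i ∈ range t, ((t : ℝ) - i) • h1d b (p + i) + ∑ i ∈ range t, h1d b (p + i) := by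
      rw [← sum_add_distrib]
      refine sum_congr rfl (fun i _ => ?_)
      push_cast
      module
    rw [h1, ← ih, h1_tel, h1d]
    push_cast
    rw [show p + t + 2 = p + 1 + (t + 1) by ring, show p + t + 1 = p + 1 + t by ring]
    module

theorem h1_B (b : ℕ → ℝ⟦X⟧) (p t : ℕ) :
    b p - b (p + t + 1) + ((t : ℝ) + 1) • (b (p + t + 1) - b (p + t)) =
      ∑ i ∈ range t, ((i : ℝ) + 1) • h1d b (p + i) := by
  induction t with
  | zero => simp
  | succ t ih =>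
    rw [sum_range_succ, ← ih, h1d]
    push_cast
    rw [show p + (t + 1) + 1 = p + t + 2 by ring, show p + (t + 1) = p + t + 1 by ring]
    module

theorem h1_sumA (t : ℕ) : ∑ i ∈ range t, ((t : ℝ) - i) = (t : ℝ) * (t + 1) / 2 := by
  induction t with
  | zero => simp
  | succ t ih =>
    rw [sum_range_succ]
    have h1 : ∑ i ∈ range t, (((t + 1 : ℕ) : ℝ) - i) = ∑ i ∈ range t, ((t : ℝ) - i) + t := by
      have : (t : ℝ) = ∑ i ∈ range t, (1 : ℝ) := by simp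
      conv_rhs => rw [this]
      rw [← sum_add_distrib, ← this]
      refine sum_congr rfl (fun i _ => ?_)
      push_cast
      ring
    rw [h1, ih]
    push_cast
    ring

theorem h1_sumB (t : ℕ) : ∑ i ∈ range t, ((i : ℝ) + 1) = (t : ℝ) * (t + 1) / 2 := by
  induction t with
  | zero => simp
  | succ t ih =>
    rw [sum_range_succ, ih]
    push_cast
    ring

theorem h1_shift {M : Type*} [AddCommMonoid M] (f : ℕ → M) (p t u : ℕ)
    (h1 : ∀ j < p, f j = 0) (h2 : ∀ j, p + t ≤ j → f j = 0) :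
    ∑ j ∈ range (p + t + u), f j = ∑ i ∈ range t, f (p + i) := by
  rw [sum_range_add, sum_range_add]
  rw [sum_eq_zero (fun j hj => h1 j (mem_range.1 hj)), zero_add,
    sum_eq_zero (s := range u) (fun j _ => h2 _ (by omega)), add_zero]

theorem h1_pack {n p t : ℕ} (hp : 1 ≤ p) (hn : p + t ≤ n) (α : ℕ → ℝ)
    (hα : ∀ i < t, 0 ≤ α i) : ∃ w : ℕ → ℝ, (∀ j, 0 ≤ w j) ∧ (∀ j, w j ≠ 0 → 1 ≤ j ∧ j < n) ∧
      ∑ j ∈ range n, w j = ∑ i ∈ range t, α i ∧
      ∀ f : ℕ → ℝ⟦X⟧, ∑ j ∈ range n, w j • f j = ∑ i ∈ range t, α i • f (p + i) := by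
  obtain ⟨u, rfl⟩ := Nat.exists_eq_add_of_le hn
  refine ⟨fun j => if p ≤ j ∧ j < p + t then α (j - p) else 0, ?_, ?_, ?_, ?_⟩
  · intro j
    dsimp only
    split_ifs with h
    · exact hα _ (by omega)
    · exact le_rfl
  · intro j hj
    by_cases h : p ≤ j ∧ j < p + t
    · omega
    · exact absurd (if_neg h) hj
  · dsimp only
    rw [h1_shift]
    · refine sum_congr rfl (fun i hi => ?_)
      rw [mem_range] at hi
      rw [if_pos (show p ≤ p + i ∧ p + i < p + t by omega), Nat.add_sub_cancel_left]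
    · intro j hj
      rw [if_neg (by omega)]
    · intro j hj
      rw [if_neg (by omega)]
  · intro f
    dsimp only
    rw [h1_shift]
    · refine sum_congr rfl (fun i hi => ?_)
      rw [mem_range] at hi
      rw [if_pos (show p ≤ p + i ∧ p + i < p + t by omega), Nat.add_sub_cancel_left]
    · intro j hj
      rw [if_neg (by omega), zero_smul]
    · intro j hj
      rw [if_neg (by omega), zero_smul]

theorem rT_decomp {n s m : ℕ} (hs : 2 ≤ s) (hsn : s ≤ n) (hm : 1 ≤ m) (hmn : m ≤ n) :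
    ∃ w : ℕ → ℝ, (∀ j, 0 ≤ w j) ∧ (∀ j, w j ≠ 0 → 1 ≤ j ∧ j < n) ∧
      ∑ j ∈ range n, w j = om s m ∧ rT s m = ∑ j ∈ range n, w j • d2h j := by
  rcases le_or_gt s m with h | h
  · obtain ⟨t, rfl⟩ := Nat.exists_eq_add_of_le h
    obtain ⟨p, rfl⟩ : ∃ p, s = p + 1 := ⟨s - 1, by omega⟩
    obtain ⟨w, w1, w2, w3, w4⟩ := h1_pack (n := n) (p := p) (t := t) (by omega) (by omega)
      (fun i => (t : ℝ) - i) (fun i hi => by
        have : (i : ℝ) ≤ t := by exact_mod_cast hi.le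
        linarith)
    refine ⟨w, w1, w2, ?_, ?_⟩
    · rw [w3, h1_sumA, om]
      push_cast
      ring
    · rw [w4]
      have h3 := h1_A hT p t
      have h4 : ∑ i ∈ range t, ((t : ℝ) - i) • d2h (p + i) =
          ∑ i ∈ range t, ((t : ℝ) - i) • h1d hT (p + i) := rfl
      rw [h4, ← h3, rT, Nat.add_sub_cancel]
      push_cast
      module
  · obtain ⟨t, rfl⟩ := Nat.exists_eq_add_of_lt h
    obtain ⟨w, w1, w2, w3, w4⟩ := h1_pack (n := n) (p := m) (t := t) hm (by omega)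
      (fun i => (i : ℝ) + 1) (fun i _ => by positivity)
    refine ⟨w, w1, w2, ?_, ?_⟩
    · rw [w3, h1_sumB, om]
      push_cast
      ring
    · rw [w4]
      have h3 := h1_B hT m t
      have h4 : ∑ i ∈ range t, ((i : ℝ) + 1) • d2h (m + i) =
          ∑ i ∈ range t, ((i : ℝ) + 1) • h1d hT (m + i) := rfl
      rw [h4, ← h3, rT, Nat.add_sub_cancel]
      push_cast
      module

theorem h1_rho (hn : 1 ≤ n) (ha : 99 * (n : ℝ) ≤ a) : 0 < a ∧ rho a * n ≤ 1 / 96 := by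
  have h1 : (1 : ℝ) ≤ n := by exact_mod_cast hn
  have h2 : 0 < a := by linarith
  refine ⟨h2, ?_⟩
  unfold rho
  rw [div_mul_eq_mul_div, div_le_div_iff₀ (by positivity) (by norm_num)]
  nlinarith

theorem h1_base (hn : 1 ≤ n) (ha : 99 * (n : ℝ) ≤ a) {j : ℕ} (hj : 1 ≤ j) (hjn : j < n) :
    (j : ℝ) * rho a ≤ 1 / 96 ∧
    Nb (rho a) (d2h j + (4 / 3 : ℝ) • X ^ 2) (70 / 3 * ((j : ℝ) * rho a ^ 3)) ∧
    Nb (rho a) (d2h j) (8 / 5 * rho a ^ 2) := by
  obtain ⟨ha0, hr⟩ := h1_rho hn ha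
  have hρ := rho_pos ha0
  have hjn' : (j : ℝ) ≤ n := by exact_mod_cast hjn.le
  have h1 : (j : ℝ) * rho a ≤ 1 / 96 := by nlinarith
  have h2 := Nb_d2h j hj (rho a) hρ.le (by linarith)
  refine ⟨h1, h2, ?_⟩
  have h3 : Nb (rho a) ((4 / 3 : ℝ) • X ^ 2) (|(4 / 3 : ℝ)| * rho a ^ 2) :=
    (Nb_X_pow hρ.le 2).smul _
  have h4 := h2.sub h3 hρ.le
  rw [add_sub_cancel_right, abs_of_pos (by norm_num : (0 : ℝ) < 4 / 3)] at h4
  refine h4.mono ?_
  have h5 : (j : ℝ) * rho a * rho a ^ 2 ≤ 1 / 96 * rho a ^ 2 :=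
    mul_le_mul_of_nonneg_right h1 (by positivity)
  nlinarith [sq_nonneg (rho a)]

theorem rT_norm {s m : ℕ} (hn : 1 ≤ n) (ha : 99 * (n : ℝ) ≤ a) (hs : 2 ≤ s) (hsn : s ≤ n)
    (hm : 1 ≤ m) (hmn : m ≤ n) : Nb (rho a) (rT s m) (8 / 5 * (om s m * rho a ^ 2)) := by
  obtain ⟨ha0, hr⟩ := h1_rho hn ha
  have hρ := rho_pos ha0
  obtain ⟨w, w1, w2, w3, w4⟩ := rT_decomp hs hsn hm hmn
  rw [w4]
  have h1 : Nb (rho a) (∑ j ∈ range n, w j • d2h j) (∑ j ∈ range n, w j * (8 / 5 * rho a ^ 2)) := by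
    refine Nb.sum _ hρ.le (fun j _ => ?_)
    rcases eq_or_ne (w j) 0 with h0 | h0
    · rw [h0, zero_smul, zero_mul]
      exact Nb_zero _
    · have h2 := (h1_base hn ha (w2 j h0).1 (w2 j h0).2).2.2.smul (w j)
      rwa [abs_of_nonneg (w1 j)] at h2
  refine h1.mono (le_of_eq ?_)
  rw [← sum_mul, w3]
  ring

theorem h1_Jsum (w : ℕ → ℝ) (F : ℕ → ℝ⟦X⟧) (n : ℕ) :
    J (∑ j ∈ range n, w j • F j) = ∑ j ∈ range n, w j • J (F j) := by
  induction n with
  | zero =>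
    rw [range_zero, sum_empty, sum_empty]
    ext k
    rw [coeff_J]
    simp
  | succ n ih => rw [sum_range_succ, sum_range_succ, J_add, J_smul, ih]

theorem rT_sign {s m : ℕ} (h : Hy n a e) (hs : 2 ≤ s) (hsn : s ≤ n)
    (hm : 1 ≤ m) (hmn : m ≤ n) : Ex a e (J (rT s m)) ≤ -(1 / 3) * (om s m * rho a ^ 2) := by
  have hρ := rho_pos h.a_pos
  obtain ⟨w, w1, w2, w3, w4⟩ := rT_decomp hs hsn hm hmn
  rw [w4, h1_Jsum, Ex_sum h (range n) (fun j => w j • J (d2h j))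
    (fun j => w j * (8 / 5 * rho a ^ 2))]
  · have h1 : ∀ j ∈ range n, Ex a e (w j • J (d2h j)) ≤ w j * (-(1 / 3) * rho a ^ 2) := by
      intro j _
      rw [Ex_smul]
      rcases eq_or_ne (w j) 0 with h0 | h0
      · rw [h0, zero_mul, zero_mul]
      · obtain ⟨b1, b2, -⟩ := h1_base h.hn h.ha (w2 j h0).1 (w2 j h0).2
        exact mul_le_mul_of_nonneg_left (Ex_J_d2 h (d2h j) j b1 b2) (w1 j)
    refine (sum_le_sum h1).trans (le_of_eq ?_)
    rw [← sum_mul, w3]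
    ring
  · intro j _
    rcases eq_or_ne (w j) 0 with h0 | h0
    · rw [h0, zero_smul, zero_mul]
      exact Nb_zero _
    · have h2 := (Nb_J (h1_base h.hn h.ha (w2 j h0).1 (w2 j h0).2).2.2 hρ.le).smul (w j)
      rwa [abs_of_nonneg (w1 j)] at h2

end H95L
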