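import Pool.Agent.Lib.H95L.H1
import Pool.Agent.Lib.H95L.H2

/-!
# Chunk H3: the difference `ev ν - ev T`

Let `SS s ν = ∑_{m ∈ ν} m • rT s m`.
* `ev_eq`: `AA m = m • hT m` (also for `m = 0`: `AA_zero`), and
  `hT m = hT s + (m - s) • (hT s - hT (s-1)) + rT s m`, so by induction on the multiset
  `ev ν = (∑ m) • hT s + (∑ m^2 - s ∑ m) • (hT s - hT (s-1)) + SS s ν` with `∑ m^2 = 2 EE ν + ∑ m`.
* `rT_self`: `rT s s = 0`, `rT s (s-1) = 0` (`((s - 1 : ℕ) : ℝ) = s - 1`), so `SS s T = 0` if all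
  sizes of `T` are `0`, `s-1` or `s`.
* `ev_sub`: subtract `ev_eq` for `ν` and `T` (equal sums).
* `SS_const`: coefficients `0` of `hT` vanish (`coeff_zero_AA`).
* `SS_norm`, `SS_sign`: from `rT_norm`, `rT_sign` for each `m ∈ ν`, `m ≥ 1` (`m ≤ ν.sum = n`; the
  terms `m = 0` vanish), `J`, `Ex` additive (induction on the multiset with norms).
* `Om_nonneg`; `Om_le`: `om s m ≤ n^2/2` for `1 ≤ m, s ≤ n`, so `∑ m om s m ≤ n^3/2`.
-/

namespace H95L

open Finset PowerSeries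

/-- `∑ m • rT s m` -/
noncomputable def SS (s : ℕ) (ν : Multiset ℕ) : ℝ⟦X⟧ :=
  (ν.map fun m : ℕ => (m : ℝ) • rT s m).sum

variable {n s : ℕ} {a : ℝ} {e : ℝ⟦X⟧}

theorem h3_AA (m : ℕ) : AA m = (m : ℝ) • hT m := by
  rcases Nat.eq_zero_or_pos m with rfl | hm
  · rw [AA_zero, Nat.cast_zero, zero_smul]
  · have hm' : (m : ℝ) ≠ 0 := by
      have : (0 : ℝ) < m := by exact_mod_cast hm
      exact this.ne'
    rw [hT, smul_smul, mul_inv_cancel₀ hm', one_smul]

theorem h3_cons (s m : ℕ) (ν : Multiset ℕ) : SS s (m ::ₘ ν) = (m : ℝ) • rT s m + SS s ν := by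
  rw [SS, Multiset.map_cons, Multiset.sum_cons, SS]

theorem h3_EE (m : ℕ) (ν : Multiset ℕ) : EE (m ::ₘ ν) = (m : ℝ) * (m - 1) / 2 + EE ν := by
  rw [EE, Multiset.map_cons, Multiset.sum_cons, EE]

theorem h3_ev (m : ℕ) (ν : Multiset ℕ) : ev (m ::ₘ ν) = AA m + ev ν := by
  rw [ev, Multiset.map_cons, Multiset.sum_cons, ev]

theorem h3_Om (s m : ℕ) (ν : Multiset ℕ) : Om s (m ::ₘ ν) = (m : ℝ) * om s m + Om s ν := by
  rw [Om, Multiset.map_cons, Multiset.sum_cons, Om]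

theorem h3_ev_eq (s : ℕ) (ν : Multiset ℕ) : ev ν = (ν.sum : ℝ) • hT s +
    (2 * EE ν + ν.sum - s * ν.sum : ℝ) • (hT s - hT (s - 1)) + SS s ν := by
  induction ν using Multiset.induction_on with
  | empty => simp [ev, EE, SS]
  | cons m ν ih =>
    rw [h3_ev, h3_cons, h3_EE, ih, h3_AA, Multiset.sum_cons, Nat.cast_add, rT]
    simp only [smul_eq_C_mul, map_mul, map_add, map_sub, map_ofNat, map_natCast]
    have h2 : (C (2 : ℝ) : ℝ⟦X⟧) * C ((m : ℝ) * (m - 1) / 2) = C ((m : ℝ) * (m - 1)) := by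
      rw [← map_mul]
      congr 1
      ring
    simp only [map_mul, map_sub, map_ofNat, map_one, map_natCast] at h2
    linear_combination (-(hT s - hT (s - 1))) * h2

theorem h3_self (s : ℕ) : rT s s = 0 := by
  rw [rT, sub_self, sub_self, zero_smul, sub_zero]

theorem h3_pred (hs : 1 ≤ s) : rT s (s - 1) = 0 := by
  have h1 : ((s - 1 : ℕ) : ℝ) - s = -1 := by
    rw [Nat.cast_sub hs]
    push_cast
    ring
  rw [rT, h1, neg_one_smul]
  ring

theorem SS_T (hs : 1 ≤ s) (T : Multiset ℕ) (hT : ∀ m ∈ T, m = 0 ∨ m = s - 1 ∨ m = s) :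
    SS s T = 0 := by
  induction T using Multiset.induction_on with
  | empty => simp [SS]
  | cons m T ih =>
    rw [h3_cons, ih fun k hk => hT k (Multiset.mem_cons_of_mem hk), add_zero]
    rcases hT m (Multiset.mem_cons_self m T) with h | h | h
    · rw [h, Nat.cast_zero, zero_smul]
    · rw [h, h3_pred hs, smul_zero]
    · rw [h, h3_self, smul_zero]

theorem ev_sub (hs : 1 ≤ s) (T ν : Multiset ℕ) (hTn : T.sum = n) (hν : ν.sum = n)
    (hT : ∀ m ∈ T, m = 0 ∨ m = s - 1 ∨ m = s) :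
    ev ν - ev T = (EE ν - EE T) • gT s + SS s ν := by
  rw [h3_ev_eq s ν, h3_ev_eq s T, SS_T hs T hT, hTn, hν, gT]
  simp only [smul_eq_C_mul, map_mul, map_add, map_sub, map_ofNat]
  ring

theorem h3_hT (m : ℕ) : coeff 0 (hT m) = 0 := by
  rw [hT, coeff_smul, coeff_zero_AA, smul_zero]

theorem h3_rT (s m : ℕ) : coeff 0 (rT s m) = 0 := by
  rw [rT, map_sub, map_sub, coeff_smul, map_sub, h3_hT, h3_hT, h3_hT]
  simp

theorem SS_const (s : ℕ) (ν : Multiset ℕ) : coeff 0 (SS s ν) = 0 := by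
  induction ν using Multiset.induction_on with
  | empty => simp [SS]
  | cons m ν ih => rw [h3_cons, map_add, ih, coeff_smul, h3_rT, smul_zero, add_zero]

theorem gT_const (s : ℕ) : coeff 0 (gT s) = 0 := by
  rw [gT, coeff_smul, map_sub, h3_hT, h3_hT, sub_zero, smul_zero]

theorem h3_norm (hn : 1 ≤ n) (ha : 99 * (n : ℝ) ≤ a) (hs : 2 ≤ s) (hsn : s ≤ n)
    (m : ℕ) (hm : m ≤ n) :
    Nb (rho a) ((m : ℝ) • rT s m) (8 / 5 * ((m : ℝ) * om s m * rho a ^ 2)) := by
  rcases Nat.eq_zero_or_pos m with rfl | h0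
  · rw [Nat.cast_zero, zero_smul]
    refine (Nb_zero _).mono ?_
    simp
  · refine ((rT_norm hn ha hs hsn h0 hm).smul (m : ℝ)).mono (le_of_eq ?_)
    rw [abs_of_nonneg (Nat.cast_nonneg m)]
    ring

theorem h3_norm_SS (hn : 1 ≤ n) (ha : 99 * (n : ℝ) ≤ a) (hs : 2 ≤ s) (hsn : s ≤ n)
    (ν : Multiset ℕ) (hν : ∀ m ∈ ν, m ≤ n) :
    Nb (rho a) (SS s ν) (8 / 5 * (Om s ν * rho a ^ 2)) := by
  have hn' : (1 : ℝ) ≤ n := by exact_mod_cast hn
  have hr := (rho_pos (a := a) (by linarith)).le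
  induction ν using Multiset.induction_on with
  | empty =>
    have h1 : SS s 0 = 0 := by simp [SS]
    have h2 : Om s 0 = 0 := by simp [Om]
    rw [h1, h2]
    refine (Nb_zero _).mono ?_
    simp
  | cons m ν ih =>
    rw [h3_cons, h3_Om]
    refine ((h3_norm hn ha hs hsn m (hν m (Multiset.mem_cons_self m ν))).add
      (ih fun k hk => hν k (Multiset.mem_cons_of_mem hk)) hr).mono (le_of_eq ?_)
    ring

theorem SS_norm (hn : 1 ≤ n) (ha : 99 * (n : ℝ) ≤ a) (hs : 2 ≤ s) (hsn : s ≤ n)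
    (ν : Multiset ℕ) (hν : ν.sum = n) :
    Nb (rho a) (SS s ν) (8 / 5 * (Om s ν * rho a ^ 2)) :=
  h3_norm_SS hn ha hs hsn ν fun _ hm => hν ▸ Multiset.le_sum_of_mem hm

theorem h3_J_zero : J (0 : ℝ⟦X⟧) = 0 := by
  have := J_sub (0 : ℝ⟦X⟧) 0
  simpa using this

theorem SS_sign (h : Hy n a e) (hs : 2 ≤ s) (hsn : s ≤ n) (ν : Multiset ℕ) (hν : ν.sum = n) :
    Ex a e (J (SS s ν)) ≤ -(1 / 3) * (Om s ν * rho a ^ 2) := by
  have hr := (rho_pos h.a_pos).le
  have hm : ∀ m ∈ ν, m ≤ n := fun _ hm => hν ▸ Multiset.le_sum_of_mem hm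
  clear hν
  induction ν using Multiset.induction_on with
  | empty =>
    have h1 : SS s 0 = 0 := by simp [SS]
    have h2 : Om s 0 = 0 := by simp [Om]
    rw [h1, h2, h3_J_zero, m1_zero]
    simp
  | cons m ν ih =>
    have ih' := ih fun k hk => hm k (Multiset.mem_cons_of_mem hk)
    have hmn := hm m (Multiset.mem_cons_self m ν)
    rw [h3_cons, h3_Om, J_add,
      Ex_add h (Nb_J (h3_norm h.hn h.ha hs hsn m hmn) hr)
        (Nb_J (h3_norm_SS h.hn h.ha hs hsn ν fun k hk => hm k (Multiset.mem_cons_of_mem hk)) hr),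
      J_smul, Ex_smul]
    have h1 : (m : ℝ) * Ex a e (J (rT s m)) ≤ -(1 / 3) * ((m : ℝ) * om s m * rho a ^ 2) := by
      rcases Nat.eq_zero_or_pos m with rfl | h0
      · simp
      · have h2 := mul_le_mul_of_nonneg_left (rT_sign h hs hsn h0 hmn) (Nat.cast_nonneg (α := ℝ) m)
        linarith
    linarith

theorem Om_nonneg (s : ℕ) (ν : Multiset ℕ) : 0 ≤ Om s ν := by
  induction ν using Multiset.induction_on with
  | empty => simp [Om]
  | cons m ν ih =>
    rw [h3_Om]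
    have := mul_nonneg (Nat.cast_nonneg (α := ℝ) m) (om_nonneg s m)
    linarith

theorem Om_le (hs : 1 ≤ s) (hsn : s ≤ n) (ν : Multiset ℕ) (hν : ν.sum = n) :
    Om s ν ≤ (n : ℝ) ^ 3 / 2 := by
  have hm : ∀ m ∈ ν, m ≤ n := fun _ hm => hν ▸ Multiset.le_sum_of_mem hm
  have h1 : Om s ν ≤ (n : ℝ) ^ 2 / 2 * ν.sum := by
    clear hν
    induction ν using Multiset.induction_on with
    | empty => simp [Om]
    | cons m ν ih =>
      rw [h3_Om, Multiset.sum_cons, Nat.cast_add]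
      have ih' := ih fun k hk => hm k (Multiset.mem_cons_of_mem hk)
      have hmn : (m : ℝ) ≤ n := by exact_mod_cast hm m (Multiset.mem_cons_self m ν)
      have hs' : (1 : ℝ) ≤ s := by exact_mod_cast hs
      have hsn' : (s : ℝ) ≤ n := by exact_mod_cast hsn
      have h2 : (m : ℝ) * om s m ≤ (n : ℝ) ^ 2 / 2 * m := by
        rcases Nat.eq_zero_or_pos m with rfl | h0
        · simp
        · have h0' : (1 : ℝ) ≤ m := by exact_mod_cast h0
          have h3 : om s m ≤ (n : ℝ) ^ 2 / 2 := by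
            rw [om]
            have h4 : ((m : ℝ) - s) * ((m : ℝ) - s + 1) ≤ (n : ℝ) ^ 2 := by
              nlinarith
            linarith
          have := mul_le_mul_of_nonneg_left h3 (Nat.cast_nonneg (α := ℝ) m)
          linarith
      linarith
  rw [hν] at h1
  refine h1.trans (le_of_eq ?_)
  ring

end H95L
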