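import Pool.Agent.Lib.H95L.M2

/-!
# Chunk M3: the second derivative is small

`Cv_g`. `G` is a series with `Nb ρ (G - X) (ρ/16)`, `G_0 = 0`; `g = J G`. Put `z = J (G - X)`,
so `g = 1 • X + z` (`J_sub`, `J_X`), `z_0 = 0`, `D z = G - X` (`D_J`), `Nb ρ (D z) (ρ/16)`,
`Nb ρ (D X) ρ`. `Cv_sq`, `Cv_X_X`, `R_two_le`, `Cv_bound`:
`Cv g g ≤ -(9/10) ρ R_1^2 + 2 (11/10)(R_1^2/ρ) ρ (ρ/16) + (11/10)(R_1^2/ρ)(ρ/16)^2`
`= ρ R_1^2 (-9/10 + 11/80 + 11/2560) ≤ -(1/2) ρ R_1^2`.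

`Cv_Delta`. `Δ = E • g + S`, `Nb ρ (D S) ((8/5) Ω ρ^2)`, `S_0 = 0`, `Ω ≥ 0`, `|E| ≤ n^2/2`,
`Ω ≤ n^3/2`, `n ρ ≤ 1/96` (`rho_n`). `D g = G` has norm at most `(17/16) ρ`. By `Cv_sq`
`Cv Δ Δ = E^2 Cv g g + 2 E Cv g S + Cv S S`
`≤ -(1/2) E^2 ρ R_1^2 + 2 |E| (11/10)(R_1^2/ρ)(17/16) ρ (8/5) Ω ρ^2 + (11/10)(R_1^2/ρ)((8/5) Ω ρ^2)^2`.
With `R_1 ≤ ρ`: the second term is at most `(374/100) |E| Ω ρ^4 ≤ (187/100) (nρ)^2 Ω ρ^2`, the third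
at most `(282/100) Ω^2 ρ^5 ≤ (141/100) (nρ)^3 Ω ρ^2`; together at most `Ω ρ^2/1000`. In the first use
`R_1 ≥ (95/100) ρ`: `R_1^2 ≥ (9/10) ρ^2`, so it is at most `-(9/20) E^2 ρ^3 ≤ -(2/5) E^2 ρ^3`.
-/

namespace H95L

open Finset PowerSeries

variable {n : ℕ} {a : ℝ} {e : ℝ⟦X⟧}

theorem Cv_g (h : Hy n a e) (G : ℝ⟦X⟧) (hG : Nb (rho a) (G - X) (rho a / 16))
    (G0 : coeff 0 G = 0) : Cv a e (J G) (J G) ≤ -(1 / 2) * rho a * R a e 1 ^ 2 := by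
  have ha := h.a_pos
  have hr := rho_pos ha
  set z := J (G - X) with hz
  have h0 : coeff 0 (G - X) = 0 := by
    rw [map_sub, G0, coeff_zero_X, sub_zero]
  have h1 : J G = (1 : ℝ) • X + z := by
    rw [hz, J_sub, J_X, one_smul]
    ring
  have hDz : D z = G - X := D_J h0
  have z0 : coeff 0 z = 0 := coeff_zero_J _
  have X0 : coeff 0 (X : ℝ⟦X⟧) = 0 := coeff_zero_X
  have nz : Nb (rho a) (D z) (rho a / 16) := by rw [hDz]; exact hG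
  have nX : Nb (rho a) (D (X : ℝ⟦X⟧)) (rho a) := by rw [D_X]; exact Nb_X hr.le
  have h2 := Cv_sq h (Nb_of_D nX ha X0) (Nb_of_D nz ha z0) 1
  rw [h1, h2, Cv_X_X]
  have h3 := R_two_le h
  have h4 := (abs_le.1 (Cv_bound h nX nz X0 z0)).2
  have h5 := (abs_le.1 (Cv_bound h nz nz z0 z0)).2
  have e4 : 11 / 10 * (R a e 1 ^ 2 / rho a) * (rho a * (rho a / 16)) =
      11 / 160 * (rho a * R a e 1 ^ 2) := by
    field_simp
    ring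
  have e5 : 11 / 10 * (R a e 1 ^ 2 / rho a) * (rho a / 16 * (rho a / 16)) =
      11 / 2560 * (rho a * R a e 1 ^ 2) := by
    field_simp
    ring
  rw [e4] at h4
  rw [e5] at h5
  have h6 : 0 ≤ rho a * R a e 1 ^ 2 := by positivity
  nlinarith

theorem Cv_Delta (h : Hy n a e) (G : ℝ⟦X⟧) (hG : Nb (rho a) (G - X) (rho a / 16))
    (G0 : coeff 0 G = 0) (S : ℝ⟦X⟧) (S0 : coeff 0 S = 0) (E Ω : ℝ) (hΩ0 : 0 ≤ Ω)
    (hE : |E| ≤ (n : ℝ) ^ 2 / 2) (hΩ : Ω ≤ (n : ℝ) ^ 3 / 2)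
    (hS : Nb (rho a) (D S) (8 / 5 * (Ω * rho a ^ 2))) :
    Cv a e (E • J G + S) (E • J G + S) ≤
      -(2 / 5) * E ^ 2 * rho a ^ 3 + Ω * rho a ^ 2 / 1000 := by
  have ha := h.a_pos
  have hr := rho_pos ha
  have g0 : coeff 0 (J G) = 0 := coeff_zero_J _
  have nG : Nb (rho a) (D (J G)) (17 / 16 * rho a) := by
    rw [D_J G0]
    have h1 := (Nb_X hr.le).add hG hr.le
    rw [add_sub_cancel] at h1
    exact h1.mono (by linarith)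
  have h2 := Cv_sq h (Nb_of_D nG ha g0) (Nb_of_D hS ha S0) E
  rw [h2]
  have h3 := Cv_g h G hG G0
  have h4 := Cv_bound h nG hS g0 S0
  have h5 := (abs_le.1 (Cv_bound h hS hS S0 S0)).2
  have hR1 := R_one_ge h
  have hR2 : R a e 1 ≤ rho a := by simpa using R_le h 1
  have hRp := R_pos h 1
  have hRl : 9 / 10 * rho a ^ 2 ≤ R a e 1 ^ 2 := by
    have : (95 / 100 * rho a) ^ 2 ≤ R a e 1 ^ 2 := pow_le_pow_left₀ (by positivity) hR1 2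
    nlinarith [sq_nonneg (rho a)]
  have hRu : R a e 1 ^ 2 ≤ rho a ^ 2 := pow_le_pow_left₀ hRp.le hR2 2
  have hnr := rho_n h
  have hnr0 : 0 ≤ rho a * n := by positivity
  -- first term
  have t1 : E ^ 2 * Cv a e (J G) (J G) ≤ -(2 / 5) * E ^ 2 * rho a ^ 3 := by
    have h6 : E ^ 2 * Cv a e (J G) (J G) ≤ E ^ 2 * (-(1 / 2) * rho a * R a e 1 ^ 2) :=
      mul_le_mul_of_nonneg_left h3 (sq_nonneg E)
    have h7 : E ^ 2 * rho a * (9 / 10 * rho a ^ 2) ≤ E ^ 2 * rho a * R a e 1 ^ 2 :=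
      mul_le_mul_of_nonneg_left hRl (by positivity)
    have h8 : 0 ≤ E ^ 2 * rho a ^ 3 := by positivity
    nlinarith
  -- second term
  have t2 : 2 * E * Cv a e (J G) S ≤ 2 / 10000 * (187 / 100) * (Ω * rho a ^ 2) := by
    have h6 : 2 * E * Cv a e (J G) S ≤ 2 * (|E| * |Cv a e (J G) S|) := by
      have := le_abs_self (E * Cv a e (J G) S)
      rw [abs_mul] at this
      linarith
    have h7 : |Cv a e (J G) S| ≤ 187 / 100 * (Ω * rho a ^ 4) := by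
      refine h4.trans ?_
      have h8 : 11 / 10 * (R a e 1 ^ 2 / rho a) * (17 / 16 * rho a * (8 / 5 * (Ω * rho a ^ 2))) =
          187 / 100 * (R a e 1 ^ 2 * (Ω * rho a ^ 2)) := by
        field_simp
        ring
      rw [h8]
      have h9 : R a e 1 ^ 2 * (Ω * rho a ^ 2) ≤ rho a ^ 2 * (Ω * rho a ^ 2) :=
        mul_le_mul_of_nonneg_right hRu (by positivity)
      nlinarith
    have h8 : |E| * |Cv a e (J G) S| ≤ (n : ℝ) ^ 2 / 2 * (187 / 100 * (Ω * rho a ^ 4)) :=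
      mul_le_mul hE h7 (abs_nonneg _) (by positivity)
    have h9 : (rho a * n) ^ 2 ≤ (1 / 96) ^ 2 := pow_le_pow_left₀ hnr0 hnr 2
    have h10 : (n : ℝ) ^ 2 / 2 * (187 / 100 * (Ω * rho a ^ 4)) =
        187 / 200 * (Ω * rho a ^ 2) * (rho a * n) ^ 2 := by ring
    have h11 : 187 / 200 * (Ω * rho a ^ 2) * (rho a * n) ^ 2 ≤
        187 / 200 * (Ω * rho a ^ 2) * (1 / 96) ^ 2 :=
      mul_le_mul_of_nonneg_left h9 (by positivity)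
    have h12 : 0 ≤ Ω * rho a ^ 2 := by positivity
    nlinarith
  -- third term
  have t3 : Cv a e S S ≤ 1 / 10000 * (Ω * rho a ^ 2) := by
    refine h5.trans ?_
    have h8 : 11 / 10 * (R a e 1 ^ 2 / rho a) *
        (8 / 5 * (Ω * rho a ^ 2) * (8 / 5 * (Ω * rho a ^ 2))) =
        704 / 250 * (R a e 1 ^ 2 * (Ω ^ 2 * rho a ^ 3)) := by
      field_simp
      ring
    rw [h8]
    have h9 : R a e 1 ^ 2 * (Ω ^ 2 * rho a ^ 3) ≤ rho a ^ 2 * (Ω ^ 2 * rho a ^ 3) :=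
      mul_le_mul_of_nonneg_right hRu (by positivity)
    have h10 : Ω * (Ω * rho a ^ 5) ≤ (n : ℝ) ^ 3 / 2 * (Ω * rho a ^ 5) :=
      mul_le_mul_of_nonneg_right hΩ (by positivity)
    have h11 : (rho a * n) ^ 3 ≤ (1 / 96) ^ 3 := pow_le_pow_left₀ hnr0 hnr 3
    have h12 : (Ω * rho a ^ 2) * (rho a * n) ^ 3 ≤ (Ω * rho a ^ 2) * (1 / 96) ^ 3 :=
      mul_le_mul_of_nonneg_left h11 (by positivity)
    have h13 : 0 ≤ Ω * rho a ^ 2 := by positivity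
    have e1 : rho a ^ 2 * (Ω ^ 2 * rho a ^ 3) = Ω * (Ω * rho a ^ 5) := by ring
    have e2 : (n : ℝ) ^ 3 / 2 * (Ω * rho a ^ 5) = 1 / 2 * ((Ω * rho a ^ 2) * (rho a * n) ^ 3) := by
      ring
    rw [e1] at h9
    rw [e2] at h10
    norm_num at h12
    nlinarith
  have h12 : 0 ≤ Ω * rho a ^ 2 := by positivity
  linarith

end H95L
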