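import Pool.Agent.Lib.H95L.M1

/-!
# Chunk M2: covariances

* `Nb_of_D`: if `f_0 = 0` then `|f_k| ≤ |k f_k|`.
* `Cv_eq`: `⟨f g⟩ = ∑_m R_m ∑_{k+l=m} f_k g_l = ∑_{(k,l)} f_k g_l R_{k+l}` (the family is absolutely
  summable over `ℕ × ℕ`: `R_{k+l} ≤ ρ^{k+l}`; sum over antidiagonals as in chunk L2,
  `Finset.HasAntidiagonal.sigmaAntidiagonalEquivProd`), `⟨f⟩⟨g⟩ = ∑_{(k,l)} f_k g_l R_k R_l`
  (`tsum_mul_tsum_of_summable_norm`). So `Cv f g = ∑_{(k,l)} f_k g_l (R_{k+l} - R_k R_l)`.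
* `Cv_bound`: `|R_{k+l} - R_k R_l| ≤ (11/10) ρ (k R_k)(l R_l)` (`R_cov_le`, `R_cov_ge`), so
  `|Cv f g| ≤ (11/10) ρ (∑ k |f_k| R_k)(∑ l |g_l| R_l)`, and `∑ k |f_k| R_k ≤ (R_1/ρ) C`
  (`Ex_abs_coeff` for `D f`). Total `(11/10) ρ (R_1/ρ)^2 C C' = (11/10) (R_1^2/ρ) C C'`.
* `Cv_sq`: bilinearity: `(c f + g)^2 = c^2 f^2 + 2 c f g + g^2`, `Ex_add`, `Ex_smul` (products have
  finite norm by `Nb.mul`).
* `Cv_X_X`: `⟨X^2⟩ - ⟨X⟩^2 = R_2 - R_1^2`.
-/

namespace H95L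

open Finset PowerSeries

variable {n : ℕ} {a C C' : ℝ} {e f g : ℝ⟦X⟧}

theorem Nb_of_D (h : Nb (rho a) (D f) C) (ha : 0 < a) (h0 : coeff 0 f = 0) :
    Nb (rho a) f C := by
  have hr := (rho_pos ha).le
  intro K
  refine le_trans (sum_le_sum (fun k _ => ?_)) (h K)
  refine mul_le_mul_of_nonneg_right ?_ (pow_nonneg hr _)
  rw [coeff_D, abs_mul, Nat.abs_cast]
  rcases Nat.eq_zero_or_pos k with rfl | hk
  · rw [h0]; simp
  · have h1 : (1 : ℝ) ≤ k := by exact_mod_cast hk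
    exact le_mul_of_one_le_left (abs_nonneg _) h1

theorem m2_dom (h : Hy n a e) (hf : Nb (rho a) f C) (hg : Nb (rho a) g C') :
    Summable fun p : ℕ × ℕ => (|coeff p.1 f| * rho a ^ p.1) * (|coeff p.2 g| * rho a ^ p.2) := by
  have hr := (rho_pos h.a_pos).le
  exact (hf.summable hr).mul_of_nonneg (hg.summable hr) (fun k => by positivity)
    (fun k => by positivity)

theorem m2_sum1 (h : Hy n a e) (hf : Nb (rho a) f C) (hg : Nb (rho a) g C') :
    Summable fun p : ℕ × ℕ => coeff p.1 f * coeff p.2 g * R a e (p.1 + p.2) := by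
  have hr := (rho_pos h.a_pos).le
  refine Summable.of_norm_bounded (m2_dom h hf hg) (fun p => ?_)
  rw [Real.norm_eq_abs, abs_mul, abs_mul, abs_of_pos (R_pos h _)]
  calc |coeff p.1 f| * |coeff p.2 g| * R a e (p.1 + p.2)
      ≤ |coeff p.1 f| * |coeff p.2 g| * rho a ^ (p.1 + p.2) :=
        mul_le_mul_of_nonneg_left (R_le h _) (by positivity)
    _ = (|coeff p.1 f| * rho a ^ p.1) * (|coeff p.2 g| * rho a ^ p.2) := by
        rw [pow_add]; ring

theorem m2_anti {F : ℕ × ℕ → ℝ} (hF : Summable F) :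
    ∑' p, F p = ∑' m, ∑ p ∈ antidiagonal m, F p := by
  conv_rhs => congr; ext; rw [← Finset.sum_finset_coe, ← tsum_fintype (L := .unconditional _)]
  rw [← Finset.HasAntidiagonal.sigmaAntidiagonalEquivProd.tsum_eq F]
  exact (Finset.HasAntidiagonal.sigmaAntidiagonalEquivProd.summable_iff.mpr hF).tsum_sigma'
    (fun n => (hasSum_fintype _).summable)

theorem m2_Ex_mul (h : Hy n a e) (hf : Nb (rho a) f C) (hg : Nb (rho a) g C') :
    Ex a e (f * g) = ∑' p : ℕ × ℕ, coeff p.1 f * coeff p.2 g * R a e (p.1 + p.2) := by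
  rw [m2_anti (m2_sum1 h hf hg)]
  unfold Ex
  refine tsum_congr (fun m => ?_)
  rw [coeff_mul, sum_mul]
  refine sum_congr rfl (fun p hp => ?_)
  rw [HasAntidiagonal.mem_antidiagonal] at hp
  rw [hp]

theorem m2_sum2 (h : Hy n a e) (hf : Nb (rho a) f C) (hg : Nb (rho a) g C') :
    Summable fun p : ℕ × ℕ => coeff p.1 f * coeff p.2 g * (R a e p.1 * R a e p.2) := by
  have hr := (rho_pos h.a_pos).le
  refine Summable.of_norm_bounded (m2_dom h hf hg) (fun p => ?_)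
  rw [Real.norm_eq_abs, abs_mul, abs_mul, abs_of_pos (mul_pos (R_pos h _) (R_pos h _))]
  calc |coeff p.1 f| * |coeff p.2 g| * (R a e p.1 * R a e p.2)
      ≤ |coeff p.1 f| * |coeff p.2 g| * (rho a ^ p.1 * rho a ^ p.2) :=
        mul_le_mul_of_nonneg_left (mul_le_mul (R_le h _) (R_le h _) (R_pos h _).le
          (by positivity)) (by positivity)
    _ = (|coeff p.1 f| * rho a ^ p.1) * (|coeff p.2 g| * rho a ^ p.2) := by
        ring

theorem m2_Ex_prod (h : Hy n a e) (hf : Nb (rho a) f C) (hg : Nb (rho a) g C') :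
    Ex a e f * Ex a e g =
      ∑' p : ℕ × ℕ, coeff p.1 f * coeff p.2 g * (R a e p.1 * R a e p.2) := by
  unfold Ex
  rw [tsum_mul_tsum_of_summable_norm (Ex_summable h hf).norm (Ex_summable h hg).norm]
  refine tsum_congr (fun p => ?_)
  ring

theorem Cv_eq (h : Hy n a e) (hf : Nb (rho a) f C) (hg : Nb (rho a) g C') :
    (Summable fun p : ℕ × ℕ =>
      |coeff p.1 f * coeff p.2 g * (R a e (p.1 + p.2) - R a e p.1 * R a e p.2)|) ∧
    Cv a e f g = ∑' p : ℕ × ℕ,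
      coeff p.1 f * coeff p.2 g * (R a e (p.1 + p.2) - R a e p.1 * R a e p.2) := by
  have h1 := m2_sum1 h hf hg
  have h2 := m2_sum2 h hf hg
  have h3 : (fun p : ℕ × ℕ =>
      coeff p.1 f * coeff p.2 g * (R a e (p.1 + p.2) - R a e p.1 * R a e p.2)) =
      fun p => coeff p.1 f * coeff p.2 g * R a e (p.1 + p.2) -
        coeff p.1 f * coeff p.2 g * (R a e p.1 * R a e p.2) := by
    funext p; ring
  constructor
  · refine (h1.sub h2).abs.congr (fun p => ?_)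
    rw [mul_sub]
  · rw [h3, h1.tsum_sub h2, ← m2_Ex_mul h hf hg, ← m2_Ex_prod h hf hg]
    rfl

theorem m2_D_sum (h : Hy n a e) (hf : Nb (rho a) (D f) C) :
    (Summable fun k : ℕ => (k : ℝ) * |coeff k f| * R a e k) ∧
    ∑' k : ℕ, (k : ℝ) * |coeff k f| * R a e k ≤ R a e 1 / rho a * C := by
  have h1 := Ex_abs_coeff h hf (coeff_zero_D f)
  have h2 : (fun k : ℕ => (k : ℝ) * |coeff k f| * R a e k) =
      fun k => |coeff k (D f)| * R a e k := by
    funext k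
    rw [coeff_D, abs_mul, Nat.abs_cast]
  rw [h2]
  refine ⟨?_, h1⟩
  have h3 := (Ex_summable h hf).abs
  refine h3.congr (fun k => ?_)
  rw [abs_mul, abs_of_pos (R_pos h k)]

theorem Cv_bound (h : Hy n a e) (hf : Nb (rho a) (D f) C) (hg : Nb (rho a) (D g) C')
    (f0 : coeff 0 f = 0) (g0 : coeff 0 g = 0) :
    |Cv a e f g| ≤ 11 / 10 * (R a e 1 ^ 2 / rho a) * (C * C') := by
  have hr := rho_pos h.a_pos
  have hf' := Nb_of_D hf h.a_pos f0
  have hg' := Nb_of_D hg h.a_pos g0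
  obtain ⟨h1, h2⟩ := Cv_eq h hf' hg'
  obtain ⟨s1, t1⟩ := m2_D_sum h hf
  obtain ⟨s2, t2⟩ := m2_D_sum h hg
  have hs := (s1.mul_of_nonneg s2
    (fun k => mul_nonneg (by positivity) (R_pos h k).le)
    (fun k => mul_nonneg (by positivity) (R_pos h k).le)).mul_left (11 / 10 * rho a)
  have hle : ∀ p : ℕ × ℕ,
      ‖coeff p.1 f * coeff p.2 g * (R a e (p.1 + p.2) - R a e p.1 * R a e p.2)‖ ≤
      11 / 10 * rho a * (((p.1 : ℝ) * |coeff p.1 f| * R a e p.1) *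
        ((p.2 : ℝ) * |coeff p.2 g| * R a e p.2)) := by
    intro p
    rw [Real.norm_eq_abs, abs_mul, abs_mul]
    have h3 : |R a e (p.1 + p.2) - R a e p.1 * R a e p.2| ≤
        11 / 10 * rho a * ((p.1 * R a e p.1) * (p.2 * R a e p.2)) := by
      rw [abs_of_nonpos (by linarith [R_cov_le h p.1 p.2]), neg_sub]
      exact R_cov_ge h p.1 p.2
    calc |coeff p.1 f| * |coeff p.2 g| * |R a e (p.1 + p.2) - R a e p.1 * R a e p.2|
        ≤ |coeff p.1 f| * |coeff p.2 g| *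
          (11 / 10 * rho a * ((p.1 * R a e p.1) * (p.2 * R a e p.2))) :=
          mul_le_mul_of_nonneg_left h3 (by positivity)
      _ = _ := by ring
  have h4 := tsum_of_norm_bounded hs.hasSum hle
  rw [Real.norm_eq_abs, ← h2, tsum_mul_left] at h4
  refine h4.trans ?_
  have h5 : ∑' p : ℕ × ℕ, ((p.1 : ℝ) * |coeff p.1 f| * R a e p.1) *
        ((p.2 : ℝ) * |coeff p.2 g| * R a e p.2) =
      (∑' k : ℕ, (k : ℝ) * |coeff k f| * R a e k) * ∑' k : ℕ, (k : ℝ) * |coeff k g| * R a e k :=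
    (tsum_mul_tsum_of_summable_norm s1.norm s2.norm).symm
  rw [h5]
  have p1 : 0 ≤ ∑' k : ℕ, (k : ℝ) * |coeff k f| * R a e k :=
    tsum_nonneg fun k => mul_nonneg (by positivity) (R_pos h k).le
  have p2 : 0 ≤ ∑' k : ℕ, (k : ℝ) * |coeff k g| * R a e k :=
    tsum_nonneg fun k => mul_nonneg (by positivity) (R_pos h k).le
  calc 11 / 10 * rho a * ((∑' k : ℕ, (k : ℝ) * |coeff k f| * R a e k) *
        ∑' k : ℕ, (k : ℝ) * |coeff k g| * R a e k)
      ≤ 11 / 10 * rho a * ((R a e 1 / rho a * C) * (R a e 1 / rho a * C')) :=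
        mul_le_mul_of_nonneg_left (mul_le_mul t1 t2 p2 (p1.trans t1)) (by positivity)
    _ = 11 / 10 * (R a e 1 ^ 2 / rho a) * (C * C') := by
        field_simp

theorem Cv_sq (h : Hy n a e) (hf : Nb (rho a) f C) (hg : Nb (rho a) g C') (c : ℝ) :
    Cv a e (c • f + g) (c • f + g) = c ^ 2 * Cv a e f f + 2 * c * Cv a e f g + Cv a e g g := by
  have hr := (rho_pos h.a_pos).le
  have h1 : (c • f + g) * (c • f + g) = ((c ^ 2) • (f * f) + (2 * c) • (f * g)) + g * g := by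
    simp only [smul_eq_C_mul, map_mul, map_pow, map_ofNat]
    ring
  have hff := hf.mul hf hr
  have hfg := hf.mul hg hr
  have hgg := hg.mul hg hr
  unfold Cv
  rw [h1, Ex_add h ((hff.smul _).add (hfg.smul _) hr) hgg, Ex_add h (hff.smul _) (hfg.smul _),
    Ex_smul, Ex_smul, Ex_add h (hf.smul c) hg, Ex_smul]
  ring

theorem Cv_X_X (a : ℝ) (e : ℝ⟦X⟧) : Cv a e X X = R a e 2 - R a e 1 ^ 2 := by
  unfold Cv
  rw [← pow_two, Ex_X_sq, Ex_X]
  ring

end H95L
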