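import Pool.Agent.Lib.H95L.P2
import Pool.Agent.Lib.H95L.M2

/-!
# Chunk P3: the inequality along the segment

Let `F t = log (Y_0(t))`, `Y_0(t) > 0` (`Pr.hy`, `Y_pos`), `Δ = J (e1 - e0)`.
`F' = Y_0'/Y_0 = (∑ Δ_l Y_l)/Y_0 = ⟨Δ⟩_t` (`Y_deriv` at `k = 0`, `Ex_eq`), and
`F'' = (∑ (Δ^2)_m Y_m)/Y_0 - (∑ Δ_l Y_l)^2/Y_0^2 = ⟨Δ^2⟩ - ⟨Δ⟩^2 = Cv_t Δ Δ` (`Yf_deriv` with
`f = Δ`, quotient rule `HasDerivAt.div`). Then `taylor2`.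
-/

namespace H95L

open Finset PowerSeries

variable {n : ℕ} {a B : ℝ} {e0 e1 : ℝ⟦X⟧}

theorem path_le (h : Pr n a e0 e1)
    (hB : ∀ t ∈ Set.Icc (0 : ℝ) 1,
      Cv a (pt e0 e1 t) (J (e1 - e0)) (J (e1 - e0)) ≤ B) :
    Real.log (Y a e1 0) ≤ Real.log (Y a e0 0) + Ex a e0 (J (e1 - e0)) + B / 2 := by
  have hsub : ∀ t ∈ Set.Icc (0 : ℝ) 1, t ∈ Set.Ioo (-1 : ℝ) 2 := fun t ht =>
    ⟨by linarith [ht.1], by linarith [ht.2]⟩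
  have hd0 : ∀ t ∈ Set.Icc (0 : ℝ) 1, HasDerivAt (fun t => Y a (pt e0 e1 t) 0)
      (∑' l, coeff l (J (e1 - e0)) * Y a (pt e0 e1 t) l) t := by
    intro t ht
    have h1 := Y_deriv h (hsub t ht) 0
    simp only [zero_add] at h1
    exact h1
  have hpos : ∀ t ∈ Set.Icc (0 : ℝ) 1, 0 < Y a (pt e0 e1 t) 0 := fun t ht =>
    Y_pos (h.hy (hsub t ht)) 0
  have h1 : ∀ t ∈ Set.Icc (0 : ℝ) 1, HasDerivAt (fun t => Real.log (Y a (pt e0 e1 t) 0))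
      (Ex a (pt e0 e1 t) (J (e1 - e0))) t := by
    intro t ht
    refine ((hd0 t ht).log (hpos t ht).ne').congr_deriv ?_
    rw [Ex_eq]
  have h2 : ∀ t ∈ Set.Icc (0 : ℝ) 1, HasDerivAt (fun t => Ex a (pt e0 e1 t) (J (e1 - e0)))
      (Cv a (pt e0 e1 t) (J (e1 - e0)) (J (e1 - e0))) t := by
    intro t ht
    have h3 := (Yf_deriv h (Nb_Delta h).2 (hsub t ht)).fun_div (hd0 t ht) (hpos t ht).ne'
    have h4 : (fun t => Ex a (pt e0 e1 t) (J (e1 - e0))) = fun t =>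
        (∑' k, coeff k (J (e1 - e0)) * Y a (pt e0 e1 t) k) / Y a (pt e0 e1 t) 0 := by
      funext s
      exact Ex_eq _ _ _
    rw [h4]
    refine h3.congr_deriv ?_
    have h5 := (hpos t ht).ne'
    rw [Cv, Ex_eq, Ex_eq]
    field_simp
  have h3 := taylor2 h1 h2 hB
  simp only [pt_zero, pt_one] at h3
  exact h3

end H95L
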