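import Pool.Agent.Lib.H95L.H3
import Pool.Agent.Lib.H95L.C7
import Pool.Agent.Lib.H95L.M3
import Pool.Agent.Lib.H95L.P3

/-!
# Chunk H4: the supporting line inequality for partitions

`hull`. `Pr n a (ev T) (ev ν)` (`ev_const`, `Nb_ev`). With `E = EE ν - EE T`, `Δ = J (ev ν - ev T)
= E • J (gT s) + J (SS s ν)` (`ev_sub`, `J_add`, `J_smul`). For `t ∈ [0,1]` apply `Cv_Delta` with
`G = gT s` (`Nb_gT` at `r = ρ`: `6 s ρ^2 ≤ ρ/16` as `s ρ ≤ n ρ ≤ 1/96`, and `4 s ρ ≤ 1/12`),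
`S = J (SS s ν)` (`coeff_zero_J`, `D_J`, `SS_norm`), `Ω = Om s ν` (`Om_nonneg`, `Om_le`),
`|E| ≤ n^2/2` (`EE_nonneg`, `EE_le`). So `B = -(2/5) E^2 ρ^3 + Ω ρ^2/1000` in `path_le`, and
`⟨Δ⟩ = E ⟨J (gT s)⟩ + ⟨J (SS s ν)⟩ ≤ E λ - (1/3) Ω ρ^2` (`Ex_add`, `Ex_smul`, `SS_sign`).
Total: `log Y^ν ≤ log Y^T + λ E - (1/3) Ω ρ^2 + B/2`, and `1/3 - 1/2000 ≥ 1/4`.

`lam_nonneg`: `J (gT s) = X + J (gT s - X)`, `⟨X⟩ = R_1` (`Ex_X`) and
`|⟨J (gT s - X)⟩| ≤ ∑ |.| R_k ≤ (R_1/ρ)(ρ/16) ≤ R_1` (`Ex_abs_coeff`, `Nb_J`).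
-/

namespace H95L

open Finset PowerSeries

variable {n s : ℕ} {a : ℝ}

theorem h4_pr (hn : 1 ≤ n) (ha : 99 * (n : ℝ) ≤ a) (T ν : Multiset ℕ) (hTn : T.sum = n)
    (hν : ν.sum = n) : Pr n a (ev T) (ev ν) :=
  ⟨hn, ha, ev_const T, ev_const ν, Nb_ev hn ha T hTn, Nb_ev hn ha ν hν⟩

theorem h4_hy (hn : 1 ≤ n) (ha : 99 * (n : ℝ) ≤ a) (T : Multiset ℕ) (hTn : T.sum = n) :
    Hy n a (ev T) := by
  have hn' : (1 : ℝ) ≤ n := by exact_mod_cast hn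
  exact ⟨hn, ha, ev_const T, (Nb_ev hn ha T hTn).mono (by linarith)⟩

theorem h4_rho (hn : 1 ≤ n) (ha : 99 * (n : ℝ) ≤ a) : (n : ℝ) * rho a ≤ 1 / 96 := by
  have hn' : (1 : ℝ) ≤ n := by exact_mod_cast hn
  have ha' : 0 < a := by linarith
  rw [rho, mul_div_assoc', div_le_div_iff₀ (by positivity) (by norm_num)]
  linarith

theorem h4_g (hn : 1 ≤ n) (ha : 99 * (n : ℝ) ≤ a) (hs : 2 ≤ s) (hsn : s ≤ n) :
    Nb (rho a) (gT s - X) (rho a / 16) := by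
  have hn' : (1 : ℝ) ≤ n := by exact_mod_cast hn
  have hr := (rho_pos (a := a) (by linarith))
  have h1 := h4_rho hn ha
  have h2 : (s : ℝ) ≤ n := by exact_mod_cast hsn
  have h3 : (s : ℝ) * rho a ≤ 1 / 96 := (mul_le_mul_of_nonneg_right h2 hr.le).trans h1
  refine (Nb_gT s hs (rho a) hr.le (by linarith)).mono ?_
  nlinarith

theorem hull (hn : 1 ≤ n) (ha : 99 * (n : ℝ) ≤ a) (hs : 2 ≤ s) (hsn : s ≤ n)
    (T ν : Multiset ℕ) (hTn : T.sum = n) (hν : ν.sum = n)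
    (hT : ∀ m ∈ T, m = 0 ∨ m = s - 1 ∨ m = s) :
    Real.log (Y a (ev ν) 0) ≤ Real.log (Y a (ev T) 0) +
      Ex a (ev T) (J (gT s)) * (EE ν - EE T) - 1 / 5 * (EE ν - EE T) ^ 2 * rho a ^ 3
        - 1 / 4 * (Om s ν * rho a ^ 2) := by
  have hn' : (1 : ℝ) ≤ n := by exact_mod_cast hn
  have hr := (rho_pos (a := a) (by linarith))
  have hs1 : 1 ≤ s := by omega
  have hP := h4_pr hn ha T ν hTn hν
  have hy := h4_hy hn ha T hTn
  have hg := h4_g hn ha hs hsn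
  have hΔ : J (ev ν - ev T) = (EE ν - EE T) • J (gT s) + J (SS s ν) := by
    rw [ev_sub hs1 T ν hTn hν hT, J_add, J_smul]
  have hSn := SS_norm hn ha hs hsn ν hν
  have hE : |EE ν - EE T| ≤ (n : ℝ) ^ 2 / 2 := by
    have h1 := EE_le ν
    have h2 := EE_le T
    have h3 := EE_nonneg ν
    have h4 := EE_nonneg T
    rw [hν] at h1
    rw [hTn] at h2
    rw [abs_le]
    constructor <;> linarith
  have hB : ∀ t ∈ Set.Icc (0 : ℝ) 1,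
      Cv a (pt (ev T) (ev ν) t) (J (ev ν - ev T)) (J (ev ν - ev T)) ≤
        -(2 / 5) * (EE ν - EE T) ^ 2 * rho a ^ 3 + Om s ν * rho a ^ 2 / 1000 := by
    intro t ht
    have hyt := hP.hy (t := t) ⟨by linarith [ht.1], by linarith [ht.2]⟩
    rw [hΔ]
    refine Cv_Delta hyt (gT s) hg (gT_const s) (J (SS s ν)) (coeff_zero_J _) _ _ (Om_nonneg s ν)
      hE (Om_le hs1 hsn ν hν) ?_
    rw [D_J (SS_const s ν)]
    exact hSn
  have h1 := path_le hP hB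
  have hgT : Nb (rho a) (gT s) (rho a / 16 + rho a) := by
    have h2 := hg.add (Nb_X hr.le) hr.le
    rw [sub_add_cancel] at h2
    exact h2
  rw [hΔ, Ex_add hy ((Nb_J hgT hr.le).smul _) (Nb_J hSn hr.le), Ex_smul] at h1
  have h2 := SS_sign hy hs hsn ν hν
  have h3 : 0 ≤ Om s ν * rho a ^ 2 := mul_nonneg (Om_nonneg s ν) (sq_nonneg _)
  linarith

theorem lam_nonneg (hn : 1 ≤ n) (ha : 99 * (n : ℝ) ≤ a) (hs : 2 ≤ s) (hsn : s ≤ n)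
    (T : Multiset ℕ) (hTn : T.sum = n) : 0 ≤ Ex a (ev T) (J (gT s)) := by
  have hn' : (1 : ℝ) ≤ n := by exact_mod_cast hn
  have hr := (rho_pos (a := a) (by linarith))
  have hy := h4_hy hn ha T hTn
  have hg := h4_g hn ha hs hsn
  have hJg := Nb_J hg hr.le
  have h1 : J (gT s) = J (gT s - X) + X := by
    rw [J_sub, J_X, sub_add_cancel]
  rw [h1, Ex_add hy hJg (Nb_X hr.le), Ex_X]
  have h2 := Ex_abs_coeff hy hJg (coeff_zero_J _)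
  have h3 : |Ex a (ev T) (J (gT s - X))| ≤ ∑' k, |coeff k (J (gT s - X))| * R a (ev T) k := by
    unfold Ex
    have h4 := norm_tsum_le_tsum_norm (Ex_summable hy hJg).norm
    rw [Real.norm_eq_abs] at h4
    refine h4.trans (le_of_eq (tsum_congr fun k => ?_))
    rw [Real.norm_eq_abs, abs_mul, abs_of_pos (R_pos hy k)]
  have h4 : R a (ev T) 1 / rho a * (rho a / 16) = R a (ev T) 1 / 16 := by
    field_simp
  rw [h4] at h2
  have h5 := R_pos hy 1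
  have h6 := (abs_le.1 (h3.trans h2)).1
  linarith

theorem Y_ev_pos (hn : 1 ≤ n) (ha : 99 * (n : ℝ) ≤ a) (ν : Multiset ℕ) (hν : ν.sum = n) :
    0 < Y a (ev ν) 0 := Y_pos (h4_hy hn ha ν hν) 0

end H95L
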