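import Pool.Agent.Lib.H95L.S3
import Pool.Agent.Lib.H95L.K1

/-!
# Chunk K2: the derivative recursion `K_{m+1} = (1 + m X) K_m - X D K_m`

Strong induction on `m`. `m = 0`: `K_1 = K_0 = 1` (`KR_succ 0`, `KR_zero`), `D 1 = 0`.
`m ≥ 1`: by `KR_succ (m-1)`, `K_m = ∑_{i<m} C(m-1,i) X^i K_{m-1-i}`. Apply `X D`:
`D (X^i K) = i X^i K + X^i D K`, and by induction `X D K_j = (1 + j X) K_j - K_{j+1}` for
`j = m-1-i < m`. Hence
`X D K_m = ∑_{i<m} C(m-1,i) [ i X^{i+1} K_j + X^i K_j + j X^{i+1} K_j - X^i K_{m-i} ]`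
`= (m-1) X K_m + K_m - ∑_{i<m} C(m-1,i) X^i K_{m-i}` because `i + j = m - 1`. So
`(1 + m X) K_m - X D K_m = X K_m + ∑_{i<m} C(m-1,i) X^i K_{m-i}`
`= ∑_{i<m} C(m-1,i) X^{i+1} K_{m-1-i} + ∑_{i<m} C(m-1,i) X^i K_{m-i}`, and by Pascal's rule
(`Nat.choose_succ_succ`, `Finset.sum_range_succ'` for the term `i = 0` of `KR_succ m`, and
`C(m-1, m) = 0` for the term `i = m`) this is `K_{m+1}`.
It is convenient to prove first
`k2_pascal : KR (m+2) = ∑_{i ∈ range (m+1)} C(m,i) • (X^i * KR (m+1-i)) + X * KR (m+1)`.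
-/

namespace H95L

open Finset PowerSeries

theorem k2_pascal (m : ℕ) : KR (m + 2) =
    ∑ i ∈ range (m + 1), (m.choose i : ℝ) • (X ^ i * KR (m + 1 - i)) + X * KR (m + 1) := by
  have h1 : KR (m + 2) = ∑ i ∈ range (m + 1), ((m + 1).choose (i + 1) : ℝ) • (X ^ (i + 1) * KR (m - i))
      + KR (m + 1) := by
    rw [KR_succ (m + 1), Finset.sum_range_succ']
    simp only [Nat.choose_zero_right, Nat.cast_one, one_smul, pow_zero, one_mul, Nat.sub_zero]
    congr 1
    refine Finset.sum_congr rfl fun i _ => ?_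
    rw [show m + 1 - (i + 1) = m - i by omega]
  have h2 : ∑ i ∈ range (m + 1), ((m + 1).choose (i + 1) : ℝ) • (X ^ (i + 1) * KR (m - i)) =
      ∑ i ∈ range (m + 1), ((m.choose i : ℝ) • (X ^ (i + 1) * KR (m - i))) +
      ∑ i ∈ range (m + 1), ((m.choose (i + 1) : ℝ) • (X ^ (i + 1) * KR (m - i))) := by
    rw [← Finset.sum_add_distrib]
    refine Finset.sum_congr rfl fun i _ => ?_
    rw [← add_smul, Nat.choose_succ_succ]
    push_cast
    rfl
  have h3 : ∑ i ∈ range (m + 1), ((m.choose i : ℝ) • (X ^ (i + 1) * KR (m - i))) = X * KR (m + 1) := by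
    rw [KR_succ m, Finset.mul_sum]
    refine Finset.sum_congr rfl fun i _ => ?_
    rw [mul_smul_comm, pow_succ]
    congr 1
    ring
  have h4 : ∑ i ∈ range (m + 1), ((m.choose (i + 1) : ℝ) • (X ^ (i + 1) * KR (m - i))) + KR (m + 1) =
      ∑ i ∈ range (m + 1), (m.choose i : ℝ) • (X ^ i * KR (m + 1 - i)) := by
    have h5 : ∑ i ∈ range (m + 2), (m.choose i : ℝ) • (X ^ i * KR (m + 1 - i)) =
        ∑ i ∈ range (m + 1), (m.choose i : ℝ) • (X ^ i * KR (m + 1 - i)) := by
      rw [Finset.sum_range_succ _ (m + 1), Nat.choose_succ_self]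
      simp
    rw [← h5, Finset.sum_range_succ' _ (m + 1)]
    simp only [Nat.choose_zero_right, Nat.cast_one, one_smul, pow_zero, one_mul, Nat.sub_zero]
    congr 1
    refine Finset.sum_congr rfl fun i _ => ?_
    rw [show m + 1 - (i + 1) = m - i by omega]
  rw [h1, h2, h3, ← h4]
  ring

theorem k2_D_zero : D (0 : ℝ⟦X⟧) = 0 := by
  have := D_sub (0 : ℝ⟦X⟧) 0
  simpa using this

theorem k2_D_sum {ι : Type*} (s : Finset ι) (f : ι → ℝ⟦X⟧) : D (∑ i ∈ s, f i) = ∑ i ∈ s, D (f i) := by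
  classical
  induction s using Finset.induction_on with
  | empty => simp [k2_D_zero]
  | insert a s ha ih => rw [Finset.sum_insert ha, Finset.sum_insert ha, D_add, ih]

theorem k2_D_pow (i : ℕ) : D (X ^ i : ℝ⟦X⟧) = (i : ℝ) • X ^ i := by
  ext k
  rw [coeff_D, coeff_smul, coeff_X_pow]
  split_ifs with h
  · rw [h]; simp
  · simp

theorem KR_deriv (m : ℕ) :
    KR (m + 1) = (1 + (m : ℝ) • X) * KR m - X * D (KR m) := by
  induction m using Nat.strong_induction_on with
  | _ m ih =>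
    rcases m with _ | m
    · have h0 : KR 1 = KR 0 := by
        rw [KR_succ 0]
        simp
      rw [h0, KR_zero, D_one]
      simp
    · have hj : ∀ i ∈ range (m + 1), X * D ((m.choose i : ℝ) • (X ^ i * KR (m - i))) =
          (m : ℝ) • (X * ((m.choose i : ℝ) • (X ^ i * KR (m - i)))) + (m.choose i : ℝ) • (X ^ i * KR (m - i)) -
          (m.choose i : ℝ) • (X ^ i * KR (m + 1 - i)) := by
        intro i hi
        have hi' : i ≤ m := by
          have := Finset.mem_range.1 hi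
          omega
        have h1 := ih (m - i) (by omega)
        have h2 : m - i + 1 = m + 1 - i := by omega
        rw [h2] at h1
        have h3 : X * D (KR (m - i)) = (1 + ((m - i : ℕ) : ℝ) • X) * KR (m - i) - KR (m + 1 - i) := by
          rw [h1]; ring
        have h4 : ((m - i : ℕ) : ℝ) = (m : ℝ) - i := by
          rw [Nat.cast_sub hi']
        rw [D_smul, D_mul, k2_D_pow]
        have h5 : X * (((i : ℝ) • X ^ i) * KR (m - i) + X ^ i * D (KR (m - i))) =
            (i : ℝ) • (X * (X ^ i * KR (m - i))) + X ^ i * (X * D (KR (m - i))) := by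
          simp only [smul_eq_C_mul]
          ring
        rw [mul_smul_comm, h5, h3, h4]
        simp only [smul_eq_C_mul, map_sub]
        ring
      have h1 : X * D (KR (m + 1)) = (m : ℝ) • (X * KR (m + 1)) + KR (m + 1) -
          ∑ i ∈ range (m + 1), (m.choose i : ℝ) • (X ^ i * KR (m + 1 - i)) := by
        conv_lhs => rw [KR_succ m]
        rw [k2_D_sum, Finset.mul_sum, Finset.sum_congr rfl hj, Finset.sum_sub_distrib, Finset.sum_add_distrib,
          ← Finset.smul_sum, ← Finset.mul_sum, ← KR_succ m]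
      rw [k2_pascal, h1]
      push_cast
      simp only [smul_eq_C_mul, map_add, map_one]
      ring

end H95L
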