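import Pool.Agent.Lib.H95L.K2

/-!
# Chunk K3: algebra of `c_m`, `A_m`, `q_m`

`K = KR m` has constant coefficient `1`, so `K * K⁻¹ = 1`.

* `cc_mul`: `KR (m+1) = cc m * KR m`. `cc_const`: constant coefficient `1`.
* `cc_eq`: multiply `KR_deriv` by `(KR m)⁻¹`; `AA m = D (KR m) * (KR m)⁻¹`.
* `AA_zero`: `KR 0 = 1`, `et_one`. `AA_succ`: `et_mul` and `cc_mul`. `AA_sum`: induction.
* `cc_succ_sub`: `cc_eq` at `m + 1` and `m`, `AA_succ`:
  `cc (m+1) - cc m = X - X (A_{m+1} - A_m)`.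
* `cc_d2`: difference of `cc_succ_sub` at `m + 1` and `m`.
* `et_qq`: `et_mul`, `et_inv`. `qq_const`.
-/

namespace H95L

open Finset PowerSeries

theorem k3_ne (m : ℕ) : constantCoeff (KR m) ≠ 0 := by
  rw [KR_const]; exact one_ne_zero

theorem cc_mul (m : ℕ) : KR (m + 1) = cc m * KR m := by
  rw [cc, mul_assoc, PowerSeries.inv_mul_cancel _ (k3_ne m), mul_one]

theorem cc_const (m : ℕ) : constantCoeff (cc m) = 1 := by
  rw [cc, map_mul, constantCoeff_inv, KR_const, KR_const]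
  simp

theorem k3_cc_ne (m : ℕ) : constantCoeff (cc m) ≠ 0 := by
  rw [cc_const]; exact one_ne_zero

theorem cc_eq (m : ℕ) : cc m = 1 + (m : ℝ) • X - X * AA m := by
  have h := PowerSeries.mul_inv_cancel (KR m) (k3_ne m)
  rw [cc, KR_deriv, AA, et]
  linear_combination (1 + (m : ℝ) • X : ℝ⟦X⟧) * h

theorem AA_zero : AA 0 = 0 := by
  rw [AA, KR_zero, et_one]

theorem AA_succ (m : ℕ) : AA (m + 1) = AA m + et (cc m) := by
  rw [AA, AA, cc_mul, et_mul (k3_cc_ne m) (k3_ne m), add_comm]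

theorem AA_sum (m : ℕ) : AA m = ∑ i ∈ range m, et (cc i) := by
  induction m with
  | zero => rw [AA_zero]; simp
  | succ m ih => rw [AA_succ, ih, Finset.sum_range_succ]

theorem coeff_zero_AA (m : ℕ) : coeff 0 (AA m) = 0 := coeff_zero_et _

theorem cc_succ_sub (m : ℕ) : cc (m + 1) - cc m = X - X * et (cc m) := by
  rw [cc_eq (m + 1)]
  conv_lhs => rw [cc_eq m]
  rw [AA_succ]
  push_cast
  rw [add_smul, one_smul]
  ring

theorem cc_d2 (m : ℕ) : (cc (m + 2) - cc (m + 1)) - (cc (m + 1) - cc m) =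
    -(X * (et (cc (m + 1)) - et (cc m))) := by
  rw [cc_succ_sub (m + 1), cc_succ_sub m]
  ring

theorem qq_const (m : ℕ) : constantCoeff (qq m) = 1 := by
  simp [qq, cc_const, constantCoeff_inv]

theorem k3_inv_ne {f : ℝ⟦X⟧} (h : constantCoeff f ≠ 0) : constantCoeff f⁻¹ ≠ 0 := by
  rw [constantCoeff_inv]
  exact inv_ne_zero h

theorem k3_mul_ne {f g : ℝ⟦X⟧} (h : constantCoeff f ≠ 0) (h' : constantCoeff g ≠ 0) :
    constantCoeff (f * g) ≠ 0 := by
  rw [map_mul]
  exact mul_ne_zero h h'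

theorem et_qq (m : ℕ) :
    et (qq m) = et (cc (m + 2)) - (2 : ℝ) • et (cc (m + 1)) + et (cc m) := by
  have h0 := k3_cc_ne m
  have h1 := k3_cc_ne (m + 1)
  have h2 := k3_cc_ne (m + 2)
  rw [qq, et_mul (k3_mul_ne h2 h0) (k3_mul_ne (k3_inv_ne h1) (k3_inv_ne h1)), et_mul h2 h0,
    et_mul (k3_inv_ne h1) (k3_inv_ne h1), et_inv h1, two_smul]
  ring

/-- `K_{m-i} / K_m` is the product of the inverses of `c_{m-i}, ..., c_{m-1}` -/
theorem KR_div (m i : ℕ) (hi : i ≤ m) :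
    KR (m - i) * (KR m)⁻¹ = ∏ j ∈ range i, (cc (m - i + j))⁻¹ := by
  induction i with
  | zero => simpa using PowerSeries.mul_inv_cancel (KR m) (k3_ne m)
  | succ i ih =>
    rw [Finset.prod_range_succ']
    have h1 : m - (i + 1) + 1 = m - i := by omega
    have h2 : ∀ j, m - (i + 1) + (j + 1) = m - i + j := by intro j; omega
    simp only [h2, add_zero]
    rw [← ih (by omega)]
    have h3 := cc_mul (m - (i + 1))
    rw [h1] at h3
    rw [h3]
    have h4 := PowerSeries.mul_inv_cancel (cc (m - (i + 1))) (k3_cc_ne _)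
    linear_combination (-(KR (m - (i + 1)) * (KR m)⁻¹) : ℝ⟦X⟧) * h4

theorem cc_sub_one (m : ℕ) : cc m - 1 = ∑ i ∈ range m,
    (m.choose (i + 1) : ℝ) • (X ^ (i + 1) * ∏ j ∈ range (i + 1), (cc (m - (i + 1) + j))⁻¹) := by
  have h := PowerSeries.mul_inv_cancel (KR m) (k3_ne m)
  rw [cc, KR_succ, Finset.sum_range_succ']
  simp only [Nat.choose_zero_right, Nat.cast_one, one_smul, pow_zero, one_mul, Nat.sub_zero]
  rw [add_mul, h, add_sub_cancel_right, Finset.sum_mul]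
  refine Finset.sum_congr rfl fun i hi => ?_
  have hi' := Finset.mem_range.1 hi
  rw [← KR_div m (i + 1) (by omega), smul_mul_assoc, mul_assoc]

end H95L
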