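import Pool.Agent.Lib.H95L.L1

/-!
# Chunk L2: absolute convergence and the convolution formula

* `sum_bound`: `|s_j W_{j+k}| ≤ C (2ρ)^{-j} a^{-(j+k)} = C a^{-k} (16/33)^j` (`W_le`, `inv_a`);
  geometric series with the sum `33/17 ≤ 2`.
* `Y_summable`, `Y_abs_le`: the case `s = sg e`, `C = 2^n` (`sg_bound`).
* `conv_bound`: `|∑_{l+i=j} θ_l s_i| ≤ ∑ |θ_l| C (2ρ)^{-i} = C (2ρ)^{-j} ∑_l |θ_l| (2ρ)^l`.
* `conv`: the family `(l, i) ↦ θ_l s_i W_{l+i+k}` is absolutely summable over `ℕ × ℕ`: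
  `|θ_l s_i W_{l+i+k}| ≤ |θ_l| (2ρ)^l (16/33)^l · C (16/33)^i a^{-k}` (product of two summable
  families, `Summable.mul_of_nonneg`). Summing first over `i` gives the left side
  (`Summable.tsum_prod`, `HasSum`), summing over the antidiagonals gives the right side
  (`Finset.sigmaAntidiagonalEquivProd`, `summable_sum_mul_antidiagonal...` or
  `HasSum.sigma`). Note `W a (i + (k + l)) = W a ((l + i) + k)`.
-/

namespace H95L

open Finset PowerSeries

variable {n : ℕ} {a C C' : ℝ} {e θ : ℝ⟦X⟧} {s : ℕ → ℝ}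

theorem l2_C (hs : ∀ j, |s j| ≤ C * ((2 * rho a)⁻¹) ^ j) : 0 ≤ C := by
  have := (abs_nonneg _).trans (hs 0)
  simpa using this

theorem l2_x (ha : 0 < a) : (2 * rho a)⁻¹ * a⁻¹ = 16 / 33 := by
  have h1 := rho_pos ha
  have h2 := inv_a ha
  rw [h2]
  field_simp

theorem l2_term (ha : 0 < a) (hs : ∀ j, |s j| ≤ C * ((2 * rho a)⁻¹) ^ j) (k j : ℕ) :
    |s j * W a (j + k)| ≤ C * (a⁻¹) ^ k * (16 / 33) ^ j := by
  have h1 := W_le ha (j + k)
  have h2 := (W_pos ha (j + k)).le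
  have h3 := rho_pos ha
  have h4 := l2_C hs
  rw [abs_mul, abs_of_nonneg h2]
  calc |s j| * W a (j + k) ≤ (C * ((2 * rho a)⁻¹) ^ j) * (a⁻¹) ^ (j + k) :=
        mul_le_mul (hs j) h1 h2 (by positivity)
    _ = C * (a⁻¹) ^ k * ((2 * rho a)⁻¹ * a⁻¹) ^ j := by
      rw [pow_add, mul_pow]
      ring
    _ = C * (a⁻¹) ^ k * (16 / 33) ^ j := by rw [l2_x ha]

theorem sum_bound (ha : 0 < a) (hs : ∀ j, |s j| ≤ C * ((2 * rho a)⁻¹) ^ j) (k : ℕ) :
    (Summable fun j => |s j * W a (j + k)|) ∧ ∑' j, |s j * W a (j + k)| ≤ 2 * C * (a⁻¹) ^ k := by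
  have h4 := l2_C hs
  have hg : HasSum (fun j : ℕ => C * (a⁻¹) ^ k * (16 / 33 : ℝ) ^ j) (C * (a⁻¹) ^ k * (1 - 16 / 33)⁻¹) :=
    (hasSum_geometric_of_lt_one (by norm_num) (by norm_num)).mul_left _
  have hsum : Summable fun j => |s j * W a (j + k)| :=
    Summable.of_nonneg_of_le (fun j => abs_nonneg _) (l2_term ha hs k) hg.summable
  refine ⟨hsum, ?_⟩
  have h5 := hsum.tsum_le_tsum (l2_term ha hs k) hg.summable
  rw [hg.tsum_eq] at h5
  refine h5.trans ?_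
  have h6 : 0 ≤ C * (a⁻¹) ^ k := by positivity
  have h7 : ((1 : ℝ) - 16 / 33)⁻¹ ≤ 2 := by norm_num
  nlinarith

theorem sum_bound' (ha : 0 < a) (hs : ∀ j, |s j| ≤ C * ((2 * rho a)⁻¹) ^ j) (k : ℕ) :
    |∑' j, s j * W a (j + k)| ≤ 2 * C * (a⁻¹) ^ k := by
  obtain ⟨h1, h2⟩ := sum_bound ha hs k
  have h3 := norm_tsum_le_tsum_norm (f := fun j => s j * W a (j + k)) (by simpa only [Real.norm_eq_abs] using h1)
  simp only [Real.norm_eq_abs] at h3
  exact h3.trans h2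

theorem Y_summable (h : Hy n a e) (k : ℕ) : Summable fun j => sg e j * W a (j + k) :=
  (sum_bound h.a_pos (sg_bound h) k).1.of_norm_bounded_eventually_nat
    (Filter.Eventually.of_forall fun j => le_of_eq (Real.norm_eq_abs _))

theorem Y_abs_le (h : Hy n a e) (k : ℕ) : |Y a e k| ≤ 2 * 2 ^ n * (a⁻¹) ^ k :=
  sum_bound' h.a_pos (sg_bound h) k

theorem conv_bound (ha : 0 < a) (hs : ∀ j, |s j| ≤ C * ((2 * rho a)⁻¹) ^ j)
    (hθ : Nb (2 * rho a) θ C') (j : ℕ) :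
    |∑ p ∈ antidiagonal j, coeff p.1 θ * s p.2| ≤ C * C' * ((2 * rho a)⁻¹) ^ j := by
  have hr := rho_pos ha
  have h4 := l2_C hs
  refine (Finset.abs_sum_le_sum_abs _ _).trans ?_
  have h1 : ∀ p ∈ antidiagonal j, |coeff p.1 θ * s p.2| ≤
      C * ((2 * rho a)⁻¹) ^ j * (|coeff p.1 θ| * (2 * rho a) ^ p.1) := by
    intro p hp
    rw [HasAntidiagonal.mem_antidiagonal] at hp
    rw [abs_mul]
    calc |coeff p.1 θ| * |s p.2| ≤ |coeff p.1 θ| * (C * ((2 * rho a)⁻¹) ^ p.2) :=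
          mul_le_mul_of_nonneg_left (hs p.2) (abs_nonneg _)
      _ = C * ((2 * rho a)⁻¹) ^ j * (|coeff p.1 θ| * (2 * rho a) ^ p.1) := by
        have h2 : ((2 * rho a)⁻¹) ^ j * (2 * rho a) ^ p.1 = ((2 * rho a)⁻¹) ^ p.2 := by
          rw [← hp, pow_add, mul_comm (((2 * rho a)⁻¹) ^ p.1), mul_assoc, ← mul_pow,
            inv_mul_cancel₀ (by positivity), one_pow, mul_one]
        rw [← h2]
        ring
  refine (Finset.sum_le_sum h1).trans ?_
  rw [← Finset.mul_sum, Finset.Nat.sum_antidiagonal_eq_sum_range_succ_mk]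
  have h3 := hθ (j + 1)
  calc C * ((2 * rho a)⁻¹) ^ j * ∑ k ∈ range j.succ, |coeff k θ| * (2 * rho a) ^ k
      ≤ C * ((2 * rho a)⁻¹) ^ j * C' := mul_le_mul_of_nonneg_left h3 (by positivity)
    _ = C * C' * ((2 * rho a)⁻¹) ^ j := by ring

theorem conv (ha : 0 < a) (hs : ∀ j, |s j| ≤ C * ((2 * rho a)⁻¹) ^ j)
    (hθ : Nb (2 * rho a) θ C') (k : ℕ) :
    HasSum (fun l => coeff l θ * ∑' j, s j * W a (j + (k + l)))
      (∑' j, (∑ p ∈ antidiagonal j, coeff p.1 θ * s p.2) * W a (j + k)) := by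
  have hr := rho_pos ha
  have h4 := l2_C hs
  obtain ⟨F, hF⟩ : ∃ F : ℕ × ℕ → ℝ, F = fun p => coeff p.1 θ * s p.2 * W a (p.1 + p.2 + k) := ⟨_, rfl⟩
  have hθs : Summable fun l : ℕ => |coeff l θ| * (2 * rho a) ^ l :=
    summable_of_sum_range_le (fun l => by positivity) hθ
  have hgs : Summable fun i : ℕ => (16 / 33 : ℝ) ^ i := summable_geometric_of_lt_one (by norm_num) (by norm_num)
  have hprod := (hθs.mul_of_nonneg hgs (fun l => by positivity) (fun i => by positivity)).mul_left (C * (a⁻¹) ^ k)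
  have hFs : Summable F := by
    refine Summable.of_norm_bounded hprod fun p => ?_
    rw [hF, Real.norm_eq_abs]
    simp only
    have hW := W_le ha (p.1 + p.2 + k)
    have hW0 := (W_pos ha (p.1 + p.2 + k)).le
    rw [abs_mul, abs_mul, abs_of_nonneg hW0]
    have h5 : ((2 * rho a)⁻¹) ^ p.2 * (a⁻¹) ^ (p.1 + p.2 + k) =
        (16 / 33) ^ p.1 * (2 * rho a) ^ p.1 * (16 / 33) ^ p.2 * (a⁻¹) ^ k := by
      rw [pow_add, pow_add]
      have h6 : (a⁻¹) ^ p.1 = (16 / 33) ^ p.1 * (2 * rho a) ^ p.1 := by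
        rw [inv_a ha, mul_pow]
      have h7 : ((2 * rho a)⁻¹) ^ p.2 * (a⁻¹) ^ p.2 = (16 / 33) ^ p.2 := by
        rw [← mul_pow, l2_x ha]
      rw [h6]
      linear_combination ((16 / 33) ^ p.1 * (2 * rho a) ^ p.1 * (a⁻¹) ^ k) * h7
    calc |coeff p.1 θ| * |s p.2| * W a (p.1 + p.2 + k)
        ≤ |coeff p.1 θ| * (C * ((2 * rho a)⁻¹) ^ p.2) * (a⁻¹) ^ (p.1 + p.2 + k) :=
          mul_le_mul (mul_le_mul_of_nonneg_left (hs p.2) (abs_nonneg _)) hW hW0 (by positivity)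
      _ = (16 / 33) ^ p.1 * (C * (a⁻¹) ^ k * (|coeff p.1 θ| * (2 * rho a) ^ p.1 * (16 / 33) ^ p.2)) := by
        linear_combination (|coeff p.1 θ| * C) * h5
      _ ≤ 1 * (C * (a⁻¹) ^ k * (|coeff p.1 θ| * (2 * rho a) ^ p.1 * (16 / 33) ^ p.2)) := by
        apply mul_le_mul_of_nonneg_right _ (by positivity)
        exact pow_le_one₀ (by norm_num) (by norm_num)
      _ = _ := one_mul _
  have h8 : HasSum (fun l => coeff l θ * ∑' j, s j * W a (j + (k + l))) (∑' p, F p) := by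
    refine hFs.hasSum.prod_fiberwise fun l => ?_
    have h9 := ((sum_bound ha hs (k + l)).1.of_norm_bounded_eventually_nat
      (f := fun j => s j * W a (j + (k + l))) (Filter.Eventually.of_forall fun j => le_of_eq (Real.norm_eq_abs _))).hasSum.mul_left (coeff l θ)
    have h9' : (fun i => F (l, i)) = fun i => coeff l θ * (s i * W a (i + (k + l))) := by
      funext i
      rw [hF]
      simp only
      rw [show l + i + k = i + (k + l) by ring]
      ring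
    rw [h9']
    exact h9
  have h10 : HasSum (fun j => ∑ p ∈ antidiagonal j, F p) (∑' p, F p) := by
    have h11 := ((Finset.HasAntidiagonal.sigmaAntidiagonalEquivProd (A := ℕ)).hasSum_iff (f := F)).2 hFs.hasSum
    exact h11.sigma fun j => Finset.hasSum (antidiagonal j) F
  have h12 : ∀ j, ∑ p ∈ antidiagonal j, F p = (∑ p ∈ antidiagonal j, coeff p.1 θ * s p.2) * W a (j + k) := by
    intro j
    rw [Finset.sum_mul]
    refine Finset.sum_congr rfl fun p hp => ?_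
    rw [HasAntidiagonal.mem_antidiagonal] at hp
    rw [hF]
    simp only
    rw [hp]
  simp only [h12] at h10
  rw [h10.tsum_eq]
  exact h8

end H95L
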