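import Pool.Agent.Lib.H95L.L2

/-!
# Chunk L3: the Schwinger-Dyson equation, and `Y_k ~ W_k`

* `Nb2`: `Nb (4ρ) e C → Nb (2ρ) e C` (`Nb.mono_rho`).
* `SD`. `W_{j+k} = (a + j + k + 1) W_{j+k+1}` (`W_succ`), so
  `Y_k = ∑_j σ_j W_{j+k} = (a+k+1) ∑_j σ_j W_{j+k+1} + ∑_j j σ_j W_{j+k+1}` (all sums converge
  absolutely: `Y_summable`, and `j σ_j = ∑_{l+i=j} e_l σ_i` by `sg_rec` with `conv_bound`,
  `sum_bound`), and the last sum is `∑_l e_l Y_{k+1+l}` by `conv` at `k + 1` with `θ = e`,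
  `s = sg e`.
* `Y_large`: `Y_k - W_k = ∑_{j≥1} σ_j W_{j+k}`, and
  `|σ_j W_{j+k}| ≤ 2^n (2ρ)^{-j} (a+k)^{-j} W_k` (`W_add_le`). Put `x = 1/(2ρ(a+k))`; for `k` large
  `x ≤ 1/(400·2^n) ≤ 1/2`, `∑_{j≥1} x^j ≤ 2x`, so `|Y_k - W_k| ≤ 2^n 2 x W_k ≤ W_k/100`.
  (`x → 0` because `k → ∞`: take `K = ⌈400·2^n/(2ρ)⌉₊`.)
-/

namespace H95L

open Finset PowerSeries

variable {n : ℕ} {a C : ℝ} {e : ℝ⟦X⟧}

theorem Nb2 (ha : 0 < a) (h : Nb (4 * rho a) e C) : Nb (2 * rho a) e C := by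
  have hr := rho_pos ha
  exact h.mono_rho (by positivity) (by linarith)

theorem SD (h : Hy n a e) (k : ℕ) :
    HasSum (fun l => coeff l e * Y a e (k + 1 + l)) (Y a e k - (a + k + 1) * Y a e (k + 1)) := by
  have ha := h.a_pos
  have h1 := conv ha (sg_bound h) (Nb2 ha h.hN) (k + 1)
  have h2 : ∑' j, (∑ p ∈ antidiagonal j, coeff p.1 e * sg e p.2) * W a (j + (k + 1)) =
      Y a e k - (a + k + 1) * Y a e (k + 1) := by
    unfold Y
    rw [← tsum_mul_left, ← (Y_summable h k).tsum_sub ((Y_summable h (k + 1)).mul_left _)]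
    refine tsum_congr (fun j => ?_)
    rw [← sg_rec h.h0, ← add_assoc j k 1, W_succ]
    have h3 : (a + ((j + k : ℕ) : ℝ) + 1) ≠ 0 := by positivity
    push_cast at h3 ⊢
    field_simp
    ring
  rw [h2] at h1
  exact h1

theorem Y_large (h : Hy n a e) : ∃ K : ℕ, ∀ k, K ≤ k → |Y a e k - W a k| ≤ W a k / 100 := by
  have ha := h.a_pos
  have hr := rho_pos ha
  refine ⟨⌈(2 * rho a)⁻¹ * (400 * 2 ^ n)⌉₊, fun k hk => ?_⟩
  have hk' : (2 * rho a)⁻¹ * (400 * 2 ^ n) ≤ k := Nat.ceil_le.1 hk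
  have hW := W_pos ha k
  have h2n : (1 : ℝ) ≤ 2 ^ n := one_le_pow₀ (by norm_num)
  obtain ⟨x, hx⟩ : ∃ x : ℝ, x = (2 * rho a)⁻¹ * (a + k)⁻¹ := ⟨_, rfl⟩
  have hak : 0 < a + k := by positivity
  have hx0 : 0 < x := by rw [hx]; positivity
  have hx1 : 2 ^ n * x ≤ 1 / 400 := by
    rw [hx]
    have h1 : 2 ^ n * ((2 * rho a)⁻¹ * (a + k)⁻¹) = (2 * rho a)⁻¹ * 2 ^ n / (a + k) := by
      field_simp
    rw [h1, div_le_iff₀ hak]
    linarith
  have hx2 : x ≤ 1 / 400 := by nlinarith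
  have h0 : sg e 0 * W a (0 + k) = W a k := by rw [sg_zero, zero_add, one_mul]
  have h1 : Y a e k - W a k = ∑' j, sg e (j + 1) * W a (j + 1 + k) := by
    unfold Y
    rw [(Y_summable h k).tsum_eq_zero_add, h0]
    ring
  have hle : ∀ j, ‖sg e (j + 1) * W a (j + 1 + k)‖ ≤ 2 ^ n * W a k * x * x ^ j := by
    intro j
    rw [Real.norm_eq_abs, abs_mul, abs_of_pos (W_pos ha _)]
    calc |sg e (j + 1)| * W a (j + 1 + k)
        ≤ (2 ^ n * ((2 * rho a)⁻¹) ^ (j + 1)) * (((a + k)⁻¹) ^ (j + 1) * W a k) :=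
          mul_le_mul (sg_bound h _) (W_add_le ha _ _) (W_pos ha _).le (by positivity)
      _ = 2 ^ n * W a k * x * x ^ j := by
          rw [hx]
          ring
  have hg := (hasSum_geometric_of_lt_one hx0.le (by linarith : x < 1)).mul_left
    (2 ^ n * W a k * x)
  have h2 := tsum_of_norm_bounded hg hle
  rw [Real.norm_eq_abs] at h2
  rw [h1]
  refine h2.trans ?_
  have h3 : (1 - x)⁻¹ ≤ 2 := by
    rw [inv_le_comm₀ (by linarith) (by norm_num)]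
    linarith
  have h4 : 0 ≤ 2 ^ n * W a k * x := by positivity
  calc 2 ^ n * W a k * x * (1 - x)⁻¹ ≤ 2 ^ n * W a k * x * 2 :=
        mul_le_mul_of_nonneg_left h3 h4
    _ = 2 * W a k * (2 ^ n * x) := by ring
    _ ≤ 2 * W a k * (1 / 400) := mul_le_mul_of_nonneg_left hx1 (by positivity)
    _ ≤ W a k / 100 := by linarith

end H95L
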