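import Pool.Agent.Lib.H95L.L3
import Pool.Agent.Lib.H95L.S3

/-!
# Chunk L4: positivity of `Y_k` and `Y_k / Y_{k+1} ≈ a + k + 1`

Norm of `e`: `Nb4` (chunk S3 is not imported; the two facts needed are restated and proved here):
`∑_{k<K} |e_k| ρ^k ≤ n/48` because `e_0 = 0` and `ρ^k ≤ (4ρ)^k/4` for `k ≥ 1`, and `n ≤ a/99`, so
`≤ a/4752 ≤ a/1000` (`l4_norm`). Similarly `∑_{k<K} k |e_k| ρ^k ≤ n/48`, as `k ρ^k ≤ (4ρ)^k/4`
(`l4_norm'`).

`Y_all`. Call `P k` the statement `0 < Y_k ∧ ∀ l, Y_{k+l} ≤ ρ^l Y_k ∧ 0 < Y_{k+l}`.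
(1) `P k` for `k ≥ K` (`Y_large`): `Y_k ∈ [0.99 W_k, 1.01 W_k]`, and for `l ≥ 1`
`Y_{k+l} ≤ 1.01 W_{k+l} ≤ 1.01 a^{-l} W_k ≤ (1.01/0.99) a^{-l} Y_k` and
`(1.01/0.99) a^{-l} ≤ ρ^l` because `ρ = (33/32)/a` and `33/32 ≥ 1.01/0.99`.
(2) `P (k+1) → P k`, together with the third statement: by `SD` and `l4_norm`
`|Y_k - (a+k+1) Y_{k+1}| ≤ ∑_l |e_l| Y_{k+1+l} ≤ (∑ |e_l| ρ^l) Y_{k+1} ≤ (a/1000) Y_{k+1}`
(`HasSum`, `norm_tsum_le_tsum_norm`, comparison with the summable `|e_l| ρ^l Y_{k+1}`). Hence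
`Y_k ≥ (a + k + 1 - a/1000) Y_{k+1} > 0` and `Y_{k+1} ≤ Y_k/((999/1000) a) ≤ ρ Y_k`
(`1000/999 ≤ 33/32`), so `Y_{k+1+l} ≤ ρ^l Y_{k+1} ≤ ρ^{l+1} Y_k`.
(3) downward induction from `K` (`Nat.decreasingInduction` or induction on `K - k`).
-/

namespace H95L

open Finset PowerSeries

variable {n : ℕ} {a : ℝ} {e : ℝ⟦X⟧}

theorem l4_norm (h : Hy n a e) : Nb (rho a) e (a / 1000) := by
  have ha := h.a_pos
  have h1 := Nb4 h.hN (rho_pos ha).le h.h0
  refine h1.mono ?_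
  have h2 := h.ha
  linarith

theorem l4_norm' (h : Hy n a e) (K : ℕ) :
    ∑ k ∈ range K, (k : ℝ) * |coeff k e| * rho a ^ k ≤ (n : ℝ) / 48 := by
  have ha := h.a_pos
  have h1 := Nb_D4 h.hN (rho_pos ha).le K
  refine le_trans (le_of_eq ?_) (h1.trans (le_of_eq (by ring)))
  refine sum_congr rfl (fun k _ => ?_)
  rw [coeff_D, abs_mul, Nat.abs_cast]

theorem l4_rho_inv (ha : 0 < a) : 1 ≤ rho a * (999 / 1000 * a) := by
  unfold rho
  rw [div_mul_eq_mul_div, le_div_iff₀ (by positivity)]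
  nlinarith

/-- the downward step -/
theorem l4_step (h : Hy n a e) (k : ℕ)
    (hk : ∀ l, 0 < Y a e (k + 1 + l) ∧ Y a e (k + 1 + l) ≤ rho a ^ l * Y a e (k + 1)) :
    |Y a e k - (a + k + 1) * Y a e (k + 1)| ≤ a / 1000 * Y a e (k + 1) := by
  have ha := h.a_pos
  have hr := (rho_pos ha).le
  have h1 := SD h k
  rw [← h1.tsum_eq]
  have hn := l4_norm h
  have hs : Summable fun l => |coeff l e| * rho a ^ l * Y a e (k + 1) :=
    (hn.summable hr).mul_right _
  have hle : ∀ l, ‖coeff l e * Y a e (k + 1 + l)‖ ≤ |coeff l e| * rho a ^ l * Y a e (k + 1) := by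
    intro l
    rw [Real.norm_eq_abs, abs_mul, abs_of_pos (hk l).1, mul_assoc]
    exact mul_le_mul_of_nonneg_left (hk l).2 (abs_nonneg _)
  have h2 := tsum_of_norm_bounded hs.hasSum hle
  rw [Real.norm_eq_abs] at h2
  refine h2.trans ?_
  rw [tsum_mul_right]
  have h3 : 0 < Y a e (k + 1) := by simpa using (hk 0).1
  exact mul_le_mul_of_nonneg_right (hn.tsum_le hr) h3.le

theorem l4_step' (h : Hy n a e) (k : ℕ)
    (hk : ∀ l, 0 < Y a e (k + 1 + l) ∧ Y a e (k + 1 + l) ≤ rho a ^ l * Y a e (k + 1)) :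
    ∀ l, 0 < Y a e (k + l) ∧ Y a e (k + l) ≤ rho a ^ l * Y a e k := by
  have ha := h.a_pos
  have hr := rho_pos ha
  have h1 := abs_le.1 (l4_step h k hk)
  have h3 : 0 < Y a e (k + 1) := by simpa using (hk 0).1
  have h4 : 999 / 1000 * a * Y a e (k + 1) ≤ Y a e k := by
    have h5 : 0 ≤ (k : ℝ) * Y a e (k + 1) := by positivity
    nlinarith [h1.1]
  have h5 : 0 < Y a e k := lt_of_lt_of_le (by positivity) h4
  have h6 : Y a e (k + 1) ≤ rho a * Y a e k := by
    calc Y a e (k + 1) = 1 * Y a e (k + 1) := (one_mul _).symm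
      _ ≤ (rho a * (999 / 1000 * a)) * Y a e (k + 1) :=
          mul_le_mul_of_nonneg_right (l4_rho_inv ha) h3.le
      _ = rho a * (999 / 1000 * a * Y a e (k + 1)) := by ring
      _ ≤ rho a * Y a e k := mul_le_mul_of_nonneg_left h4 hr.le
  intro l
  rcases l with _ | l
  · simpa using h5
  · have h7 := hk l
    rw [show k + 1 + l = k + (l + 1) by ring] at h7
    refine ⟨h7.1, h7.2.trans ?_⟩
    rw [pow_succ, mul_assoc]
    exact mul_le_mul_of_nonneg_left h6 (pow_nonneg hr.le _)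

theorem l4_all (h : Hy n a e) : ∀ k l, 0 < Y a e (k + l) ∧ Y a e (k + l) ≤ rho a ^ l * Y a e k := by
  have ha := h.a_pos
  have hr := rho_pos ha
  obtain ⟨K, hK⟩ := Y_large h
  have hbig : ∀ k, K ≤ k → ∀ l, 0 < Y a e (k + l) ∧ Y a e (k + l) ≤ rho a ^ l * Y a e k := by
    intro k hk l
    have h1 := abs_le.1 (hK k hk)
    have h2 := abs_le.1 (hK (k + l) (by omega))
    have h3 := W_pos ha k
    have h4 := W_pos ha (k + l)
    refine ⟨by linarith, ?_⟩
    rcases Nat.eq_zero_or_pos l with rfl | hl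
    · simp
    · have h5 : W a (k + l) ≤ (a⁻¹) ^ l * W a k := by
        have h6 := W_add_le ha l k
        rw [add_comm l k] at h6
        refine h6.trans (mul_le_mul_of_nonneg_right ?_ h3.le)
        refine pow_le_pow_left₀ (by positivity) ?_ l
        exact inv_anti₀ ha (by linarith [Nat.cast_nonneg (α := ℝ) k])
      have h6 : 33 / 32 * (a⁻¹) ^ l ≤ rho a ^ l := by
        have h7 : rho a = 33 / 32 * a⁻¹ := by
          unfold rho
          field_simp
        rw [h7, mul_pow]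
        refine mul_le_mul_of_nonneg_right ?_ (by positivity)
        calc (33 / 32 : ℝ) = (33 / 32) ^ 1 := (pow_one _).symm
          _ ≤ (33 / 32) ^ l := pow_le_pow_right₀ (by norm_num) hl
      have h8 : 0 < (a⁻¹) ^ l := by positivity
      calc Y a e (k + l) ≤ 101 / 100 * W a (k + l) := by linarith
        _ ≤ 101 / 100 * ((a⁻¹) ^ l * W a k) := by linarith
        _ ≤ 33 / 32 * (a⁻¹) ^ l * (99 / 100 * W a k) := by nlinarith [mul_pos h8 h3]
        _ ≤ rho a ^ l * (99 / 100 * W a k) :=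
            mul_le_mul_of_nonneg_right h6 (by positivity)
        _ ≤ rho a ^ l * Y a e k := mul_le_mul_of_nonneg_left (by linarith) (by positivity)
  have hind : ∀ d k, K ≤ k + d → ∀ l, 0 < Y a e (k + l) ∧ Y a e (k + l) ≤ rho a ^ l * Y a e k := by
    intro d
    induction d with
    | zero => intro k hk; exact hbig k (by simpa using hk)
    | succ d ih =>
      intro k hk
      exact l4_step' h k (ih (k + 1) (by omega))
  intro k
  exact hind K k (by omega)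

theorem Y_pos (h : Hy n a e) (k : ℕ) : 0 < Y a e k := by
  simpa using (l4_all h k 0).1

theorem Y_add_le (h : Hy n a e) (k l : ℕ) : Y a e (k + l) ≤ rho a ^ l * Y a e k :=
  (l4_all h k l).2

theorem Y_step (h : Hy n a e) (k : ℕ) :
    |Y a e k - (a + k + 1) * Y a e (k + 1)| ≤ a / 1000 * Y a e (k + 1) :=
  l4_step h k (l4_all h (k + 1))

end H95L
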