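import Pool.Agent.Lib.H95L.L4

/-!
# Chunk L5: the increments of `v_k = Y_k / Y_{k+1}`

Write `u_k = Y_{k+1}/Y_k = 1/v_k`. `Y_step`, `Y_pos`: `|v_k - (a+k+1)| ≤ a/1000` (`vv_near`), and
`0 < u_k ≤ ρ` (`Y_add_le`, `l = 1`).
Let `B = sup_k |v_{k+1} - v_k - 1|`; the set is bounded by `a/500` (`vv_near`).
(1) `|u_{k+1} - u_k| = |v_k - v_{k+1}| u_k u_{k+1} ≤ (1 + B) ρ^2`.
(2) `Y_{k+1+l}/Y_{k+1} = ∏_{i<l} u_{k+1+i}`, and the difference of two products of `l` factors in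
`[0, ρ]` with factors differing by at most `x` is at most `l ρ^{l-1} x`, so
`|Y_{k+2+l}/Y_{k+2} - Y_{k+1+l}/Y_{k+1}| ≤ l ρ^{l+1} (1 + B)`.
(3) `SD` divided by `Y_{k+1}`: `v_k = a + k + 1 + ∑_l e_l Y_{k+1+l}/Y_{k+1}`; subtract two of them:
`|v_{k+1} - v_k - 1| ≤ ∑_l |e_l| l ρ^{l+1} (1+B) ≤ ρ (n/48) (1 + B)` (`l4_norm'`), and
`ρ n ≤ 1/96` (`ρ n = 33 n/(32 a) ≤ 33/(32·99)`). So `B ≤ (1+B)/4608` and `B ≤ 1/100`.
-/

namespace H95L

open Finset PowerSeries

variable {n : ℕ} {a : ℝ} {e : ℝ⟦X⟧}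

/-- `v_k = Y_k / Y_{k+1}` -/
noncomputable def vv (a : ℝ) (e : ℝ⟦X⟧) (k : ℕ) : ℝ := Y a e k / Y a e (k + 1)

theorem rho_n (h : Hy n a e) : rho a * n ≤ 1 / 96 := by
  have ha := h.a_pos
  have h1 := h.ha
  unfold rho
  rw [div_mul_eq_mul_div, div_le_div_iff₀ (by positivity) (by norm_num)]
  nlinarith

theorem vv_near (h : Hy n a e) (k : ℕ) : |vv a e k - (a + k + 1)| ≤ a / 1000 := by
  have h1 := Y_step h k
  have h2 := Y_pos h (k + 1)
  have h3 : vv a e k - (a + k + 1) = (Y a e k - (a + k + 1) * Y a e (k + 1)) / Y a e (k + 1) := by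
    unfold vv
    field_simp
  rw [h3, abs_div, abs_of_pos h2, div_le_iff₀ h2]
  exact h1

theorem l5_vpos (h : Hy n a e) (k : ℕ) : 0 < vv a e k :=
  div_pos (Y_pos h k) (Y_pos h (k + 1))

theorem l5_u (h : Hy n a e) (k : ℕ) : (vv a e k)⁻¹ ≤ rho a := by
  unfold vv
  rw [inv_div, div_le_iff₀ (Y_pos h k)]
  simpa using Y_add_le h k 1

/-- the ratio `Y_{k+l} / Y_k` -/
noncomputable def l5r (a : ℝ) (e : ℝ⟦X⟧) (k l : ℕ) : ℝ := Y a e (k + l) / Y a e k

theorem l5r_zero (h : Hy n a e) (k : ℕ) : l5r a e k 0 = 1 := by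
  unfold l5r
  rw [add_zero, div_self (Y_pos h k).ne']

theorem l5r_succ (h : Hy n a e) (k l : ℕ) :
    l5r a e k (l + 1) = l5r a e k l * (vv a e (k + l))⁻¹ := by
  unfold l5r vv
  rw [inv_div, show k + (l + 1) = k + l + 1 by ring]
  have := (Y_pos h (k + l)).ne'
  have := (Y_pos h k).ne'
  field_simp

theorem l5r_nonneg (h : Hy n a e) (k l : ℕ) : 0 ≤ l5r a e k l :=
  (div_pos (Y_pos h _) (Y_pos h _)).le

theorem l5r_le (h : Hy n a e) (k l : ℕ) : l5r a e k l ≤ rho a ^ l := by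
  unfold l5r
  rw [div_le_iff₀ (Y_pos h k)]
  exact Y_add_le h k l

theorem l5_udiff (h : Hy n a e) {B : ℝ} (hB : ∀ k, |vv a e (k + 1) - vv a e k - 1| ≤ B) (k : ℕ) :
    |(vv a e (k + 1))⁻¹ - (vv a e k)⁻¹| ≤ (1 + B) * rho a ^ 2 := by
  have h1 := l5_vpos h k
  have h2 := l5_vpos h (k + 1)
  have h3 : (vv a e (k + 1))⁻¹ - (vv a e k)⁻¹ =
      -(vv a e (k + 1) - vv a e k) * ((vv a e (k + 1))⁻¹ * (vv a e k)⁻¹) := by
    field_simp
    ring
  rw [h3, abs_mul, abs_neg, abs_of_pos (a := (vv a e (k + 1))⁻¹ * (vv a e k)⁻¹) (by positivity)]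
  have h4 : |vv a e (k + 1) - vv a e k| ≤ 1 + B := by
    have := abs_le.1 (hB k)
    rw [abs_le]
    constructor <;> linarith
  have h5 : (vv a e (k + 1))⁻¹ * (vv a e k)⁻¹ ≤ rho a ^ 2 := by
    rw [pow_two]
    exact mul_le_mul (l5_u h _) (l5_u h _) (by positivity) (rho_pos h.a_pos).le
  exact mul_le_mul h4 h5 (by positivity) ((abs_nonneg _).trans h4)

theorem l5_rdiff (h : Hy n a e) {B : ℝ} (hB : ∀ k, |vv a e (k + 1) - vv a e k - 1| ≤ B)
    (k l : ℕ) : |l5r a e (k + 1) l - l5r a e k l| ≤ l * ((1 + B) * rho a ^ (l + 1)) := by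
  have hr := (rho_pos h.a_pos).le
  have hB0 : 0 ≤ B := (abs_nonneg _).trans (hB 0)
  induction l with
  | zero => rw [l5r_zero h, l5r_zero h]; simp
  | succ l ih =>
    rw [l5r_succ h, l5r_succ h]
    have h1 : l5r a e (k + 1) l * (vv a e (k + 1 + l))⁻¹ - l5r a e k l * (vv a e (k + l))⁻¹ =
        (l5r a e (k + 1) l - l5r a e k l) * (vv a e (k + 1 + l))⁻¹ +
        l5r a e k l * ((vv a e (k + 1 + l))⁻¹ - (vv a e (k + l))⁻¹) := by ring
    rw [h1]
    have h2 : |(l5r a e (k + 1) l - l5r a e k l) * (vv a e (k + 1 + l))⁻¹| ≤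
        l * ((1 + B) * rho a ^ (l + 1)) * rho a := by
      rw [abs_mul, abs_of_pos (inv_pos.2 (l5_vpos h _))]
      exact mul_le_mul ih (l5_u h _) (inv_pos.2 (l5_vpos h _)).le (by positivity)
    have h3 : |l5r a e k l * ((vv a e (k + 1 + l))⁻¹ - (vv a e (k + l))⁻¹)| ≤
        rho a ^ l * ((1 + B) * rho a ^ 2) := by
      rw [abs_mul, abs_of_nonneg (l5r_nonneg h k l)]
      refine mul_le_mul (l5r_le h k l) ?_ (abs_nonneg _) (by positivity)
      have := l5_udiff h hB (k + l)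
      rwa [show k + l + 1 = k + 1 + l by ring] at this
    refine (abs_add_le _ _).trans ((add_le_add h2 h3).trans (le_of_eq ?_))
    push_cast
    ring

theorem l5_hasSum (h : Hy n a e) (k : ℕ) :
    HasSum (fun l => coeff l e * l5r a e (k + 1) l) (vv a e k - (a + k + 1)) := by
  have h1 := (SD h k).div_const (Y a e (k + 1))
  have h2 := Y_pos h (k + 1)
  have h3 : vv a e k - (a + k + 1) = (Y a e k - (a + k + 1) * Y a e (k + 1)) / Y a e (k + 1) := by
    unfold vv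
    field_simp
  rw [h3]
  have h4 : (fun l => coeff l e * l5r a e (k + 1) l) =
      fun l => coeff l e * Y a e (k + 1 + l) / Y a e (k + 1) := by
    funext l
    unfold l5r
    ring
  rw [h4]
  exact h1

theorem l5_improve (h : Hy n a e) {B : ℝ} (hB : ∀ k, |vv a e (k + 1) - vv a e k - 1| ≤ B)
    (k : ℕ) : |vv a e (k + 1) - vv a e k - 1| ≤ (1 + B) / 4608 := by
  have hr := (rho_pos h.a_pos).le
  have hB0 : 0 ≤ B := (abs_nonneg _).trans (hB 0)
  have h1 := (l5_hasSum h (k + 1)).sub (l5_hasSum h k)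
  have h2 : vv a e (k + 1) - (a + ((k + 1 : ℕ) : ℝ) + 1) - (vv a e k - (a + k + 1)) =
      vv a e (k + 1) - vv a e k - 1 := by push_cast; ring
  rw [h2] at h1
  have hs : Summable fun l : ℕ => (l : ℝ) * |coeff l e| * rho a ^ l :=
    summable_of_sum_range_le (fun l => by positivity) (l4_norm' h)
  have ht : ∑' l : ℕ, (l : ℝ) * |coeff l e| * rho a ^ l ≤ (n : ℝ) / 48 :=
    Real.tsum_le_of_sum_range_le (fun l => by positivity) (l4_norm' h)
  have hs2 := hs.mul_left ((1 + B) * rho a)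
  have h3 := tsum_of_norm_bounded (f := fun l => coeff l e * l5r a e (k + 1 + 1) l -
      coeff l e * l5r a e (k + 1) l) hs2.hasSum (by
    intro l
    rw [← mul_sub, Real.norm_eq_abs, abs_mul]
    have := l5_rdiff h hB (k + 1) l
    calc |coeff l e| * |l5r a e (k + 1 + 1) l - l5r a e (k + 1) l|
        ≤ |coeff l e| * (l * ((1 + B) * rho a ^ (l + 1))) :=
          mul_le_mul_of_nonneg_left this (abs_nonneg _)
      _ = (1 + B) * rho a * ((l : ℝ) * |coeff l e| * rho a ^ l) := by ring)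
  rw [h1.tsum_eq, Real.norm_eq_abs, tsum_mul_left] at h3
  refine h3.trans ?_
  have h4 : (1 + B) * rho a * ∑' l : ℕ, (l : ℝ) * |coeff l e| * rho a ^ l ≤
      (1 + B) * rho a * ((n : ℝ) / 48) :=
    mul_le_mul_of_nonneg_left ht (by positivity)
  refine h4.trans ?_
  have h5 := rho_n h
  have h6 : (1 + B) * (rho a * n) ≤ (1 + B) * (1 / 96) :=
    mul_le_mul_of_nonneg_left h5 (by linarith)
  linarith

theorem vv_step (h : Hy n a e) (k : ℕ) : |vv a e (k + 1) - vv a e k - 1| ≤ 1 / 100 := by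
  have hbdd : BddAbove (Set.range fun k => |vv a e (k + 1) - vv a e k - 1|) := by
    refine ⟨a / 500, ?_⟩
    rintro _ ⟨k, rfl⟩
    have h1 := abs_le.1 (vv_near h (k + 1))
    have h2 := abs_le.1 (vv_near h k)
    push_cast at h1
    dsimp only
    rw [abs_le]
    constructor <;> linarith [h1.1, h1.2, h2.1, h2.2]
  set B := ⨆ k, |vv a e (k + 1) - vv a e k - 1| with hBdef
  have hB : ∀ k, |vv a e (k + 1) - vv a e k - 1| ≤ B := fun k => le_ciSup hbdd k
  have h1 : B ≤ (1 + B) / 4608 := ciSup_le fun k => l5_improve h hB k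
  have h2 := hB k
  linarith

end H95L
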