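import Pool.Agent.Lib.H95L.L5

/-!
# Chunk L6: the numbers `R_k = Y_k / Y_0`

`u_k = 1/v_k = Y_{k+1}/Y_k`, `R_k = ∏_{i<k} u_i`, `0 < u_k ≤ ρ`, `a = (33/32)/ρ`, `a ≥ 99`.
* `R_le`, `R_succ_le`: `Y_add_le` (divide by `Y_0`; `Y_{1+k} ≤ ρ^k Y_1`).
* `R_cov_le`: `v_k` is increasing (`vv_step`), so `u_{k+i} ≤ u_i` and
  `R_{k+l} = R_k ∏_{i<l} u_{k+i} ≤ R_k R_l`.
* `R_cov_ge`: `u_{k+i}/u_i = v_i/v_{k+i} = 1 - (v_{k+i} - v_i) u_{k+i} ≥ 1 - (101/100) k ρ` (sum
  `vv_step` over `k` steps). If `(101/100) k l ρ ≥ 1` the claim is clear (`R_{k+l} > 0`). If not,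
  Bernoulli (`one_add_mul_le_pow`): `∏_{i<l} u_{k+i}/u_i ≥ (1 - (101/100) k ρ)^l`
  `≥ 1 - (101/100) k l ρ` (`l = 0` is trivial).
* `R_two_le`: `R_2 = u_0 u_1`, `R_1 = u_0`, `u_1 - u_0 = -(v_1 - v_0) u_0 u_1 ≤ -(99/100) u_0 u_1`
  and `u_1 ≥ 1/(a + 2 + a/1000) ≥ (949/1000) ρ` (`a ≥ 99`: `1 + 2/99 + 1/1000 ≤ 10213/10000`);
  `(99/100)(949/1000) ≥ 9/10`.
* `R_one_ge`: `u_0 ≥ 1/(a + 1 + a/1000) ≥ (959/1000) ρ`. `R_two_ge`: product, `≥ (91/100) ρ^2`.
-/

namespace H95L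

open Finset PowerSeries

variable {n : ℕ} {a : ℝ} {e : ℝ⟦X⟧}

theorem R_zero (h : Hy n a e) : R a e 0 = 1 := by
  unfold R
  rw [div_self (Y_pos h 0).ne']

theorem R_pos (h : Hy n a e) (k : ℕ) : 0 < R a e k := div_pos (Y_pos h _) (Y_pos h _)

theorem R_le (h : Hy n a e) (k : ℕ) : R a e k ≤ rho a ^ k := by
  unfold R
  rw [div_le_iff₀ (Y_pos h 0)]
  simpa using Y_add_le h 0 k

theorem R_succ_le (h : Hy n a e) (k : ℕ) : R a e (k + 1) ≤ rho a ^ k * R a e 1 := by
  unfold R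
  rw [← mul_div_assoc]
  refine div_le_div_of_nonneg_right ?_ (Y_pos h 0).le
  rw [add_comm k 1]
  exact Y_add_le h 1 k

theorem l6_vpos (h : Hy n a e) (k : ℕ) : 0 < vv a e k := div_pos (Y_pos h _) (Y_pos h _)

theorem l6_succ (h : Hy n a e) (k : ℕ) : R a e (k + 1) = R a e k * (vv a e k)⁻¹ := by
  unfold R vv
  rw [inv_div]
  have := (Y_pos h k).ne'
  have := (Y_pos h 0).ne'
  field_simp

theorem l6_u (h : Hy n a e) (k : ℕ) : (vv a e k)⁻¹ ≤ rho a := by
  unfold vv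
  rw [inv_div, div_le_iff₀ (Y_pos h k)]
  simpa using Y_add_le h k 1

theorem l6_v (h : Hy n a e) (i k : ℕ) : 99 / 100 * (k : ℝ) ≤ vv a e (i + k) - vv a e i ∧
    vv a e (i + k) - vv a e i ≤ 101 / 100 * (k : ℝ) := by
  induction k with
  | zero => simp
  | succ k ih =>
    have h1 := abs_le.1 (vv_step h (i + k))
    rw [← add_assoc]
    push_cast
    constructor <;> linarith [h1.1, h1.2, ih.1, ih.2]

theorem R_cov_le (h : Hy n a e) (k l : ℕ) : R a e (k + l) ≤ R a e k * R a e l := by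
  induction l with
  | zero => rw [add_zero, R_zero h, mul_one]
  | succ l ih =>
    rw [← add_assoc, l6_succ h, l6_succ h l, ← mul_assoc]
    refine mul_le_mul ih ?_ (inv_pos.2 (l6_vpos h _)).le
      (mul_pos (R_pos h _) (R_pos h _)).le
    refine inv_anti₀ (l6_vpos h l) ?_
    have h1 := (l6_v h l k).1
    rw [add_comm l k] at h1
    have h2 : 0 ≤ 99 / 100 * (k : ℝ) := by positivity
    linarith

theorem l6_ratio (h : Hy n a e) (k l : ℕ) :
    (1 - 101 / 100 * k * rho a) * (vv a e l)⁻¹ ≤ (vv a e (k + l))⁻¹ := by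
  have h1 := l6_vpos h l
  have h2 := l6_vpos h (k + l)
  have h3 := (l6_v h l k).2
  rw [add_comm l k] at h3
  have h4 := l6_u h (k + l)
  have h5 : 1 - 101 / 100 * k * rho a ≤ vv a e l * (vv a e (k + l))⁻¹ := by
    have h6 : vv a e l * (vv a e (k + l))⁻¹ =
        1 - (vv a e (k + l) - vv a e l) * (vv a e (k + l))⁻¹ := by
      field_simp
      ring
    rw [h6]
    have h7 : (vv a e (k + l) - vv a e l) * (vv a e (k + l))⁻¹ ≤ 101 / 100 * k * rho a :=
      mul_le_mul h3 h4 (inv_pos.2 h2).le (by positivity)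
    linarith
  calc (1 - 101 / 100 * k * rho a) * (vv a e l)⁻¹
      ≤ vv a e l * (vv a e (k + l))⁻¹ * (vv a e l)⁻¹ :=
        mul_le_mul_of_nonneg_right h5 (inv_pos.2 h1).le
    _ = (vv a e (k + l))⁻¹ := by field_simp

theorem R_cov_ge (h : Hy n a e) (k l : ℕ) :
    R a e k * R a e l - R a e (k + l) ≤ 11 / 10 * rho a * ((k * R a e k) * (l * R a e l)) := by
  have hr := rho_pos h.a_pos
  have hk := R_pos h k
  have hl := R_pos h l
  have hkl := R_pos h (k + l)
  have key : (1 - 101 / 100 * k * rho a * l) * (R a e k * R a e l) ≤ R a e (k + l) := by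
    rcases le_or_gt (1 - 101 / 100 * k * rho a) 0 with hθ | hθ
    · rcases Nat.eq_zero_or_pos l with rfl | hl0
      · rw [add_zero, R_zero h]; simp
      · refine le_trans ?_ hkl.le
        refine mul_nonpos_of_nonpos_of_nonneg ?_ (mul_pos hk hl).le
        have h1 : (1 : ℝ) ≤ l := by exact_mod_cast hl0
        have h2 : 0 ≤ 101 / 100 * k * rho a := by positivity
        nlinarith
    · have h3 : ∀ l : ℕ, (1 - 101 / 100 * k * rho a) ^ l * (R a e k * R a e l) ≤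
          R a e (k + l) := by
        intro l
        induction l with
        | zero => rw [add_zero, R_zero h]; simp
        | succ l ih =>
          rw [← add_assoc, l6_succ h (k + l), l6_succ h l]
          have h4 := l6_ratio h k l
          have h5 : 0 ≤ (1 - 101 / 100 * k * rho a) ^ l * (R a e k * R a e l) :=
            mul_nonneg (pow_nonneg hθ.le _) (mul_pos hk (R_pos h l)).le
          calc (1 - 101 / 100 * k * rho a) ^ (l + 1) * (R a e k * (R a e l * (vv a e l)⁻¹))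
              = ((1 - 101 / 100 * k * rho a) ^ l * (R a e k * R a e l)) *
                ((1 - 101 / 100 * k * rho a) * (vv a e l)⁻¹) := by ring
            _ ≤ ((1 - 101 / 100 * k * rho a) ^ l * (R a e k * R a e l)) *
                (vv a e (k + l))⁻¹ := mul_le_mul_of_nonneg_left h4 h5
            _ ≤ R a e (k + l) * (vv a e (k + l))⁻¹ :=
                mul_le_mul_of_nonneg_right ih (inv_pos.2 (l6_vpos h _)).le
      refine le_trans (mul_le_mul_of_nonneg_right ?_ (mul_pos hk hl).le) (h3 l)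
      have h4 := one_add_mul_le_pow (a := -(101 / 100 * k * rho a)) (by linarith) l
      calc 1 - 101 / 100 * k * rho a * l = 1 + (l : ℝ) * -(101 / 100 * k * rho a) := by ring
        _ ≤ (1 + -(101 / 100 * k * rho a)) ^ l := h4
        _ = (1 - 101 / 100 * k * rho a) ^ l := by rw [← sub_eq_add_neg]
  have h6 : 0 ≤ rho a * (k * R a e k) * (l * R a e l) := by positivity
  nlinarith

theorem l6_near (h : Hy n a e) : 949 / 1000 * rho a ≤ (vv a e 1)⁻¹ ∧
    959 / 1000 * rho a ≤ (vv a e 0)⁻¹ := by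
  have ha := h.a_pos
  have h99 : 99 ≤ a := by
    have h1 := h.ha
    have h2 : (1 : ℝ) ≤ n := by exact_mod_cast h.hn
    linarith
  have h0 := (abs_le.1 (vv_near h 0)).2
  have h1 := (abs_le.1 (vv_near h 1)).2
  push_cast at h0 h1
  have p0 := l6_vpos h 0
  have p1 := l6_vpos h 1
  unfold rho
  constructor
  · rw [mul_div_assoc', div_le_iff₀ (by positivity), inv_mul_eq_div, le_div_iff₀ p1]
    nlinarith
  · rw [mul_div_assoc', div_le_iff₀ (by positivity), inv_mul_eq_div, le_div_iff₀ p0]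
    nlinarith

theorem l6_one (h : Hy n a e) : R a e 1 = (vv a e 0)⁻¹ := by
  rw [show (1 : ℕ) = 0 + 1 by rfl, l6_succ h, R_zero h, one_mul]

theorem l6_two (h : Hy n a e) : R a e 2 = (vv a e 0)⁻¹ * (vv a e 1)⁻¹ := by
  rw [show (2 : ℕ) = 1 + 1 by rfl, l6_succ h, l6_one h]

theorem R_two_le (h : Hy n a e) : R a e 2 - R a e 1 ^ 2 ≤ -(9 / 10) * rho a * R a e 1 ^ 2 := by
  have hr := rho_pos h.a_pos
  have p0 := l6_vpos h 0
  have p1 := l6_vpos h 1
  have h1 := (l6_near h).1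
  have h2 := (l6_v h 0 1).1
  rw [zero_add] at h2
  push_cast at h2
  rw [l6_two h, l6_one h]
  have h3 : (vv a e 0)⁻¹ * (vv a e 1)⁻¹ - (vv a e 0)⁻¹ ^ 2 =
      -((vv a e 1 - vv a e 0) * (vv a e 1)⁻¹) * (vv a e 0)⁻¹ ^ 2 := by
    field_simp
    ring
  rw [h3]
  refine mul_le_mul_of_nonneg_right ?_ (by positivity)
  have h4 : 99 / 100 * (949 / 1000 * rho a) ≤ (vv a e 1 - vv a e 0) * (vv a e 1)⁻¹ :=
    mul_le_mul (by linarith) h1 (by positivity) (by linarith)
  linarith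

theorem R_one_ge (h : Hy n a e) : 95 / 100 * rho a ≤ R a e 1 := by
  have hr := rho_pos h.a_pos
  rw [l6_one h]
  linarith [(l6_near h).2]

theorem R_two_ge (h : Hy n a e) : 9 / 10 * rho a ^ 2 ≤ R a e 2 := by
  have hr := rho_pos h.a_pos
  rw [l6_two h]
  have h1 := l6_near h
  have h2 : (959 / 1000 * rho a) * (949 / 1000 * rho a) ≤ (vv a e 0)⁻¹ * (vv a e 1)⁻¹ :=
    mul_le_mul h1.2 h1.1 (by positivity) (inv_pos.2 (l6_vpos h 0)).le
  nlinarith [sq_nonneg (rho a)]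

end H95L
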