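import Pool.Agent.Lib.H95L.L1
import Pool.Agent.Lib.H95L.S3

/-!
# Chunk P1: the derivative of the coefficients along a segment, and a Taylor inequality

* `sg_deriv`. Strong induction on `j`. `j = 0`: `sg _ 0 = 1` is constant, and the right side is
  `coeff 0 (J (e1 - e0)) * 1 = 0`. For `j ≥ 1` (`sg_rec` divided by `j`, or the equation of `sg`):
  `σ_j = (1/j) ∑_{l+i=j} η_l σ_i`, `η = e0 + t (e1 - e0)`, `η_0 = 0`, so only `i < j` occurs and the
  induction hypothesis applies: with `κ = e1 - e0`, `Δ = J κ`, `κ_l = l Δ_l`,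
  `j σ_j' = ∑_{l+i=j} (κ_l σ_i + η_l ∑_{m+i'=i} Δ_m σ_{i'})`. The second part is
  `∑_{m+i''=j} Δ_m ∑_{l+i'=i''} η_l σ_{i'} = ∑_{m+i''=j} Δ_m i'' σ_{i''}` (triple sums:
  `Finset.sum_nat_antidiagonal_triple` type lemma, or multiplication in `ℝ⟦X⟧`: all convolutions are
  coefficients of products of the series `η`, `Δ`, `mk σ`; then it is associativity and
  commutativity). Total `∑_{m+i=j} (m + i) Δ_m σ_i = j ∑ Δ_m σ_i`.
* `taylor2`: `φ(t) = f t - f 0 - t f' 0 - (B/2) t^2` has `φ' (t) = f' t - f' 0 - B t ≤ 0` on `[0,1]`,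
  because its derivative `f'' - B` is `≤ 0` (`antitoneOn_of_deriv_nonpos` twice, or
  `image_sub_le_mul_sub_of_deriv_le`).
-/

namespace H95L

open Finset PowerSeries

/-- the segment from `e0` to `e1` -/
noncomputable def pt (e0 e1 : ℝ⟦X⟧) (t : ℝ) : ℝ⟦X⟧ := e0 + t • (e1 - e0)

theorem pt_zero (e0 e1 : ℝ⟦X⟧) : pt e0 e1 0 = e0 := by
  simp [pt]

theorem pt_one (e0 e1 : ℝ⟦X⟧) : pt e0 e1 1 = e1 := by
  simp [pt]

theorem p1_coeff_pt (e0 e1 : ℝ⟦X⟧) (t : ℝ) (k : ℕ) :
    coeff k (pt e0 e1 t) = coeff k e0 + t * coeff k (e1 - e0) := by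
  rw [pt, map_add, coeff_smul, smul_eq_mul]

/-- a product with a series without constant term -/
theorem p1_shift (f g : ℝ⟦X⟧) (h : coeff 0 f = 0) (j : ℕ) :
    coeff (j + 1) (f * g) = ∑ k : Fin (j + 1), coeff ((k : ℕ) + 1) f * coeff (j - k) g := by
  rw [coeff_mul, Nat.sum_antidiagonal_succ, h, zero_mul, zero_add,
    Nat.sum_antidiagonal_eq_sum_range_succ_mk]
  exact (Fin.sum_univ_eq_sum_range (fun k => coeff (k + 1) f * coeff (j - k) g) (j + 1)).symm

theorem p1_D_sg {e : ℝ⟦X⟧} (h0 : coeff 0 e = 0) :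
    D (PowerSeries.mk (sg e)) = e * PowerSeries.mk (sg e) := by
  ext j
  rw [coeff_D, coeff_mk, coeff_mul, sg_rec h0]
  refine sum_congr rfl (fun p _ => ?_)
  rw [coeff_mk]

theorem sg_deriv {e0 e1 : ℝ⟦X⟧} (h0 : coeff 0 e0 = 0) (h1 : coeff 0 e1 = 0) (j : ℕ) (t : ℝ) :
    HasDerivAt (fun t => sg (pt e0 e1 t) j)
      (∑ p ∈ antidiagonal j, coeff p.1 (J (e1 - e0)) * sg (pt e0 e1 t) p.2) t := by
  have hκ : coeff 0 (e1 - e0) = 0 := by rw [map_sub, h0, h1, sub_zero]
  have hΔ : coeff 0 (J (e1 - e0)) = 0 := coeff_zero_J _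
  have hη : ∀ s, coeff 0 (pt e0 e1 s) = 0 := by
    intro s
    rw [p1_coeff_pt, h0, hκ, mul_zero, add_zero]
  have hd : ∀ i, ∑ p ∈ antidiagonal i, coeff p.1 (J (e1 - e0)) * sg (pt e0 e1 t) p.2 =
      coeff i (J (e1 - e0) * PowerSeries.mk (sg (pt e0 e1 t))) := by
    intro i
    rw [coeff_mul]
    refine sum_congr rfl (fun p _ => ?_)
    rw [coeff_mk]
  induction j using Nat.strong_induction_on with
  | _ j ih =>
    rcases j with _ | j
    · have h2 : (fun s => sg (pt e0 e1 s) 0) = fun _ => (1 : ℝ) := by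
        funext s
        exact sg_zero _
      rw [h2]
      simpa [hΔ] using hasDerivAt_const t (1 : ℝ)
    · have hj : (j : ℝ) + 1 ≠ 0 := by positivity
      have h2 : (fun s => sg (pt e0 e1 s) (j + 1)) = fun s =>
          (∑ k : Fin (j + 1), coeff ((k : ℕ) + 1) (pt e0 e1 s) * sg (pt e0 e1 s) (j - k)) /
            ((j : ℝ) + 1) := by
        funext s
        rw [sg]
      rw [h2, hd]
      have h3 : HasDerivAt (fun s =>
          (∑ k : Fin (j + 1), coeff ((k : ℕ) + 1) (pt e0 e1 s) * sg (pt e0 e1 s) (j - k)) /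
            ((j : ℝ) + 1))
          ((∑ k : Fin (j + 1), (coeff ((k : ℕ) + 1) (e1 - e0) * sg (pt e0 e1 t) (j - k) +
            coeff ((k : ℕ) + 1) (pt e0 e1 t) *
              coeff (j - k) (J (e1 - e0) * PowerSeries.mk (sg (pt e0 e1 t))))) /
            ((j : ℝ) + 1)) t := by
        refine HasDerivAt.div_const (HasDerivAt.fun_sum fun k _ => ?_) _
        have hk := k.2
        have h4 := ih (j - k) (by omega)
        rw [hd] at h4
        have h5 : HasDerivAt (fun s => coeff ((k : ℕ) + 1) (pt e0 e1 s))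
            (coeff ((k : ℕ) + 1) (e1 - e0)) t := by
          have h6 : (fun s => coeff ((k : ℕ) + 1) (pt e0 e1 s)) = fun s =>
              coeff ((k : ℕ) + 1) e0 + s * coeff ((k : ℕ) + 1) (e1 - e0) := by
            funext s
            exact p1_coeff_pt _ _ _ _
          rw [h6]
          simpa using ((hasDerivAt_id t).mul_const (coeff ((k : ℕ) + 1) (e1 - e0))).const_add
            (coeff ((k : ℕ) + 1) e0)
        exact h5.mul h4
      convert h3 using 1
      rw [eq_div_iff hj, sum_add_distrib, ← p1_shift _ _ (hη t)]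
      have h6 : ∑ k : Fin (j + 1), coeff ((k : ℕ) + 1) (e1 - e0) * sg (pt e0 e1 t) (j - k) =
          coeff (j + 1) ((e1 - e0) * PowerSeries.mk (sg (pt e0 e1 t))) := by
        rw [p1_shift _ _ hκ]
        refine sum_congr rfl (fun k _ => ?_)
        rw [coeff_mk]
      rw [h6, ← map_add]
      have h7 : D (J (e1 - e0) * PowerSeries.mk (sg (pt e0 e1 t))) =
          (e1 - e0) * PowerSeries.mk (sg (pt e0 e1 t)) +
            pt e0 e1 t * (J (e1 - e0) * PowerSeries.mk (sg (pt e0 e1 t))) := by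
        rw [D_mul, D_J hκ, p1_D_sg (hη t)]
        ring
      rw [← h7, coeff_D]
      push_cast
      ring

theorem taylor2 {f f' f'' : ℝ → ℝ} {B : ℝ}
    (h1 : ∀ t ∈ Set.Icc (0 : ℝ) 1, HasDerivAt f (f' t) t)
    (h2 : ∀ t ∈ Set.Icc (0 : ℝ) 1, HasDerivAt f' (f'' t) t)
    (h3 : ∀ t ∈ Set.Icc (0 : ℝ) 1, f'' t ≤ B) : f 1 ≤ f 0 + f' 0 + B / 2 := by
  have hi : ∀ x ∈ interior (Set.Icc (0 : ℝ) 1), x ∈ Set.Icc (0 : ℝ) 1 := fun x hx =>
    interior_subset hx
  have hf' : ∀ t ∈ Set.Icc (0 : ℝ) 1, f' t - B * t ≤ f' 0 := by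
    have hd : ∀ t ∈ Set.Icc (0 : ℝ) 1, HasDerivAt (fun t => f' t - B * t) (f'' t - B) t := by
      intro t ht
      have h4 := (h2 t ht).sub ((hasDerivAt_id t).const_mul B)
      refine h4.congr_deriv ?_
      ring
    have hanti : AntitoneOn (fun t => f' t - B * t) (Set.Icc (0 : ℝ) 1) := by
      refine antitoneOn_of_hasDerivWithinAt_nonpos (f' := fun t => f'' t - B) (convex_Icc 0 1)
        (fun t ht => (hd t ht).continuousAt.continuousWithinAt)
        (fun t ht => (hd t (hi t ht)).hasDerivWithinAt) (fun t ht => ?_)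
      have := h3 t (hi t ht)
      linarith
    intro t ht
    have h4 := hanti (Set.left_mem_Icc.2 zero_le_one) ht ht.1
    simpa using h4
  have hd : ∀ t ∈ Set.Icc (0 : ℝ) 1,
      HasDerivAt (fun t => f t - f' 0 * t - B / 2 * t ^ 2) (f' t - f' 0 - B * t) t := by
    intro t ht
    have h4 := ((h1 t ht).sub ((hasDerivAt_id t).const_mul (f' 0))).sub
      ((hasDerivAt_pow 2 t).const_mul (B / 2))
    refine h4.congr_deriv ?_
    push_cast
    ring
  have hanti : AntitoneOn (fun t => f t - f' 0 * t - B / 2 * t ^ 2) (Set.Icc (0 : ℝ) 1) := by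
    refine antitoneOn_of_hasDerivWithinAt_nonpos (f' := fun t => f' t - f' 0 - B * t)
      (convex_Icc 0 1) (fun t ht => (hd t ht).continuousAt.continuousWithinAt)
      (fun t ht => (hd t (hi t ht)).hasDerivWithinAt) (fun t ht => ?_)
    have := hf' t (hi t ht)
    linarith
  have h5 := hanti (Set.left_mem_Icc.2 zero_le_one) (Set.right_mem_Icc.2 zero_le_one) zero_le_one
  simp only at h5
  linarith

end H95L
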