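import Pool.Agent.Lib.H95L.P1
import Pool.Agent.Lib.H95L.M1

/-!
# Chunk P2: the derivative of `Y_k` along the segment

* `Pr.hy`: for `-1 < t < 2`, `e_t = (1-t) e0 + t e1` has norm at `4ρ` at most
  `(|1-t| + |t|) n/36 ≤ 3 n/36 = n/12` (`pt`: `e0 + t (e1 - e0) = (1-t) e0 + t e1`).
* `Nb_Delta`: `Δ = J (e1 - e0)`, norm at `4ρ` at most `n/18` (`Nb_J`, `Nb.sub`), so also at `2ρ` and
  `ρ` (`Nb.mono_rho`).
* `Y_deriv`: `hasDerivAt_tsum_of_isPreconnected` on the open interval `(-1, 2)` for the family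
  `j ↦ sg e_t j * W (j+k)`: derivative `(∑_{l+i=j} Δ_l σ_i) W_{j+k}` (`sg_deriv`), bounded by
  `2^n (n/18) (2ρ)^{-j} W_{j+k}` (`conv_bound`, `sg_bound`), which is summable (`sum_bound` with
  `s j = 2^n (n/18) (2ρ)^{-j}`). The derivative is `∑_j (Δ * σ)_j W_{j+k} = ∑_l Δ_l Y_{k+l}` by
  `conv` (`HasSum.tsum_eq`).
* `Yf_deriv`: `hasDerivAt_tsum_of_isPreconnected` for the family `k ↦ f_k Y_k(t)`, derivative
  `f_k ∑_l Δ_l Y_{k+l}`, bounded by `|f_k| (n/18) ρ^k Y_0(t)` (`Y_add_le` twice: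
  `Y_{k+l} ≤ ρ^l Y_k`, `Y_k ≤ ρ^k Y_0`) and `Y_0(t) ≤ 2·2^n` (`Y_abs_le`). The derivative
  `∑_k f_k ∑_l Δ_l Y_{k+l}` equals `∑_m (f Δ)_m Y_m` (sum over antidiagonals, absolutely
  convergent as before, `coeff_mul`).
-/

namespace H95L

open Finset PowerSeries

/-- the hypotheses on the two ends of the segment -/
structure Pr (n : ℕ) (a : ℝ) (e0 e1 : ℝ⟦X⟧) : Prop where
  hn : 1 ≤ n
  ha : 99 * (n : ℝ) ≤ a
  z0 : coeff 0 e0 = 0
  z1 : coeff 0 e1 = 0
  N0 : Nb (4 * rho a) e0 ((n : ℝ) / 36)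
  N1 : Nb (4 * rho a) e1 ((n : ℝ) / 36)

variable {n : ℕ} {a C : ℝ} {e0 e1 f : ℝ⟦X⟧}

theorem Pr.a_pos (h : Pr n a e0 e1) : 0 < a := by
  have h1 : (1 : ℝ) ≤ n := by exact_mod_cast h.hn
  have h2 := h.ha
  linarith

theorem Pr.hy (h : Pr n a e0 e1) {t : ℝ} (ht : t ∈ Set.Ioo (-1 : ℝ) 2) :
    Hy n a (pt e0 e1 t) := by
  have hr := rho_pos h.a_pos
  refine ⟨h.hn, h.ha, ?_, ?_⟩
  · rw [p1_coeff_pt, map_sub, h.z0, h.z1]
    ring
  · have h1 : pt e0 e1 t = (1 - t) • e0 + t • e1 := by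
      rw [pt, smul_sub, sub_smul, one_smul]
      abel
    rw [h1]
    refine ((h.N0.smul (1 - t)).add (h.N1.smul t) (by positivity)).mono ?_
    have h2 : |1 - t| + |t| ≤ 3 := by
      have h3 := ht.1
      have h4 := ht.2
      rcases abs_cases (1 - t) with h5 | h5 <;> rcases abs_cases t with h6 | h6 <;> linarith
    have h3 : (0 : ℝ) ≤ n := Nat.cast_nonneg n
    nlinarith

theorem Nb_Delta (h : Pr n a e0 e1) : Nb (2 * rho a) (J (e1 - e0)) ((n : ℝ) / 18) ∧
    Nb (rho a) (J (e1 - e0)) ((n : ℝ) / 18) := by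
  have hr := rho_pos h.a_pos
  have h1 : Nb (4 * rho a) (J (e1 - e0)) ((n : ℝ) / 18) := by
    refine (Nb_J (h.N1.sub h.N0 (by positivity)) (by positivity)).mono (le_of_eq ?_)
    ring
  exact ⟨h1.mono_rho (by positivity) (by linarith), h1.mono_rho hr.le (by linarith)⟩

theorem Y_deriv (h : Pr n a e0 e1) {t : ℝ} (ht : t ∈ Set.Ioo (-1 : ℝ) 2) (k : ℕ) :
    HasDerivAt (fun t => Y a (pt e0 e1 t) k)
      (∑' l, coeff l (J (e1 - e0)) * Y a (pt e0 e1 t) (k + l)) t := by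
  have ha := h.a_pos
  have hΔ := (Nb_Delta h).1
  have hb : ∀ s ∈ Set.Ioo (-1 : ℝ) 2, ∀ j,
      |∑ p ∈ antidiagonal j, coeff p.1 (J (e1 - e0)) * sg (pt e0 e1 s) p.2| ≤
        2 ^ n * ((n : ℝ) / 18) * ((2 * rho a)⁻¹) ^ j := fun s hs j =>
    conv_bound ha (sg_bound (h.hy hs)) hΔ j
  have hu : Summable fun j : ℕ =>
      |(2 ^ n * ((n : ℝ) / 18) * ((2 * rho a)⁻¹) ^ j) * W a (j + k)| := by
    refine (sum_bound ha (C := 2 ^ n * ((n : ℝ) / 18)) (fun j => ?_) k).1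
    rw [abs_of_nonneg]
    have := rho_pos ha
    positivity
  have h1 := hasDerivAt_tsum_of_isPreconnected hu (isOpen_Ioo (a := (-1 : ℝ)) (b := 2))
    isPreconnected_Ioo (g := fun j s => sg (pt e0 e1 s) j * W a (j + k))
    (g' := fun j s => (∑ p ∈ antidiagonal j, coeff p.1 (J (e1 - e0)) * sg (pt e0 e1 s) p.2) *
      W a (j + k))
    (fun j s _ => (sg_deriv h.z0 h.z1 j s).mul_const _)
    (fun j s hs => by
      rw [Real.norm_eq_abs, abs_mul, abs_mul]
      refine mul_le_mul_of_nonneg_right ((hb s hs j).trans (le_abs_self _)) (abs_nonneg _))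
    ht (Y_summable (h.hy ht) k) ht
  refine h1.congr_deriv ?_
  exact (conv ha (sg_bound (h.hy ht)) hΔ k).tsum_eq.symm

theorem p2_abs_Y (h : Pr n a e0 e1) {t : ℝ} (ht : t ∈ Set.Ioo (-1 : ℝ) 2) (k : ℕ) :
    |Y a (pt e0 e1 t) k| ≤ rho a ^ k * (2 * 2 ^ n) := by
  have hy := h.hy ht
  have hr := rho_pos h.a_pos
  have h1 := Y_add_le hy 0 k
  rw [zero_add] at h1
  have h2 := Y_abs_le hy 0
  rw [pow_zero, mul_one] at h2
  rw [abs_of_pos (Y_pos hy k)]
  exact h1.trans (mul_le_mul_of_nonneg_left ((le_abs_self _).trans h2) (by positivity))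

/-- the double series of `f Δ` against `Y` -/
theorem p2_conv (h : Pr n a e0 e1) (hf : Nb (rho a) f C) {t : ℝ}
    (ht : t ∈ Set.Ioo (-1 : ℝ) 2) :
    HasSum (fun k => coeff k f * ∑' l, coeff l (J (e1 - e0)) * Y a (pt e0 e1 t) (k + l))
      (∑' k, coeff k (f * J (e1 - e0)) * Y a (pt e0 e1 t) k) := by
  have hr := rho_pos h.a_pos
  have hΔ := (Nb_Delta h).2
  obtain ⟨F, hF⟩ : ∃ F : ℕ × ℕ → ℝ, F = fun p =>
      coeff p.1 f * coeff p.2 (J (e1 - e0)) * Y a (pt e0 e1 t) (p.1 + p.2) := ⟨_, rfl⟩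
  have hprod := ((hf.summable hr.le).mul_of_nonneg (hΔ.summable hr.le)
    (fun l => by positivity) (fun i => by positivity)).mul_left (2 * 2 ^ n)
  have hFs : Summable F := by
    refine Summable.of_norm_bounded hprod fun p => ?_
    rw [hF, Real.norm_eq_abs]
    simp only
    rw [abs_mul, abs_mul]
    calc |coeff p.1 f| * |coeff p.2 (J (e1 - e0))| * |Y a (pt e0 e1 t) (p.1 + p.2)|
        ≤ |coeff p.1 f| * |coeff p.2 (J (e1 - e0))| * (rho a ^ (p.1 + p.2) * (2 * 2 ^ n)) :=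
          mul_le_mul_of_nonneg_left (p2_abs_Y h ht _) (by positivity)
      _ = _ := by rw [pow_add]; ring
  have h8 : HasSum (fun k => coeff k f *
      ∑' l, coeff l (J (e1 - e0)) * Y a (pt e0 e1 t) (k + l)) (∑' p, F p) := by
    refine hFs.hasSum.prod_fiberwise fun k => ?_
    have h9 : Summable fun l => coeff l (J (e1 - e0)) * Y a (pt e0 e1 t) (k + l) := by
      refine Summable.of_norm_bounded
        ((hΔ.summable hr.le).mul_right (rho a ^ k * (2 * 2 ^ n))) fun l => ?_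
      rw [Real.norm_eq_abs, abs_mul]
      calc |coeff l (J (e1 - e0))| * |Y a (pt e0 e1 t) (k + l)|
          ≤ |coeff l (J (e1 - e0))| * (rho a ^ (k + l) * (2 * 2 ^ n)) :=
            mul_le_mul_of_nonneg_left (p2_abs_Y h ht _) (by positivity)
        _ = _ := by rw [pow_add]; ring
    have h9' : (fun l => F (k, l)) = fun l => coeff k f *
        (coeff l (J (e1 - e0)) * Y a (pt e0 e1 t) (k + l)) := by
      funext l
      rw [hF]
      simp only
      ring
    rw [h9']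
    exact h9.hasSum.mul_left _
  have h10 : HasSum (fun j => ∑ p ∈ antidiagonal j, F p) (∑' p, F p) := by
    have h11 := ((Finset.HasAntidiagonal.sigmaAntidiagonalEquivProd (A := ℕ)).hasSum_iff
      (f := F)).2 hFs.hasSum
    exact h11.sigma fun j => Finset.hasSum (antidiagonal j) F
  have h12 : ∀ j, ∑ p ∈ antidiagonal j, F p =
      coeff j (f * J (e1 - e0)) * Y a (pt e0 e1 t) j := by
    intro j
    rw [coeff_mul, Finset.sum_mul]
    refine Finset.sum_congr rfl fun p hp => ?_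
    rw [HasAntidiagonal.mem_antidiagonal] at hp
    rw [hF]
    simp only
    rw [hp]
  simp only [h12] at h10
  rw [h10.tsum_eq]
  exact h8

theorem Yf_deriv (h : Pr n a e0 e1) (hf : Nb (rho a) f C) {t : ℝ}
    (ht : t ∈ Set.Ioo (-1 : ℝ) 2) :
    HasDerivAt (fun t => ∑' k, coeff k f * Y a (pt e0 e1 t) k)
      (∑' k, coeff k (f * J (e1 - e0)) * Y a (pt e0 e1 t) k) t := by
  have hr := rho_pos h.a_pos
  have hΔ := (Nb_Delta h).2
  have hu : Summable fun k : ℕ => |coeff k f| * rho a ^ k * ((n : ℝ) / 18 * (2 * 2 ^ n)) :=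
    (hf.summable hr.le).mul_right _
  have hsum : Summable fun k => coeff k f * Y a (pt e0 e1 t) k := by
    refine Summable.of_norm_bounded ((hf.summable hr.le).mul_right (2 * 2 ^ n)) fun k => ?_
    rw [Real.norm_eq_abs, abs_mul, mul_assoc]
    exact mul_le_mul_of_nonneg_left (p2_abs_Y h ht _) (abs_nonneg _)
  have h1 := hasDerivAt_tsum_of_isPreconnected hu (isOpen_Ioo (a := (-1 : ℝ)) (b := 2))
    isPreconnected_Ioo (g := fun k s => coeff k f * Y a (pt e0 e1 s) k)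
    (g' := fun k s => coeff k f * ∑' l, coeff l (J (e1 - e0)) * Y a (pt e0 e1 s) (k + l))
    (fun k s hs => (Y_deriv h hs k).const_mul _)
    (fun k s hs => by
      rw [Real.norm_eq_abs, abs_mul, mul_assoc]
      refine mul_le_mul_of_nonneg_left ?_ (abs_nonneg _)
      have hle : ∀ l, ‖coeff l (J (e1 - e0)) * Y a (pt e0 e1 s) (k + l)‖ ≤
          |coeff l (J (e1 - e0))| * rho a ^ l * (rho a ^ k * (2 * 2 ^ n)) := by
        intro l
        rw [Real.norm_eq_abs, abs_mul]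
        calc |coeff l (J (e1 - e0))| * |Y a (pt e0 e1 s) (k + l)|
            ≤ |coeff l (J (e1 - e0))| * (rho a ^ (k + l) * (2 * 2 ^ n)) :=
              mul_le_mul_of_nonneg_left (p2_abs_Y h hs _) (by positivity)
          _ = _ := by rw [pow_add]; ring
      have h2 := tsum_of_norm_bounded ((hΔ.summable hr.le).mul_right
        (rho a ^ k * (2 * 2 ^ n))).hasSum hle
      rw [Real.norm_eq_abs, tsum_mul_right] at h2
      refine h2.trans ((mul_le_mul_of_nonneg_right (hΔ.tsum_le hr.le) (by positivity)).trans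
        (le_of_eq ?_))
      ring)
    ht hsum ht
  exact h1.congr_deriv (p2_conv h hf ht).tsum_eq

end H95L
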