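import Pool.Agent.Lib.H95L.Defs

/-!
# Chunk S1: the norm `Nb`, products excepted

All proofs are one or two lines from the definition
`Nb ρ f C : ∀ K, ∑ k ∈ range K, |coeff k f| * ρ ^ k ≤ C`.

* `Nb.nonneg`: `K = 0`.
* `Nb.mono`: transitivity.  `Nb.mono_rho`: `ρ ^ k ≤ ρ' ^ k`.
* `Nb.add`, `Nb.sub`, `Nb.neg`: `|x ± y| ≤ |x| + |y|`, `sum_add_distrib`.
* `Nb.smul`: `|c x| = |c| |x|`, `mul_sum`.
* `Nb_zero`, `Nb_one`, `Nb_X`, `Nb_X_pow`: only one coefficient is not zero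
  (`coeff_one`, `coeff_X`, `coeff_X_pow`, `sum_ite_eq`); bound the sum over `range K` by
  `ρ ^ k` with `Finset.sum_ite_eq'` (value `ρ ^ m` or `0`).
* `Nb.sum`: induction on the finset with `Nb.add`.
* `Nb.coeff_le`: the term `k` of the sum over `range (k+1)` is at most the sum.
* `Nb.summable`: `summable_of_sum_range_le`, and `tsum_le`: `Real.tsum_le_of_sum_range_le`.
-/

namespace H95L

open Finset PowerSeries

variable {ρ ρ' C C' : ℝ} {f g : ℝ⟦X⟧}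

theorem Nb.nonneg (h : Nb ρ f C) : 0 ≤ C := by
  have := h 0
  simpa using this

theorem Nb.mono (h : Nb ρ f C) (hC : C ≤ C') : Nb ρ f C' := fun K => (h K).trans hC

theorem Nb.mono_rho (h : Nb ρ' f C) (h0 : 0 ≤ ρ) (hρ : ρ ≤ ρ') : Nb ρ f C := fun K =>
  (Finset.sum_le_sum fun k _ =>
    mul_le_mul_of_nonneg_left (pow_le_pow_left₀ h0 hρ k) (abs_nonneg _)).trans (h K)

theorem Nb.add (h : Nb ρ f C) (h' : Nb ρ g C') (h0 : 0 ≤ ρ) : Nb ρ (f + g) (C + C') := by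
  intro K
  refine (Finset.sum_le_sum (g := fun k => |coeff k f| * ρ ^ k + |coeff k g| * ρ ^ k)
    fun k _ => ?_).trans ?_
  · rw [map_add, ← add_mul]
    exact mul_le_mul_of_nonneg_right (abs_add_le _ _) (pow_nonneg h0 k)
  · rw [Finset.sum_add_distrib]
    exact add_le_add (h K) (h' K)

theorem Nb.neg (h : Nb ρ f C) : Nb ρ (-f) C := by
  intro K
  simp only [map_neg, abs_neg]
  exact h K

theorem Nb.sub (h : Nb ρ f C) (h' : Nb ρ g C') (h0 : 0 ≤ ρ) : Nb ρ (f - g) (C + C') := by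
  rw [sub_eq_add_neg]
  exact h.add h'.neg h0

theorem Nb.smul (h : Nb ρ f C) (c : ℝ) : Nb ρ (c • f) (|c| * C) := by
  intro K
  have h1 : ∑ k ∈ range K, |coeff k (c • f)| * ρ ^ k = |c| * ∑ k ∈ range K, |coeff k f| * ρ ^ k := by
    rw [Finset.mul_sum]
    refine Finset.sum_congr rfl fun k _ => ?_
    rw [map_smul, smul_eq_mul, abs_mul, mul_assoc]
  rw [h1]
  exact mul_le_mul_of_nonneg_left (h K) (abs_nonneg c)

theorem Nb_zero (ρ : ℝ) : Nb ρ 0 0 := by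
  intro K
  simp

theorem Nb_X_pow (h0 : 0 ≤ ρ) (m : ℕ) : Nb ρ (X ^ m) (ρ ^ m) := by
  intro K
  have h1 : ∀ k, |coeff k (X ^ m : ℝ⟦X⟧)| * ρ ^ k = if k = m then ρ ^ m else 0 := by
    intro k
    rw [coeff_X_pow]
    split_ifs with h
    · rw [abs_one, one_mul, h]
    · rw [abs_zero, zero_mul]
  rw [Finset.sum_congr rfl fun k _ => h1 k, Finset.sum_ite_eq']
  split_ifs
  · exact le_refl _
  · exact pow_nonneg h0 m

theorem Nb_one (h0 : 0 ≤ ρ) : Nb ρ 1 1 := by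
  have := Nb_X_pow h0 0
  simpa using this

theorem Nb_X (h0 : 0 ≤ ρ) : Nb ρ X ρ := by
  have := Nb_X_pow h0 1
  simpa using this

theorem Nb.sum {ι : Type*} (s : Finset ι) {F : ι → ℝ⟦X⟧} {c : ι → ℝ} (h0 : 0 ≤ ρ)
    (h : ∀ i ∈ s, Nb ρ (F i) (c i)) : Nb ρ (∑ i ∈ s, F i) (∑ i ∈ s, c i) := by
  classical
  induction s using Finset.induction_on with
  | empty =>
    rw [Finset.sum_empty, Finset.sum_empty]
    exact Nb_zero ρ
  | insert a s ha ih =>
    rw [Finset.sum_insert ha, Finset.sum_insert ha]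
    exact (h a (Finset.mem_insert_self a s)).add
      (ih fun i hi => h i (Finset.mem_insert_of_mem hi)) h0

theorem Nb.coeff_le (h : Nb ρ f C) (h0 : 0 ≤ ρ) (k : ℕ) : |coeff k f| * ρ ^ k ≤ C :=
  (Finset.single_le_sum (f := fun k => |coeff k f| * ρ ^ k)
    (fun _ _ => mul_nonneg (abs_nonneg _) (pow_nonneg h0 _))
    (Finset.mem_range.2 (Nat.lt_succ_self k))).trans (h (k + 1))

theorem Nb.summable (h : Nb ρ f C) (h0 : 0 ≤ ρ) : Summable fun k => |coeff k f| * ρ ^ k :=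
  summable_of_sum_range_le (fun _ => mul_nonneg (abs_nonneg _) (pow_nonneg h0 _)) h

theorem Nb.tsum_le (h : Nb ρ f C) (h0 : 0 ≤ ρ) : ∑' k, |coeff k f| * ρ ^ k ≤ C :=
  Real.tsum_le_of_sum_range_le (fun _ => mul_nonneg (abs_nonneg _) (pow_nonneg h0 _)) h

end H95L
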