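import Pool.Agent.Lib.H95L.S1

/-!
# Chunk S2: the norm of products and of inverses

`Nb.mul`. `|coeff k (f g)| ρ^k ≤ ∑_{i+j=k} (|f_i| ρ^i) (|g_j| ρ^j)` (`coeff_mul`,
`Finset.abs_sum_le_sum_abs`), and the sum over `k < K` of the antidiagonal sums of nonnegative
numbers is at most `(∑_{i<K} |f_i| ρ^i) (∑_{j<K} |g_j| ρ^j)`: the map `(k, (i,j)) ↦ (i, j)` is
injective from `(range K).sigma antidiagonal` into `range K ×ˢ range K`
(`Finset.sum_sigma'`, `Finset.sum_le_sum_of_injOn` or `Finset.sum_image` and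
`Finset.sum_le_sum_of_subset_of_nonneg`, `Finset.sum_mul_sum`).

`Nb.inv_sub_one`, `Nb.inv`. The hypothesis at `K = 1` gives `|f_0 - 1| ≤ δ < 1`, so
`constantCoeff f ≠ 0` and `f * f⁻¹ = 1` (`PowerSeries.mul_inv_cancel`). Put `g = f⁻¹`,
`h = f - 1`; then `g = 1 - h g`. For every `K` let `S_K = ∑_{k<K} |g_k| ρ^k`. The truncated form
of `Nb.mul` (prove it as the lemma `Nb_mul_aux`:
`∑_{k<K} |(h g)_k| ρ^k ≤ (∑_{i<K} |h_i| ρ^i) (∑_{j<K} |g_j| ρ^j)`) gives `S_K ≤ 1 + δ S_K`, hence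
`S_K ≤ 1/(1-δ)`. And `g - 1 = -h g`, so its norm is at most `δ/(1-δ)`.
-/

namespace H95L

open Finset PowerSeries

variable {ρ C C' δ : ℝ} {f g : ℝ⟦X⟧}

theorem Nb_mul_aux (h0 : 0 ≤ ρ) (f g : ℝ⟦X⟧) (K : ℕ) :
    ∑ k ∈ range K, |coeff k (f * g)| * ρ ^ k ≤
      (∑ k ∈ range K, |coeff k f| * ρ ^ k) * ∑ k ∈ range K, |coeff k g| * ρ ^ k := by
  have h1 : ∀ k ∈ range K, |coeff k (f * g)| * ρ ^ k ≤
      ∑ p ∈ antidiagonal k, (|coeff p.1 f| * ρ ^ p.1) * (|coeff p.2 g| * ρ ^ p.2) := by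
    intro k _
    rw [coeff_mul]
    calc |∑ p ∈ antidiagonal k, coeff p.1 f * coeff p.2 g| * ρ ^ k
        ≤ (∑ p ∈ antidiagonal k, |coeff p.1 f * coeff p.2 g|) * ρ ^ k :=
          mul_le_mul_of_nonneg_right (abs_sum_le_sum_abs _ _) (pow_nonneg h0 _)
      _ = ∑ p ∈ antidiagonal k, (|coeff p.1 f| * ρ ^ p.1) * (|coeff p.2 g| * ρ ^ p.2) := by
          rw [sum_mul]
          refine sum_congr rfl (fun p hp => ?_)
          rw [HasAntidiagonal.mem_antidiagonal] at hp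
          rw [abs_mul, ← hp, pow_add]
          ring
  refine (sum_le_sum h1).trans ?_
  rw [sum_mul_sum, ← sum_product', sum_sigma']
  have hinj : Set.InjOn (fun x : (_ : ℕ) × (ℕ × ℕ) => x.2)
      ((range K).sigma fun k => antidiagonal k : Finset ((_ : ℕ) × (ℕ × ℕ))) := by
    rintro ⟨k, p⟩ hx ⟨k', p'⟩ hx' h
    rw [mem_coe, mem_sigma, mem_range, HasAntidiagonal.mem_antidiagonal] at hx hx'
    dsimp only at h hx hx'
    subst h
    have : k = k' := by omega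
    subst this
    rfl
  have h2 := sum_image (f := fun p : ℕ × ℕ => (|coeff p.1 f| * ρ ^ p.1) * (|coeff p.2 g| * ρ ^ p.2))
    hinj
  rw [← h2]
  refine sum_le_sum_of_subset_of_nonneg ?_ (fun p _ _ => by positivity)
  intro p hp
  rw [mem_image] at hp
  obtain ⟨⟨k, p'⟩, hx, rfl⟩ := hp
  rw [mem_sigma, mem_range, HasAntidiagonal.mem_antidiagonal] at hx
  dsimp only at hx ⊢
  rw [mem_product, mem_range, mem_range]
  omega

theorem Nb.mul (h : Nb ρ f C) (h' : Nb ρ g C') (h0 : 0 ≤ ρ) : Nb ρ (f * g) (C * C') := by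
  intro K
  refine (Nb_mul_aux h0 f g K).trans ?_
  exact mul_le_mul (h K) (h' K) (sum_nonneg fun k _ => by positivity) h.nonneg

theorem Nb.const_ne (h : Nb ρ (f - 1) δ) (h1 : δ < 1) : constantCoeff f ≠ 0 := by
  intro hf
  have h2 := h 1
  rw [sum_range_one, pow_zero, mul_one, map_sub, coeff_zero_eq_constantCoeff_apply, hf,
    coeff_zero_eq_constantCoeff_apply, map_one, zero_sub, abs_neg, abs_one] at h2
  linarith

theorem s2_key (h : Nb ρ (f - 1) δ) (h0 : 0 ≤ ρ) (h1 : δ < 1) :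
    f⁻¹ = 1 - (f - 1) * f⁻¹ := by
  have h2 := PowerSeries.mul_inv_cancel f (h.const_ne h1)
  rw [sub_mul, h2]
  ring

theorem Nb.inv (h : Nb ρ (f - 1) δ) (h0 : 0 ≤ ρ) (h1 : δ < 1) : Nb ρ f⁻¹ (1 / (1 - δ)) := by
  intro K
  have hk := s2_key h h0 h1
  set S := ∑ k ∈ range K, |coeff k f⁻¹| * ρ ^ k with hS
  have hS0 : 0 ≤ S := sum_nonneg fun k _ => by positivity
  have h2 : S ≤ 1 + δ * S := by
    have h3 : S ≤ ∑ k ∈ range K, (|coeff k (1 : ℝ⟦X⟧)| * ρ ^ k +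
        |coeff k ((f - 1) * f⁻¹)| * ρ ^ k) := by
      rw [hS]
      refine sum_le_sum (fun k _ => ?_)
      rw [← add_mul]
      refine mul_le_mul_of_nonneg_right ?_ (pow_nonneg h0 _)
      conv_lhs => rw [hk]
      rw [map_sub]
      exact abs_sub _ _
    rw [sum_add_distrib] at h3
    have h4 := Nb_one h0 K
    have h5 := Nb_mul_aux h0 (f - 1) f⁻¹ K
    have h6 := mul_le_mul_of_nonneg_right (h K) hS0
    rw [← hS] at h5
    linarith
  rw [le_div_iff₀ (by linarith)]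
  linarith

theorem Nb.inv_sub_one (h : Nb ρ (f - 1) δ) (h0 : 0 ≤ ρ) (h1 : δ < 1) :
    Nb ρ (f⁻¹ - 1) (δ / (1 - δ)) := by
  have hk := s2_key h h0 h1
  have h2 : f⁻¹ - 1 = -((f - 1) * f⁻¹) := by
    conv_lhs => rw [hk]
    ring
  rw [h2, div_eq_mul_one_div]
  exact (h.mul (h.inv h0 h1) h0).neg

end H95L
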