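import Pool.Agent.Lib.H95L.G4

/-!
# Chunk U1: equality in Cauchy-Schwarz for a maximiser

* `av_eq`: the colours which do not occur on the neighbours of `x`: `av G x c + |c(N(x))| = q`.
* `av_inj`: if `c` is injective then `av G x c + dg G x = q`.
* `av_merge`: `c` injective, `u ≠ v`, `c' = update c u (c v)`: `c'` is injective on every set which does
  not contain both `u` and `v`, and identifies exactly `u` and `v`: so
  `av G x c' + dg G x = q + [G.Adj x u ∧ G.Adj x v]`.
* `U1`: let `c : V → Fin q` be injective (`card V ≤ q`), `c' = update c u (c v)`. `Off G x y c` is clear;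
  `Off G x y c'` because `u`, `v` are not adjacent. `cs_eq_Mx`:
  `av x c * av y c' = av x c' * av y c`, i.e. with `A = q - dg x > 0`, `B = q - dg y > 0` (`dg < card V < q`)
  `A (B + β) = (A + 1) B` where `β = [G.Adj y u ∧ G.Adj y v]`. So `A β = B`, hence `β = 1`, `A = B`.
-/

namespace H95L

open Finset

variable {V : Type*} [Fintype V] [DecidableEq V] {q : ℕ} {t : ℝ} {G : SimpleGraph V} {x y : V}

open Classical in
theorem u1_av (c : V → Fin q) : av G x c + ((univ.filter fun v => G.Adj x v).image c).card = q := by
  have h2 : av G x c = (((univ.filter fun v => G.Adj x v).image c)ᶜ).card := by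
    unfold av
    congr 1
    ext i
    simp only [mem_filter, mem_univ, true_and, mem_compl, mem_image, not_exists, not_and]
  rw [h2, add_comm, Finset.card_add_card_compl, Fintype.card_fin]

theorem av_inj (c : V → Fin q) (hc : Function.Injective c) : av G x c + dg G x = q := by
  classical
  have h := u1_av (G := G) (x := x) c
  rw [Finset.card_image_of_injective _ hc] at h
  exact h

open Classical in
theorem av_merge (c : V → Fin q) (hc : Function.Injective c) {u v : V} (huv : u ≠ v) :
    av G x (Function.update c u (c v)) + dg G x =
      q + if G.Adj x u ∧ G.Adj x v then 1 else 0 := by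
  have h := u1_av (G := G) (x := x) (Function.update c u (c v))
  set N : Finset V := univ.filter fun v => G.Adj x v with hN
  have hdg : dg G x = N.card := rfl
  by_cases hu : u ∈ N
  · have hu' : G.Adj x u := by simpa [hN] using hu
    have h1 : N.image (Function.update c u (c v)) = (insert v (N.erase u)).image c := by
      ext i
      simp only [mem_image, mem_insert, mem_erase]
      constructor
      · rintro ⟨a, ha, rfl⟩
        by_cases hau : a = u
        · subst hau
          exact ⟨v, Or.inl rfl, by simp⟩
        · exact ⟨a, Or.inr ⟨hau, ha⟩, by simp [Function.update_of_ne hau]⟩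
      · rintro ⟨a, ha | ⟨hau, ha⟩, rfl⟩
        · exact ⟨u, hu, by rw [ha]; simp⟩
        · exact ⟨a, ha, by simp [Function.update_of_ne hau]⟩
    rw [h1, Finset.card_image_of_injective _ hc] at h
    have hpos : 0 < N.card := Finset.card_pos.2 ⟨u, hu⟩
    by_cases hv : v ∈ N
    · have hv' : G.Adj x v := by simpa [hN] using hv
      rw [Finset.insert_eq_of_mem (mem_erase.2 ⟨huv.symm, hv⟩), Finset.card_erase_of_mem hu] at h
      rw [if_pos ⟨hu', hv'⟩, hdg]
      omega
    · have hv' : ¬G.Adj x v := by simpa [hN] using hv
      have hv2 : v ∉ N.erase u := fun h => hv (mem_of_mem_erase h)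
      rw [Finset.card_insert_of_notMem hv2, Finset.card_erase_of_mem hu] at h
      rw [if_neg (fun h => hv' h.2), hdg]
      omega
  · have hu' : ¬G.Adj x u := by simpa [hN] using hu
    have h1 : N.image (Function.update c u (c v)) = N.image c := by
      apply Finset.image_congr
      intro a ha
      have hau : a ≠ u := by
        rintro rfl
        exact hu ha
      exact Function.update_of_ne hau _ _
    rw [h1, Finset.card_image_of_injective _ hc] at h
    rw [if_neg (fun h => hu' h.1), hdg]
    omega

theorem U1 (hq : Fintype.card V < q) (ht : 0 < t) (hG : Mx q t G) (hpos : 0 < wt q t G)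
    (hxy : x ≠ y) (h : ¬ G.Adj x y) {u v : V} (huv : u ≠ v) (h2 : ¬ G.Adj u v)
    (hu : G.Adj x u) (hv : G.Adj x v) : G.Adj y u ∧ G.Adj y v ∧ dg G x = dg G y := by
  classical
  obtain ⟨c⟩ : Nonempty (V ↪ Fin q) := Function.Embedding.nonempty_of_card_le (by
    rw [Fintype.card_fin]; exact hq.le)
  have hc := c.injective
  have hO : Off G x y c := fun a b _ _ _ _ hab hcab => hab.ne (hc hcab)
  have hO' : Off G x y (Function.update c u (c v)) := by
    intro a b _ _ _ _ hab hcab
    by_cases ha : a = u
    · subst ha
      have hb : b ≠ a := hab.ne'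
      rw [Function.update_self, Function.update_of_ne hb] at hcab
      have := hc hcab
      subst this
      exact h2 hab
    · by_cases hb : b = u
      · subst hb
        rw [Function.update_self, Function.update_of_ne ha] at hcab
        have := hc hcab
        subst this
        exact h2 hab.symm
      · rw [Function.update_of_ne ha, Function.update_of_ne hb] at hcab
        exact hab.ne (hc hcab)
  have h3 := cs_eq_Mx ht hG hpos hxy h c _ hO hO'
  have hx1 := av_inj (G := G) (x := x) c hc
  have hy1 := av_inj (G := G) (x := y) c hc
  have hx2 := av_merge (G := G) (x := x) c hc huv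
  have hy2 := av_merge (G := G) (x := y) c hc huv
  rw [if_pos ⟨hu, hv⟩] at hx2
  have hdy : dg G y ≤ Fintype.card V := Finset.card_le_univ _
  have hA : av G x (Function.update c u (c v)) = av G x c + 1 := by omega
  by_cases hβ : G.Adj y u ∧ G.Adj y v
  · rw [if_pos hβ] at hy2
    have hB : av G y (Function.update c u (c v)) = av G y c + 1 := by omega
    rw [hA, hB] at h3
    refine ⟨hβ.1, hβ.2, ?_⟩
    have h4 : av G x c = av G y c := by nlinarith
    omega
  · exfalso
    rw [if_neg hβ] at hy2
    have hB : av G y (Function.update c u (c v)) = av G y c := by omega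
    rw [hA, hB] at h3
    have h4 : av G y c = 0 := by nlinarith
    omega

end H95L
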