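import Pool.Agent.Lib.H95L.U1

/-!
# Chunk U2: a maximiser in which `N(x)` is not a clique

`x ≠ y` not adjacent, `u ≠ v` not adjacent, both adjacent to `x`. By `U1`: both adjacent to `y` and
`dg x = dg y`. Suppose `x`, `y` are not twins; as the degrees agree there is `z` with `G.Adj x z`,
`¬ G.Adj y z` (two finite sets with equal cardinality, one not contained in the other). `z ≠ u, v`,
`z ≠ y` (`x`, `y` are not adjacent).
(1) every neighbour `w ≠ z` of `x` is adjacent to `z`: otherwise `U1` for the pair `w, z` of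
neighbours of `x` gives `G.Adj y z`.
(2) So `N(z) ⊇ (N(x) \ {z}) ∪ {x}`; in particular `u, v ∈ N(z)`, and `U1` for `z, y` (not adjacent,
`z ≠ y`) gives `dg z = dg y = dg x`.
(3) Let `G1 = clone G x y` (`x` becomes a copy of `y`). It is a maximiser (`Mx_clone`) and has the same
positive weight (`Mx` for both). `z`, `y` are not adjacent in `G1` (`clone_adj_off`), `u`, `v` are not
adjacent in `G1` and both are adjacent to `z` in `G1`. So `U1` in `G1` gives
`dg G1 z = dg G1 y`. But `dg G1 y = dg G y` (`x` is adjacent to `y` neither in `G` nor in `G1`) and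
`dg G1 z = dg G z - 1` (`x` is a neighbour of `z` in `G`, not in `G1`, `clone_adj_x`). Contradiction.
-/

namespace H95L

open Finset

variable {V : Type*} [Fintype V] [DecidableEq V] {q : ℕ} {t : ℝ} {G : SimpleGraph V} {x y : V}

theorem u2_exists (hd : dg G x = dg G y) (ht : ¬ Tw G x y) : ∃ z, G.Adj x z ∧ ¬ G.Adj y z := by
  classical
  by_contra hne
  push Not at hne
  apply ht
  have h1 : (univ.filter fun v => G.Adj x v) ⊆ univ.filter fun v => G.Adj y v := by
    intro v hv
    rw [mem_filter] at hv ⊢
    exact ⟨mem_univ _, hne v hv.2⟩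
  have h2 : (univ.filter fun v => G.Adj y v).card ≤ (univ.filter fun v => G.Adj x v).card := by
    have : dg G y ≤ dg G x := hd.ge
    unfold dg at this
    exact this
  have h3 := eq_of_subset_of_card_le h1 h2
  intro w
  have h4 := Finset.ext_iff.1 h3 w
  rw [mem_filter, mem_filter] at h4
  constructor
  · intro h; exact (h4.1 ⟨mem_univ _, h⟩).2
  · intro h; exact (h4.2 ⟨mem_univ _, h⟩).2

theorem u2_dg_eq {G' : SimpleGraph V} {z : V} (h : ∀ w, G'.Adj z w ↔ G.Adj z w) :
    dg G' z = dg G z := by
  classical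
  unfold dg
  congr 1
  ext w
  rw [mem_filter, mem_filter, h w]

theorem u2_dg_succ {G' : SimpleGraph V} {z : V} (h : ∀ w, G'.Adj z w ↔ w ≠ x ∧ G.Adj z w)
    (hx : G.Adj z x) : dg G' z + 1 = dg G z := by
  classical
  unfold dg
  rw [← card_insert_of_notMem (a := x)]
  · congr 1
    ext w
    rw [mem_insert, mem_filter, mem_filter, h w]
    constructor
    · rintro (rfl | h1)
      · exact ⟨mem_univ _, hx⟩
      · exact ⟨mem_univ _, h1.2.2⟩
    · intro h1
      by_cases hw : w = x
      · exact Or.inl hw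
      · exact Or.inr ⟨mem_univ _, hw, h1.2⟩
  · rw [mem_filter, h x]
    simp

theorem U2 (hq : Fintype.card V < q) (ht : 0 < t) (hG : Mx q t G) (hpos : 0 < wt q t G)
    (hxy : x ≠ y) (h : ¬ G.Adj x y) {u v : V} (huv : u ≠ v) (h2 : ¬ G.Adj u v)
    (hu : G.Adj x u) (hv : G.Adj x v) : Tw G x y := by
  obtain ⟨yu, yv, hd⟩ := U1 hq ht hG hpos hxy h huv h2 hu hv
  by_contra htw
  obtain ⟨z, xz, yz⟩ := u2_exists hd htw
  have hzx : z ≠ x := fun he => G.loopless.irrefl x (by rw [he] at xz; exact xz)
  have hzy : z ≠ y := fun he => h (by rw [he] at xz; exact xz)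
  have huz : u ≠ z := fun he => yz (by rw [← he]; exact yu)
  have hvz : v ≠ z := fun he => yz (by rw [← he]; exact yv)
  have hux : u ≠ x := fun he => G.loopless.irrefl x (by rw [he] at hu; exact hu)
  have hvx : v ≠ x := fun he => G.loopless.irrefl x (by rw [he] at hv; exact hv)
  have key : ∀ w, G.Adj x w → w ≠ z → G.Adj z w := by
    intro w hw hwz
    by_contra hc
    exact yz (U1 hq ht hG hpos hxy h hwz (fun h' => hc h'.symm) hw xz).2.1
  have zu := key u hu huz
  have zv := key v hv hvz
  have hzy' : ¬ G.Adj z y := fun h' => yz h'.symm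
  obtain ⟨-, -, hd2⟩ := U1 hq ht hG hpos hzy hzy' huv h2 zu zv
  -- the clone
  have hG1 := Mx_clone ht hG hxy h
  have hpos1 : 0 < wt q t (clone G x y) := lt_of_lt_of_le hpos (hG1 G)
  have a1 : ¬ (clone G x y).Adj z y := by
    rw [clone_adj_off hzx hxy.symm]; exact hzy'
  have a2 : ¬ (clone G x y).Adj u v := by
    rw [clone_adj_off hux hvx]; exact h2
  have a3 : (clone G x y).Adj z u := by
    rw [clone_adj_off hzx hux]; exact zu
  have a4 : (clone G x y).Adj z v := by
    rw [clone_adj_off hzx hvx]; exact zv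
  obtain ⟨-, -, hd3⟩ := U1 hq ht hG1 hpos1 hzy a1 huv a2 a3 a4
  have e1 : dg (clone G x y) y = dg G y := by
    apply u2_dg_eq
    intro w
    by_cases hw : w = x
    · subst hw
      rw [(clone G w y).adj_comm, clone_adj_x hxy h, G.adj_comm y w]
      constructor
      · intro h'; exact absurd h' (G.loopless.irrefl y)
      · intro h'; exact absurd h' h
    · exact clone_adj_off hxy.symm hw
  have e2 : dg (clone G x y) z + 1 = dg G z := by
    apply u2_dg_succ (x := x) _ xz.symm
    intro w
    by_cases hw : w = x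
    · subst hw
      rw [(clone G w y).adj_comm, clone_adj_x hxy h]
      constructor
      · intro h'; exact absurd h' yz
      · rintro ⟨h', -⟩; exact absurd rfl h'
    · rw [clone_adj_off hzx hw]
      exact ⟨fun h' => ⟨hw, h'⟩, fun h' => h'.2⟩
  omega

end H95L
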